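import Pool.Agent.Lib.P2ec0f3.Production

/-!
# Unbalanced vertices produce entropy
-/

open MeasureTheory ProbabilityTheory Filter Topology Function
open scoped unitInterval

namespace Pool.Agent.P2ec0f3

variable {d : ℕ} (ℓ : Fin d → ℝ) (lam : ℝ) (ω : Set (Edge d))

open Classical in
/-- The sign of `ℓ j`. -/
noncomputable def sg (j : Fin d) : ℤ := if 0 < ℓ j then 1 else -1

open Classical in
/-- The integer indicator of an edge being open. -/
noncomputable def openZ (x : Vtx d) (j : Fin d) : ℤ := if (x, j) ∈ ω then 1 else 0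

lemma openZ_cast (x : Vtx d) (j : Fin d) : ((openZ ω x j : ℤ) : ℝ) = openInd ω x j := by
  unfold openZ openInd
  split_ifs <;> simp

/-- The number of open edges upwards minus the number of open edges downwards. -/
noncomputable def beta (x : Vtx d) : ℤ :=
  ∑ j, sg ℓ j * (openZ ω x j - openZ ω (x - basisVec j) j)

/-- The indicator of the unbalanced vertices. -/
noncomputable def unb (x : Vtx d) : ℝ := if beta ℓ ω x = 0 then 0 else 1

lemma unb_nonneg (x : Vtx d) : 0 ≤ unb ℓ ω x := by unfold unb; split_ifs <;> norm_num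

lemma unb_le_one (x : Vtx d) : unb ℓ ω x ≤ 1 := by unfold unb; split_ifs <;> norm_num

lemma unb_le_abs (x : Vtx d) : unb ℓ ω x ≤ |(beta ℓ ω x : ℝ)| := by
  unfold unb
  split_ifs with h
  · exact abs_nonneg _
  · have : (1 : ℤ) ≤ |beta ℓ ω x| := Int.one_le_abs h
    exact_mod_cast this

/-- The test function: minus the sign of `beta`. -/
noncomputable def gf (x : Vtx d) : ℝ := - (SignType.sign (beta ℓ ω x) : ℤ)

lemma gf_mul_beta (x : Vtx d) : gf ℓ ω x * (beta ℓ ω x : ℝ) = -|(beta ℓ ω x : ℝ)| := by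
  unfold gf
  have h : ((SignType.sign (beta ℓ ω x) : ℤ) * beta ℓ ω x : ℤ) = |beta ℓ ω x| := by
    exact sign_mul_self (beta ℓ ω x)
  have h' : (((SignType.sign (beta ℓ ω x) : ℤ) : ℝ) * (beta ℓ ω x : ℝ)) = |(beta ℓ ω x : ℝ)| := by
    exact_mod_cast h
  rw [neg_mul, h']

lemma abs_gf (x : Vtx d) : |gf ℓ ω x| = unb ℓ ω x := by
  unfold gf unb
  rw [abs_neg]
  split_ifs with h
  · rw [h]; simp
  · rcases lt_or_gt_of_ne h with h1 | h1
    · rw [sign_neg h1]; simp
    · rw [sign_pos h1]; simp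

lemma cv_eq {δ : ℝ} (hδ : 0 < δ) (hℓ : ∀ j, |ℓ j| = δ) (j : Fin d) :
    cv ℓ lam j = (Real.exp (lam * δ) - (Real.exp (lam * δ))⁻¹) * sg ℓ j := by
  unfold cv av sg
  rcases (abs_eq hδ.le).1 (hℓ j) with h | h
  · rw [h, if_pos hδ]; simp
  · rw [h, if_neg (by linarith)]
    have h1 : Real.exp (lam * -δ) = (Real.exp (lam * δ))⁻¹ := by
      rw [mul_neg, Real.exp_neg]
    rw [h1, inv_inv]
    push_cast
    ring

lemma av_bounds {δ : ℝ} (hδ : 0 < δ) (hlam : 0 < lam) (hℓ : ∀ j, |ℓ j| = δ) (j : Fin d) :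
    av ℓ lam j ≤ Real.exp (lam * δ) ∧ (av ℓ lam j)⁻¹ ≤ Real.exp (lam * δ) ∧
    (Real.exp (lam * δ))⁻¹ ≤ av ℓ lam j ∧ (Real.exp (lam * δ))⁻¹ ≤ (av ℓ lam j)⁻¹ := by
  have hp := mul_pos hlam hδ
  unfold av
  rw [← Real.exp_neg, ← Real.exp_neg]
  rcases (abs_eq hδ.le).1 (hℓ j) with h | h <;> rw [h] <;>
  refine ⟨Real.exp_le_exp.2 ?_, Real.exp_le_exp.2 ?_, Real.exp_le_exp.2 ?_,
    Real.exp_le_exp.2 ?_⟩ <;> nlinarith

/-- The weight of the unbalanced vertices. -/
noncomputable def unbPsi (N : ℕ) : ℝ := ∑' x, unb ℓ ω x * psi ℓ lam ω N x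

lemma hasFiniteSupport_psi (N : ℕ) : HasFiniteSupport (psi ℓ lam ω N) :=
  hasFiniteSupport_of_mul (hasFiniteSupport_occ ℓ lam ω N) fun x hx => by simp [psi, hx]

/-- The flow through the vertices, tested against the sign of `beta`. -/
lemma balance_identity {δ : ℝ} (hδ : 0 < δ) (hℓ : ∀ j, |ℓ j| = δ) (N : ℕ) :
    (Real.exp (lam * δ) - (Real.exp (lam * δ))⁻¹) *
        ∑' x, |(beta ℓ ω x : ℝ)| * psi ℓ lam ω N x =
      ∫ x, gf ℓ ω x ∂(lawAt ℓ lam ω N) - gf ℓ ω 0 -
      ∑ j, ∑' x, openInd ω x j * (psi ℓ lam ω N x - psi ℓ lam ω N (x + basisVec j)) *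
        (av ℓ lam j * gf ℓ ω (x + basisVec j) - (av ℓ lam j)⁻¹ * gf ℓ ω x) := by
  classical
  set c := Real.exp (lam * δ) - (Real.exp (lam * δ))⁻¹ with hc
  set ψ := psi ℓ lam ω N with hψ
  set g := gf ℓ ω with hg
  have hf : HasFiniteSupport ψ := hasFiniteSupport_psi ℓ lam ω N
  have hf' : ∀ j, HasFiniteSupport (fun x => ψ (x + basisVec j)) := fun j =>
    hasFiniteSupport_shift hf _
  rw [integral_lawAt_eq ℓ lam ω N g, add_sub_cancel_left, ← Finset.sum_sub_distrib]
  have hS : ∀ j (G : Vtx d → ℝ), (∀ x, ψ x = 0 → ψ (x + basisVec j) = 0 → G x = 0) →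
      Summable G := by
    intro j G hG
    apply summable_of_hasFiniteSupport
    refine Set.Finite.subset (Set.Finite.union hf (hf' j)) fun x hx => ?_
    by_contra hcon
    rw [Set.mem_union, not_or] at hcon
    exact hx (hG x (by simpa using hcon.1) (by simpa using hcon.2))
  have h1 : ∀ j, (∑' x, openInd ω x j * (av ℓ lam j * ψ x - (av ℓ lam j)⁻¹ * ψ (x + basisVec j))
        * (g (x + basisVec j) - g x)) - ∑' x, openInd ω x j * (ψ x - ψ (x + basisVec j)) *
        (av ℓ lam j * g (x + basisVec j) - (av ℓ lam j)⁻¹ * g x) =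
      ∑' x, cv ℓ lam j * (openInd ω (x - basisVec j) j - openInd ω x j) * (ψ x * g x) := by
    intro j
    rw [← Summable.tsum_sub (hS j _ fun x h h' => by rw [h, h']; ring)
      (hS j _ fun x h h' => by rw [h, h']; ring)]
    have h2 : ∀ x, openInd ω x j * (av ℓ lam j * ψ x - (av ℓ lam j)⁻¹ * ψ (x + basisVec j))
        * (g (x + basisVec j) - g x) - openInd ω x j * (ψ x - ψ (x + basisVec j)) *
        (av ℓ lam j * g (x + basisVec j) - (av ℓ lam j)⁻¹ * g x) =
        openInd ω x j * cv ℓ lam j * (ψ (x + basisVec j) * g (x + basisVec j))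
          - openInd ω x j * cv ℓ lam j * (ψ x * g x) := by
      intro x
      unfold cv
      ring
    simp_rw [h2]
    rw [Summable.tsum_sub (hS j _ fun x h h' => by rw [h']; ring)
      (hS j _ fun x h h' => by rw [h]; ring)]
    have h3 := tsum_shift j (fun x => openInd ω (x - basisVec j) j * cv ℓ lam j * (ψ x * g x))
    simp only [add_sub_cancel_right] at h3
    rw [h3, ← Summable.tsum_sub (hS j _ fun x h h' => by rw [h]; ring)
      (hS j _ fun x h h' => by rw [h]; ring)]
    refine tsum_congr fun x => ?_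
    ring
  rw [Finset.sum_congr rfl fun j _ => h1 j, ← Summable.tsum_finsetSum fun j _ =>
    hS j _ fun x h h' => by rw [h]; ring, ← tsum_mul_left]
  refine tsum_congr fun x => ?_
  have h4 : ∑ j, cv ℓ lam j * (openInd ω (x - basisVec j) j - openInd ω x j) * (ψ x * g x) =
      - c * (beta ℓ ω x : ℝ) * (ψ x * g x) := by
    rw [← Finset.sum_mul]
    congr 1
    unfold beta
    push_cast
    rw [Finset.mul_sum]
    refine Finset.sum_congr rfl fun j _ => ?_
    rw [cv_eq ℓ lam hδ hℓ, openZ_cast, openZ_cast]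
    ring
  rw [h4]
  have h5 := gf_mul_beta ℓ ω x
  rw [← hg] at h5
  have : -c * (beta ℓ ω x : ℝ) * (ψ x * g x) = -c * ψ x * (g x * (beta ℓ ω x : ℝ)) := by ring
  rw [this, h5]
  ring

lemma unbPsi_nonneg (N : ℕ) : 0 ≤ unbPsi ℓ lam ω N :=
  tsum_nonneg fun x => mul_nonneg (unb_nonneg ..) (psi_nonneg ..)

/-- The unbalanced vertices are controlled by the entropy production. -/
lemma unbPsi_le {δ : ℝ} (hδ : 0 < δ) (hlam : 0 < lam) (hℓ : ∀ j, |ℓ j| = δ) (N : ℕ)
    {e η : ℝ} (he : 0 < e) (hη : 0 < η) (hη' : η ≤ 1 / 2) :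
    (Real.exp (lam * δ) - (Real.exp (lam * δ))⁻¹) * unbPsi ℓ lam ω N ≤
      2 + Real.exp (lam * δ) * (4 * η * d * unbPsi ℓ lam ω N
        + 4 * η * e * d * (box d (N + 1)).card
        + (η * (Real.exp (lam * δ))⁻¹)⁻¹ * totalProd ℓ lam ω N e) := by
  classical
  set A := Real.exp (lam * δ) with hA
  have hA0 : 0 < A := Real.exp_pos _
  have hA1 : 1 < A := Real.one_lt_exp_iff.2 (mul_pos hlam hδ)
  set c := A - A⁻¹ with hc
  have hc0 : 0 < c := by
    have : A⁻¹ < 1 := inv_lt_one_of_one_lt₀ hA1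
    rw [hc]; linarith
  set ψ := psi ℓ lam ω N with hψ
  set g := gf ℓ ω with hg
  set t := A⁻¹ with ht
  have ht0 : 0 < t := inv_pos.2 hA0
  have hf : HasFiniteSupport ψ := hasFiniteSupport_psi ℓ lam ω N
  have hf' : ∀ j, HasFiniteSupport (fun x => ψ (x + basisVec j)) := fun j =>
    hasFiniteSupport_shift hf _
  have hψ0 : ∀ x, 0 ≤ ψ x := fun x => psi_nonneg ..
  have hout : ∀ (j : Fin d) (x : Vtx d), x ∉ box d (N + 1) →
      ψ x = 0 ∧ ψ (x + basisVec j) = 0 := fun j x hx =>
    ⟨psi_eq_zero ℓ lam ω fun h => hx (box_mono (Nat.le_succ N) h),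
      psi_eq_zero ℓ lam ω (add_basisVec_notMem_box hx j)⟩
  have hunbsum : Summable fun x => unb ℓ ω x * ψ x :=
    summable_of_hasFiniteSupport (hasFiniteSupport_of_mul hf fun x hx => by simp [hx])
  have hunbsum' : ∀ j, Summable fun x => unb ℓ ω (x + basisVec j) * ψ (x + basisVec j) := fun j =>
    summable_of_hasFiniteSupport (hasFiniteSupport_of_mul (hf' j) fun x hx => by simp [hx])
  -- step 1
  have h1 : c * unbPsi ℓ lam ω N ≤ c * ∑' x, |(beta ℓ ω x : ℝ)| * ψ x := by
    refine mul_le_mul_of_nonneg_left ?_ hc0.le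
    refine Summable.tsum_le_tsum (fun x => mul_le_mul_of_nonneg_right (unb_le_abs ..) (hψ0 x))
      hunbsum ?_
    exact summable_of_hasFiniteSupport (hasFiniteSupport_of_mul hf fun x hx => by simp [hx])
  rw [balance_identity ℓ lam ω hδ hℓ N] at h1
  -- step 2: the boundary terms
  have hgle : ∀ x, |g x| ≤ 1 := fun x => by
    rw [hg, abs_gf]; exact unb_le_one ..
  have h2 : ∫ x, g x ∂(lawAt ℓ lam ω N) - g 0 ≤ 2 := by
    have h3 : ∫ x, g x ∂(lawAt ℓ lam ω N) ≤ 1 := by
      have h4 : ∫ _, (1 : ℝ) ∂(lawAt ℓ lam ω N) = 1 := by simp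
      rw [← h4]
      exact integral_mono (integrable_lawAt ..) (integrable_const _)
        fun x => le_trans (le_abs_self _) (hgle x)
    have h5 : -1 ≤ g 0 := by linarith [neg_abs_le (g 0), hgle 0]
    linarith
  -- step 3: each direction
  have h3 : ∀ j, - ∑' x, openInd ω x j * (ψ x - ψ (x + basisVec j)) *
        (av ℓ lam j * g (x + basisVec j) - (av ℓ lam j)⁻¹ * g x) ≤
      A * (4 * η * unbPsi ℓ lam ω N + 4 * η * e * (box d (N + 1)).card
        + (η * t)⁻¹ * ∑ x ∈ box d (N + 1), openInd ω x j *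
          prodn (av ℓ lam j) (ψ x + e) (ψ (x + basisVec j) + e)) := by
    intro j
    obtain ⟨b1, b2, b3, b4⟩ := av_bounds ℓ lam hδ hlam hℓ j
    rw [← hA] at b1 b2 b3 b4
    rw [tsum_eq_sum (s := box d (N + 1)) fun x hx => by simp [hout j x hx],
      ← Finset.sum_neg_distrib]
    have h4 : ∀ x ∈ box d (N + 1), -(openInd ω x j * (ψ x - ψ (x + basisVec j)) *
        (av ℓ lam j * g (x + basisVec j) - (av ℓ lam j)⁻¹ * g x)) ≤
        A * (2 * η * (unb ℓ ω (x + basisVec j) * ψ (x + basisVec j))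
          + 2 * η * (unb ℓ ω x * ψ x) + 4 * η * e
          + (η * t)⁻¹ * (openInd ω x j *
            prodn (av ℓ lam j) (ψ x + e) (ψ (x + basisVec j) + e))) := by
      intro x _
      set D := prodn (av ℓ lam j) (ψ x + e) (ψ (x + basisVec j) + e) with hD
      have hu : 0 < ψ x + e := by linarith [hψ0 x]
      have hv : 0 < ψ (x + basisVec j) + e := by linarith [hψ0 (x + basisVec j)]
      have hD0 : 0 ≤ D := prodn_nonneg (av_pos ℓ lam j) hu hv
      have hU0 := unb_nonneg ℓ ω x
      have hU1 := unb_le_one ℓ ω x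
      have hV0 := unb_nonneg ℓ ω (x + basisVec j)
      have hV1 := unb_le_one ℓ ω (x + basisVec j)
      have hηt : 0 < (η * t)⁻¹ := by positivity
      rcases openInd_eq ω x j with h | h
      · rw [h]
        have e1 : 0 ≤ unb ℓ ω (x + basisVec j) * ψ (x + basisVec j) :=
          mul_nonneg hV0 (hψ0 _)
        have e2 : 0 ≤ unb ℓ ω x * ψ x := mul_nonneg hU0 (hψ0 _)
        have : 0 ≤ A * (2 * η * (unb ℓ ω (x + basisVec j) * ψ (x + basisVec j))
          + 2 * η * (unb ℓ ω x * ψ x) + 4 * η * e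
          + (η * t)⁻¹ * (0 * D)) := by positivity
        simpa using this
      · rw [h, one_mul, one_mul]
        obtain ⟨k1, k2⟩ := abs_sub_le (η := η) (t := t) b3 b4 ht0 hu hv hη hη'
        rw [← hD] at k1 k2
        have e0 : (ψ x + e) - (ψ (x + basisVec j) + e) = ψ x - ψ (x + basisVec j) := by ring
        rw [e0] at k1 k2
        set Δ := ψ x - ψ (x + basisVec j) with hΔ
        have hK : 0 ≤ (2 * η * t)⁻¹ * D := by positivity
        have m1 : |Δ| * |g x| ≤ 2 * η * (unb ℓ ω x * ψ x) + 2 * η * e + (2 * η * t)⁻¹ * D := by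
          rw [hg, abs_gf]
          calc |Δ| * unb ℓ ω x ≤ (2 * η * (ψ x + e) + (2 * η * t)⁻¹ * D) * unb ℓ ω x :=
                mul_le_mul_of_nonneg_right k1 hU0
            _ = 2 * η * (unb ℓ ω x * ψ x) + (2 * η * e + (2 * η * t)⁻¹ * D) * unb ℓ ω x := by
                ring
            _ ≤ 2 * η * (unb ℓ ω x * ψ x) + (2 * η * e + (2 * η * t)⁻¹ * D) * 1 := by
                have : 0 ≤ 2 * η * e + (2 * η * t)⁻¹ * D := by positivity
                have := mul_le_mul_of_nonneg_left hU1 this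
                linarith
            _ = _ := by ring
        have m2 : |Δ| * |g (x + basisVec j)| ≤
            2 * η * (unb ℓ ω (x + basisVec j) * ψ (x + basisVec j)) + 2 * η * e
              + (2 * η * t)⁻¹ * D := by
          rw [hg, abs_gf]
          calc |Δ| * unb ℓ ω (x + basisVec j)
              ≤ (2 * η * (ψ (x + basisVec j) + e) + (2 * η * t)⁻¹ * D)
                * unb ℓ ω (x + basisVec j) := mul_le_mul_of_nonneg_right k2 hV0
            _ = 2 * η * (unb ℓ ω (x + basisVec j) * ψ (x + basisVec j))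
                + (2 * η * e + (2 * η * t)⁻¹ * D) * unb ℓ ω (x + basisVec j) := by
                ring
            _ ≤ 2 * η * (unb ℓ ω (x + basisVec j) * ψ (x + basisVec j))
                + (2 * η * e + (2 * η * t)⁻¹ * D) * 1 := by
                have : 0 ≤ 2 * η * e + (2 * η * t)⁻¹ * D := by positivity
                have := mul_le_mul_of_nonneg_left hV1 this
                linarith
            _ = _ := by ring
        have m3 : -(Δ * (av ℓ lam j * g (x + basisVec j) - (av ℓ lam j)⁻¹ * g x)) ≤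
            A * (|Δ| * |g (x + basisVec j)| + |Δ| * |g x|) := by
          have n1 : -(Δ * (av ℓ lam j * g (x + basisVec j) - (av ℓ lam j)⁻¹ * g x)) =
              av ℓ lam j * (-(Δ * g (x + basisVec j))) + (av ℓ lam j)⁻¹ * (Δ * g x) := by ring
          have n2 : -(Δ * g (x + basisVec j)) ≤ |Δ| * |g (x + basisVec j)| := by
            rw [← abs_mul]; exact neg_le_abs _
          have n3 : Δ * g x ≤ |Δ| * |g x| := by
            rw [← abs_mul]; exact le_abs_self _
          have q1 : 0 ≤ |Δ| * |g (x + basisVec j)| := by positivity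
          have q2 : 0 ≤ |Δ| * |g x| := by positivity
          have n4 : av ℓ lam j * (-(Δ * g (x + basisVec j))) ≤
              A * (|Δ| * |g (x + basisVec j)|) :=
            (mul_le_mul_of_nonneg_left n2 (av_pos ℓ lam j).le).trans
              (mul_le_mul_of_nonneg_right b1 q1)
          have n5 : (av ℓ lam j)⁻¹ * (Δ * g x) ≤ A * (|Δ| * |g x|) :=
            (mul_le_mul_of_nonneg_left n3 (inv_pos.2 (av_pos ℓ lam j)).le).trans
              (mul_le_mul_of_nonneg_right b2 q2)
          rw [n1]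
          linarith
        refine m3.trans (mul_le_mul_of_nonneg_left ?_ hA0.le)
        have hinv : (2 * η * t)⁻¹ * D + (2 * η * t)⁻¹ * D = (η * t)⁻¹ * (1 * D) := by
          field_simp
          ring
        linarith
    refine (Finset.sum_le_sum h4).trans ?_
    rw [← Finset.mul_sum]
    refine mul_le_mul_of_nonneg_left ?_ hA0.le
    rw [Finset.sum_add_distrib, Finset.sum_add_distrib, Finset.sum_add_distrib, Finset.sum_const,
      nsmul_eq_mul, ← Finset.mul_sum, ← Finset.mul_sum, ← Finset.mul_sum]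
    have s1 : ∑ x ∈ box d (N + 1), unb ℓ ω x * ψ x ≤ unbPsi ℓ lam ω N :=
      hunbsum.sum_le_tsum _ fun x _ => mul_nonneg (unb_nonneg ..) (hψ0 x)
    have s2 : ∑ x ∈ box d (N + 1), unb ℓ ω (x + basisVec j) * ψ (x + basisVec j) ≤
        unbPsi ℓ lam ω N := by
      have := (hunbsum' j).sum_le_tsum (box d (N + 1)) fun x _ =>
        mul_nonneg (unb_nonneg ..) (hψ0 _)
      refine this.trans (le_of_eq ?_)
      exact tsum_shift j fun x => unb ℓ ω x * ψ x
    have s1' := mul_le_mul_of_nonneg_left s1 (show 0 ≤ 2 * η by positivity)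
    have s2' := mul_le_mul_of_nonneg_left s2 (show 0 ≤ 2 * η by positivity)
    linarith
  have h4 := Finset.sum_le_sum (s := Finset.univ) fun j _ => h3 j
  rw [Finset.sum_neg_distrib] at h4
  have h5 : ∑ j : Fin d, A * (4 * η * unbPsi ℓ lam ω N + 4 * η * e * (box d (N + 1)).card
        + (η * t)⁻¹ * ∑ x ∈ box d (N + 1), openInd ω x j *
          prodn (av ℓ lam j) (ψ x + e) (ψ (x + basisVec j) + e)) =
      A * (4 * η * d * unbPsi ℓ lam ω N + 4 * η * e * d * (box d (N + 1)).card
        + (η * t)⁻¹ * totalProd ℓ lam ω N e) := by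
    rw [← Finset.mul_sum, Finset.sum_add_distrib, Finset.sum_const, Finset.card_univ,
      Fintype.card_fin, nsmul_eq_mul, ← Finset.mul_sum]
    unfold totalProd
    ring
  rw [h5] at h4
  linarith

end Pool.Agent.P2ec0f3
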