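import Mathlib.Probability.Kernel.IonescuTulcea.Traj
import Mathlib.Probability.Distributions.SetBernoulli
import Mathlib.Probability.ConditionalProbability
import Mathlib.Combinatorics.SimpleGraph.Connectivity.Connected
import Mathlib.Analysis.SpecialFunctions.Exp

/-!
# The biased random walk on percolation: definitions

`Vtx d = ℤ^d`.  The edge `(x, j)` joins `x` and `x + e_j`; an environment is the set of its open
edges.  The walk in the environment `ω` jumps from `x` to a neighbour `y` across an open edge with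
probability proportional to `exp (lam * (y - x) · ℓ)`.
-/

open MeasureTheory ProbabilityTheory Filter Topology
open scoped unitInterval

namespace Pool.Agent.P2ec0f3

/-- The vertices of the lattice `ℤ^d`. -/
abbrev Vtx (d : ℕ) := Fin d → ℤ

/-- The edges of `ℤ^d`: the pair `(x, j)` is the edge joining `x` and `x + e_j`. -/
abbrev Edge (d : ℕ) := Vtx d × Fin d

/-- The unit vector `e_j`. -/
def basisVec {d : ℕ} (j : Fin d) : Vtx d := Pi.single j 1

/-- The neighbour of `x` in direction `j`, upwards (`true`) or downwards (`false`). -/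
def nbr {d : ℕ} (x : Vtx d) (D : Fin d × Bool) : Vtx d :=
  if D.2 then x + basisVec D.1 else x - basisVec D.1

/-- The edge joining `x` and `nbr x D`. -/
def edgeTo {d : ℕ} (x : Vtx d) (D : Fin d × Bool) : Edge d :=
  if D.2 then (x, D.1) else (x - basisVec D.1, D.1)

open Classical in
/-- The weight of the jump from `x` to its neighbour `nbr x D`:
`exp (lam * (nbr x D - x) · ℓ)` if the edge between them is open, and `0` if it is closed. -/
noncomputable def weight {d : ℕ} (ℓ : Fin d → ℝ) (lam : ℝ) (ω : Set (Edge d)) (x : Vtx d)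
    (D : Fin d × Bool) : ℝ :=
  if edgeTo x D ∈ ω then Real.exp (lam * ∑ i, ((nbr x D i - x i : ℤ) : ℝ) * ℓ i) else 0

/-- The sum of the weights of the jumps from `x`. -/
noncomputable def total {d : ℕ} (ℓ : Fin d → ℝ) (lam : ℝ) (ω : Set (Edge d)) (x : Vtx d) : ℝ :=
  ∑ D, weight ℓ lam ω x D

open Classical in
/-- The law of the next position of the walk when it is at `x`: the neighbour `nbr x D` has
probability `weight x D / total x`.  (At a vertex all of whose edges are closed the walk stays
put.) -/
noncomputable def stepLaw {d : ℕ} (ℓ : Fin d → ℝ) (lam : ℝ) (ω : Set (Edge d)) (x : Vtx d) :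
    Measure (Vtx d) :=
  if total ℓ lam ω x = 0 then Measure.dirac x
  else ∑ D, ENNReal.ofReal (weight ℓ lam ω x D / total ℓ lam ω x) • Measure.dirac (nbr x D)

/-- The transition kernel of the walk in the environment `ω`. -/
noncomputable def stepKernel {d : ℕ} (ℓ : Fin d → ℝ) (lam : ℝ) (ω : Set (Edge d)) :
    Kernel (Vtx d) (Vtx d) :=
  Kernel.ofFunOfCountable (stepLaw ℓ lam ω)

lemma weight_nonneg {d : ℕ} (ℓ : Fin d → ℝ) (lam : ℝ) (ω : Set (Edge d)) (x : Vtx d)
    (D : Fin d × Bool) : 0 ≤ weight ℓ lam ω x D := by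
  unfold weight
  split_ifs <;> positivity

lemma total_nonneg {d : ℕ} (ℓ : Fin d → ℝ) (lam : ℝ) (ω : Set (Edge d)) (x : Vtx d) :
    0 ≤ total ℓ lam ω x :=
  Finset.sum_nonneg fun D _ => weight_nonneg ℓ lam ω x D

instance {d : ℕ} (ℓ : Fin d → ℝ) (lam : ℝ) (ω : Set (Edge d)) (x : Vtx d) :
    IsProbabilityMeasure (stepLaw ℓ lam ω x) := by
  classical
  unfold stepLaw
  split_ifs with h
  · infer_instance
  · constructor
    simp only [Measure.coe_finsetSum, Finset.sum_apply, Measure.smul_apply, smul_eq_mul,
      measure_univ, mul_one]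
    rw [← ENNReal.ofReal_sum_of_nonneg (fun D _ => div_nonneg (weight_nonneg ..)
      (total_nonneg ..)), ← Finset.sum_div]
    change ENNReal.ofReal (total ℓ lam ω x / total ℓ lam ω x) = 1
    rw [div_self h, ENNReal.ofReal_one]

instance {d : ℕ} (ℓ : Fin d → ℝ) (lam : ℝ) (ω : Set (Edge d)) :
    IsMarkovKernel (stepKernel ℓ lam ω) :=
  ⟨fun x => by
    change IsProbabilityMeasure (stepLaw ℓ lam ω x)
    infer_instance⟩

/-- The transition kernel as a function of the whole past: the next position is chosen with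
`stepKernel` from the present position. -/
noncomputable def pastKernel {d : ℕ} (ℓ : Fin d → ℝ) (lam : ℝ) (ω : Set (Edge d)) (n : ℕ) :
    Kernel ((i : Finset.Iic n) → (fun _ : ℕ => Vtx d) i) (Vtx d) :=
  (stepKernel ℓ lam ω).comap (fun path => path ⟨n, Finset.mem_Iic.2 le_rfl⟩)
    (measurable_pi_apply _)

instance {d : ℕ} (ℓ : Fin d → ℝ) (lam : ℝ) (ω : Set (Edge d)) (n : ℕ) :
    IsMarkovKernel (pastKernel ℓ lam ω n) := by
  unfold pastKernel
  infer_instance

/-- The quenched law of the walk: the law of the Markov chain `(X_n)` on `ℤ^d` started at `0` with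
transition kernel `stepKernel ℓ lam ω`. -/
noncomputable def quenched {d : ℕ} (ℓ : Fin d → ℝ) (lam : ℝ) (ω : Set (Edge d)) :
    Measure (ℕ → Vtx d) :=
  Kernel.trajMeasure (X := fun _ : ℕ => Vtx d) (Measure.dirac (0 : Vtx d)) (pastKernel ℓ lam ω)

/-- The law of i.i.d. Bernoulli bond percolation with parameter `p`. -/
noncomputable def percolation (d : ℕ) (p : I) : Measure (Set (Edge d)) :=
  setBernoulli Set.univ p

/-- The graph of open edges. -/
def openGraph {d : ℕ} (ω : Set (Edge d)) : SimpleGraph (Vtx d) :=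
  SimpleGraph.fromRel fun x y => ∃ j, (x, j) ∈ ω ∧ y = x + basisVec j

/-- The event that `0` is in an infinite open cluster. -/
def zeroInfinite (d : ℕ) : Set (Set (Edge d)) :=
  {ω | {x | (openGraph ω).Reachable 0 x}.Infinite}

/-- The critical parameter: the supremum of the `p` for which `0` is a.s. in a finite cluster. -/
noncomputable def criticalParam (d : ℕ) : ℝ :=
  sSup {t : ℝ | ∃ p : I, t = p ∧ percolation d p (zeroInfinite d) = 0}

/-- `v` is the limiting velocity at parameter `p`: conditionally on `0` being in an infinite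
cluster, for almost every environment almost every trajectory has `X_n / n → v`. -/
def IsVelocity {d : ℕ} (ℓ : Fin d → ℝ) (lam : ℝ) (p : I) (v : Fin d → ℝ) : Prop :=
  ∀ᵐ ω ∂(ProbabilityTheory.cond (percolation d p) (zeroInfinite d)),
    ∀ᵐ X ∂(quenched ℓ lam ω), ∀ j, Tendsto (fun n : ℕ => (X n j : ℝ) / n) atTop (𝓝 (v j))

end Pool.Agent.P2ec0f3
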