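import Pool.Agent.Lib.P2ec0f3.Entropy
import Mathlib.Analysis.SpecialFunctions.Log.Deriv
import Mathlib.Analysis.Asymptotics.Lemmas
import Mathlib.Analysis.SpecialFunctions.Pow.Asymptotics

/-!
# The diagonal bias: the speed is at most the speed on the full lattice
-/

open MeasureTheory ProbabilityTheory Filter Topology Function
open scoped unitInterval

namespace Pool.Agent.P2ec0f3

variable {d : ℕ} (ℓ : Fin d → ℝ) (lam : ℝ) (ω : Set (Edge d))

/-- The height of a vertex. -/
noncomputable def height (x : Vtx d) : ℝ := ∑ j, (x j : ℝ) * ℓ j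

/-- The speed on the full lattice for a bias with all coordinates `± δ`. -/
noncomputable def fullSpeed (δ : ℝ) : ℝ :=
  δ * (Real.exp (lam * δ) - (Real.exp (lam * δ))⁻¹) / (Real.exp (lam * δ) + (Real.exp (lam * δ))⁻¹)

/-- The multiplier of the entropy inequality. -/
noncomputable def multiplier (δ : ℝ) : ℝ :=
  2 * δ / ((Real.exp (lam * δ) + (Real.exp (lam * δ))⁻¹)
    * (Real.exp (lam * δ) - (Real.exp (lam * δ))⁻¹))

lemma edge_identity {A δ u v : ℝ} (hA : 1 < A) :
    δ * (A * u - A⁻¹ * v) - δ * (A - A⁻¹) / (A + A⁻¹) * (A * u + A⁻¹ * v) =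
      2 * δ / ((A + A⁻¹) * (A - A⁻¹)) * ((A - A⁻¹) * (u - v)) := by
  have hA0 : 0 < A := by linarith
  have h1 : A + A⁻¹ ≠ 0 := by positivity
  have h2 : A - A⁻¹ ≠ 0 := by
    have : A⁻¹ < 1 := inv_lt_one_of_one_lt₀ hA
    linarith
  have h3 : A ^ 2 + 1 ≠ 0 := by positivity
  have h4 : A ^ 2 - 1 ≠ 0 := by nlinarith
  field_simp
  ring

lemma edge_identity' {A δ u v : ℝ} (hA : 1 < A) :
    -δ * (A⁻¹ * u - A * v) - δ * (A - A⁻¹) / (A + A⁻¹) * (A⁻¹ * u + A * v) =
      2 * δ / ((A + A⁻¹) * (A - A⁻¹)) * ((A⁻¹ - A) * (u - v)) := by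
  have hA0 : 0 < A := by linarith
  have h1 : A + A⁻¹ ≠ 0 := by positivity
  have h2 : A - A⁻¹ ≠ 0 := by
    have : A⁻¹ < 1 := inv_lt_one_of_one_lt₀ hA
    linarith
  have h3 : A ^ 2 + 1 ≠ 0 := by positivity
  have h4 : A ^ 2 - 1 ≠ 0 := by nlinarith
  field_simp
  ring

/-- The identity on each edge, for both signs of the coordinate of the bias. -/
lemma edge_id {δ : ℝ} (hδ : 0 < δ) (hlam : 0 < lam) (hℓ : ∀ j, |ℓ j| = δ) (j : Fin d) (u v : ℝ) :
    ℓ j * (av ℓ lam j * u - (av ℓ lam j)⁻¹ * v)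
        - fullSpeed lam δ * (av ℓ lam j * u + (av ℓ lam j)⁻¹ * v)
      = multiplier lam δ * (cv ℓ lam j * (u - v)) := by
  have hA : 1 < Real.exp (lam * δ) := Real.one_lt_exp_iff.2 (mul_pos hlam hδ)
  unfold fullSpeed multiplier cv av
  rcases (abs_eq hδ.le).1 (hℓ j) with h | h
  · rw [h]
    exact edge_identity hA
  · rw [h]
    have h1 : Real.exp (lam * -δ) = (Real.exp (lam * δ))⁻¹ := by
      rw [mul_neg, Real.exp_neg]
    rw [h1, inv_inv]
    exact edge_identity' hA

lemma height_add (x : Vtx d) (j : Fin d) : height ℓ (x + basisVec j) - height ℓ x = ℓ j := by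
  unfold height
  rw [← Finset.sum_sub_distrib, Finset.sum_eq_single j]
  · simp only [Pi.add_apply, basisVec, Pi.single_eq_same]
    push_cast
    ring
  · intro i _ hij
    simp [basisVec, Pi.single_eq_of_ne hij]
  · simp

lemma height_zero : height ℓ (0 : Vtx d) = 0 := by simp [height]

/-- The upper bound for the expected height at time `N`, in every environment. -/
lemma integral_height_le {δ : ℝ} (hδ : 0 < δ) (hlam : 0 < lam) (hℓ : ∀ j, |ℓ j| = δ) (N : ℕ) :
    ∫ x, height ℓ x ∂(lawAt ℓ lam ω N) ≤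
      fullSpeed lam δ * N + multiplier lam δ * errBound ℓ lam N := by
  have hA : 1 < Real.exp (lam * δ) := Real.one_lt_exp_iff.2 (mul_pos hlam hδ)
  have hA1 : (Real.exp (lam * δ))⁻¹ < 1 := inv_lt_one_of_one_lt₀ hA
  have hθ : 0 ≤ fullSpeed lam δ := by
    unfold fullSpeed
    apply div_nonneg
    · apply mul_nonneg hδ.le; linarith
    · positivity
  have hμ : 0 ≤ multiplier lam δ := by
    unfold multiplier
    apply div_nonneg (by linarith)
    apply mul_nonneg (by positivity)
    linarith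
  have h1 := integral_lawAt_eq ℓ lam ω N (height ℓ)
  have h2 := mul_le_mul_of_nonneg_left (flow_le ℓ lam ω N) hθ
  have h3 := mul_le_mul_of_nonneg_left (entropy_bound ℓ lam ω N) hμ
  have hf : HasFiniteSupport (psi ℓ lam ω N) :=
    hasFiniteSupport_of_mul (hasFiniteSupport_occ ℓ lam ω N) fun x hx => by simp [psi, hx]
  have hf' : ∀ j, HasFiniteSupport (fun x => psi ℓ lam ω N (x + basisVec j)) := fun j =>
    hasFiniteSupport_shift hf _
  have hS : ∀ j (a b : ℝ), Summable fun x =>
      openInd ω x j * (a * psi ℓ lam ω N x + b * psi ℓ lam ω N (x + basisVec j)) := by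
    intro j a b
    apply summable_of_hasFiniteSupport
    refine Set.Finite.subset (Set.Finite.union hf (hf' j)) fun x hx => ?_
    by_contra hcon
    rw [Set.mem_union, not_or] at hcon
    have e1 : psi ℓ lam ω N x = 0 := by simpa using hcon.1
    have e2 : psi ℓ lam ω N (x + basisVec j) = 0 := by simpa using hcon.2
    apply hx
    simp [e1, e2]
  have h4 : ∫ x, height ℓ x ∂(lawAt ℓ lam ω N) - fullSpeed lam δ *
      (∑ j, ∑' x, openInd ω x j * (av ℓ lam j * psi ℓ lam ω N x
        + (av ℓ lam j)⁻¹ * psi ℓ lam ω N (x + basisVec j))) =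
      multiplier lam δ * ∑ j, cv ℓ lam j * ∑' x, openInd ω x j *
        (psi ℓ lam ω N x - psi ℓ lam ω N (x + basisVec j)) := by
    rw [h1, height_zero, zero_add, Finset.mul_sum, Finset.mul_sum, ← Finset.sum_sub_distrib]
    refine Finset.sum_congr rfl fun j _ => ?_
    simp_rw [height_add]
    rw [← tsum_mul_left, ← tsum_mul_left, ← tsum_mul_left, ← Summable.tsum_sub]
    · refine tsum_congr fun x => ?_
      have := edge_id ℓ lam hδ hlam hℓ j (psi ℓ lam ω N x) (psi ℓ lam ω N (x + basisVec j))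
      have e : openInd ω x j * (av ℓ lam j * psi ℓ lam ω N x
          - (av ℓ lam j)⁻¹ * psi ℓ lam ω N (x + basisVec j)) * ℓ j
          - fullSpeed lam δ * (openInd ω x j * (av ℓ lam j * psi ℓ lam ω N x
            + (av ℓ lam j)⁻¹ * psi ℓ lam ω N (x + basisVec j)))
          = openInd ω x j * (ℓ j * (av ℓ lam j * psi ℓ lam ω N x
            - (av ℓ lam j)⁻¹ * psi ℓ lam ω N (x + basisVec j))
            - fullSpeed lam δ * (av ℓ lam j * psi ℓ lam ω N x
            + (av ℓ lam j)⁻¹ * psi ℓ lam ω N (x + basisVec j))) := by ring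
      rw [e, this]
      ring
    · have := (hS j (av ℓ lam j) (-(av ℓ lam j)⁻¹)).mul_right (ℓ j)
      refine this.congr fun x => ?_
      ring
    · exact (hS j _ _).mul_left _
  linarith

lemma tendsto_errBound : Tendsto (fun N : ℕ => errBound ℓ lam N / N) atTop (𝓝 0) := by
  set c : ℝ := minWeight ℓ lam with hc
  have hc0 : 0 < c := minWeight_pos ℓ lam
  -- `log (N / c * (2N+3)^d + 1) ≤ (d + 1) * log (K * N)` for `N ≥ 1`
  set K : ℝ := 5 + 1 / c with hK
  have hK0 : 0 < K := by positivity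
  have hbound : ∀ N : ℕ, 1 ≤ N → errBound ℓ lam N / N ≤
      ((d + 2) * (Real.log (K * N) / N)) * (1 + ∑ j, |cv ℓ lam j|) := by
    intro N hN
    have hN' : (1 : ℝ) ≤ N := by exact_mod_cast hN
    have hN0 : (0 : ℝ) < N := by linarith
    have h1 : (N / c) * (2 * (N : ℝ) + 3) ^ d + 1 ≤ (K * N) ^ (d + 2) := by
      have hKN : 1 ≤ K * N := by
        have : 5 ≤ K := by rw [hK]; linarith [show (0 : ℝ) < 1 / c by positivity]
        nlinarith
      have a1 : N / c ≤ K * N := by
        rw [hK, add_mul, one_div, inv_mul_eq_div]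
        nlinarith
      have a2 : 2 * (N : ℝ) + 3 ≤ K * N := by
        rw [hK, add_mul]
        have : 0 ≤ 1 / c * N := by positivity
        nlinarith
      have a3 : (2 * (N : ℝ) + 3) ^ d ≤ (K * N) ^ d :=
        pow_le_pow_left₀ (by positivity) a2 d
      have a4 : (N / c) * (2 * (N : ℝ) + 3) ^ d ≤ (K * N) * (K * N) ^ d :=
        mul_le_mul a1 a3 (by positivity) (by positivity)
      have a5 : (1 : ℝ) ≤ (K * N) ^ (d + 1) := one_le_pow₀ hKN
      have a6 : 2 ≤ K * N := by
        have : 5 ≤ K := by rw [hK]; linarith [show (0 : ℝ) < 1 / c by positivity]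
        nlinarith
      calc (N / c) * (2 * (N : ℝ) + 3) ^ d + 1 ≤ (K * N) ^ (d + 1) + (K * N) ^ (d + 1) := by
            rw [pow_succ' (K * N) d]
            rw [pow_succ' (K * N) d] at a5
            linarith
        _ = 2 * (K * N) ^ (d + 1) := by ring
        _ ≤ (K * N) * (K * N) ^ (d + 1) := mul_le_mul_of_nonneg_right a6 (by positivity)
        _ = (K * N) ^ (d + 2) := by ring
    have h2 : Real.log ((N / c) * (2 * (N : ℝ) + 3) ^ d + 1) ≤ (d + 2) * Real.log (K * N) := by
      refine (Real.log_le_log (by positivity) h1).trans ?_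
      rw [Real.log_pow]
      push_cast
      exact le_rfl
    unfold errBound
    rw [← hc, mul_div_right_comm]
    refine mul_le_mul_of_nonneg_right ?_ (by
      have : 0 ≤ ∑ j, |cv ℓ lam j| := Finset.sum_nonneg fun _ _ => abs_nonneg _
      linarith)
    rw [mul_div_assoc']
    exact div_le_div_of_nonneg_right h2 hN0.le
  have hlim : Tendsto (fun N : ℕ => ((d + 2) * (Real.log (K * N) / N)) *
      (1 + ∑ j, |cv ℓ lam j|)) atTop (𝓝 0) := by
    have h1 : Tendsto (fun N : ℕ => Real.log (K * N) / (K * N)) atTop (𝓝 0) := by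
      have h := Real.isLittleO_log_id_atTop.tendsto_div_nhds_zero
      refine h.comp ?_
      exact tendsto_natCast_atTop_atTop.const_mul_atTop hK0
    have h2 : Tendsto (fun N : ℕ => ((d + 2) * (K * (Real.log (K * N) / (K * N)))) *
      (1 + ∑ j, |cv ℓ lam j|)) atTop (𝓝 (((d + 2) * (K * 0)) * (1 + ∑ j, |cv ℓ lam j|))) :=
      ((h1.const_mul K).const_mul _).mul_const _
    rw [mul_zero, mul_zero, zero_mul] at h2
    refine h2.congr fun N => ?_
    congr 2
    by_cases hN : (N : ℝ) = 0
    · simp [hN]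
    · field_simp
  refine tendsto_of_tendsto_of_tendsto_of_le_of_le' tendsto_const_nhds hlim ?_ ?_
  · filter_upwards [eventually_ge_atTop 1] with N hN
    unfold errBound
    have : 0 ≤ ∑ j, |cv ℓ lam j| := Finset.sum_nonneg fun _ _ => abs_nonneg _
    have h3 : 0 ≤ Real.log ((N / minWeight ℓ lam) * (2 * (N : ℝ) + 3) ^ d + 1) := by
      apply Real.log_nonneg
      have : 0 ≤ (N / minWeight ℓ lam) * (2 * (N : ℝ) + 3) ^ d := by positivity
      linarith
    positivity
  · filter_upwards [eventually_ge_atTop 1] with N hN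
    exact hbound N hN

end Pool.Agent.P2ec0f3
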