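import Pool.Agent.Lib.P2ec0f3.Law
import Mathlib.Analysis.SpecialFunctions.Log.Basic

/-!
# The entropy inequality for the occupation measure
-/

open MeasureTheory ProbabilityTheory Filter Topology Function
open scoped unitInterval

namespace Pool.Agent.P2ec0f3

lemma log_ineq {u v : ℝ} (hu : 0 < u) (hv : 0 < v) :
    u - v ≤ u * (Real.log u - Real.log v) := by
  have h := Real.log_le_sub_one_of_pos (div_pos hv hu)
  rw [Real.log_div hv.ne' hu.ne'] at h
  have h2 := mul_le_mul_of_nonneg_left h hu.le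
  have h3 : u * (v / u - 1) = v - u := by field_simp
  rw [h3] at h2
  linarith

lemma entropy_ineq {a u v : ℝ} (ha : 0 < a) (hu : 0 < u) (hv : 0 < v) :
    (a - a⁻¹) * (u - v) ≤ (a * u - a⁻¹ * v) * (Real.log u - Real.log v) := by
  have h1 := mul_le_mul_of_nonneg_left (log_ineq hu hv) ha.le
  have h2 := mul_le_mul_of_nonneg_left (log_ineq hv hu) (inv_pos.2 ha).le
  linarith

variable {d : ℕ} (ℓ : Fin d → ℝ) (lam : ℝ) (ω : Set (Edge d))

/-- The occupation measure: the expected number of visits to `x` before time `N`. -/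
noncomputable def occ (N : ℕ) (x : Vtx d) : ℝ := ∑ n ∈ Finset.range N, pr ℓ lam ω n x

/-- The expected number of visits divided by the total weight. -/
noncomputable def psi (N : ℕ) (x : Vtx d) : ℝ := occ ℓ lam ω N x / total ℓ lam ω x

lemma occ_nonneg (N : ℕ) (x : Vtx d) : 0 ≤ occ ℓ lam ω N x :=
  Finset.sum_nonneg fun _ _ => pr_nonneg ..

lemma occ_le (N : ℕ) (x : Vtx d) : occ ℓ lam ω N x ≤ N := by
  have := Finset.sum_le_sum (s := Finset.range N) (f := fun n => pr ℓ lam ω n x)
    (g := fun _ => (1 : ℝ)) fun n _ => pr_le_one ℓ lam ω n x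
  simpa [occ] using this

lemma psi_nonneg (N : ℕ) (x : Vtx d) : 0 ≤ psi ℓ lam ω N x :=
  div_nonneg (occ_nonneg ..) (total_nonneg ..)

lemma occ_eq_zero {N : ℕ} {x : Vtx d} (hx : x ∉ box d N) : occ ℓ lam ω N x = 0 :=
  Finset.sum_eq_zero fun _ hn => pr_eq_zero ℓ lam ω fun h =>
    hx (box_mono (Finset.mem_range.1 hn).le h)

lemma hasFiniteSupport_occ (N : ℕ) : HasFiniteSupport (occ ℓ lam ω N) :=
  Set.Finite.subset (box d N).finite_toSet fun x hx => by
    by_contra h
    exact hx (occ_eq_zero ℓ lam ω h)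

lemma psi_eq_zero {N : ℕ} {x : Vtx d} (hx : x ∉ box d N) : psi ℓ lam ω N x = 0 := by
  unfold psi
  rw [occ_eq_zero ℓ lam ω hx, zero_div]

/-- Re-indexing of a sum over the jumps as a sum over the edges. -/
lemma tsum_weight {f : Vtx d → ℝ} (hf : HasFiniteSupport f) (G : Vtx d → Fin d × Bool → ℝ) :
    ∑' x, f x * ∑ D, weight ℓ lam ω x D * G x D =
      ∑ j, ∑' x, openInd ω x j * (av ℓ lam j * f x * G x (j, true)
        + (av ℓ lam j)⁻¹ * f (x + basisVec j) * G (x + basisVec j) (j, false)) := by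
  classical
  have e1 : ∀ x, f x * ∑ D, weight ℓ lam ω x D * G x D = ∑ j,
      (openInd ω x j * (av ℓ lam j * f x * G x (j, true))
        + openInd ω (x - basisVec j) j * ((av ℓ lam j)⁻¹ * f x * G x (j, false))) := by
    intro x
    rw [Finset.mul_sum, Fintype.sum_prod_type]
    refine Finset.sum_congr rfl fun j _ => ?_
    rw [Fintype.sum_bool, weight_up, weight_down]
    ring
  simp_rw [e1]
  have s1 : ∀ j, HasFiniteSupport fun x =>
      openInd ω x j * (av ℓ lam j * f x * G x (j, true)) :=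
    fun j => hasFiniteSupport_of_mul hf fun x hx => by simp [hx]
  have s2 : ∀ j, HasFiniteSupport fun x =>
      openInd ω (x - basisVec j) j * ((av ℓ lam j)⁻¹ * f x * G x (j, false)) :=
    fun j => hasFiniteSupport_of_mul hf fun x hx => by simp [hx]
  rw [Summable.tsum_finsetSum (fun j _ => (summable_of_hasFiniteSupport (s1 j)).add
    (summable_of_hasFiniteSupport (s2 j)))]
  refine Finset.sum_congr rfl fun j _ => ?_
  rw [Summable.tsum_add (summable_of_hasFiniteSupport (s1 j))
    (summable_of_hasFiniteSupport (s2 j)), ← tsum_shift j (fun x =>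
      openInd ω (x - basisVec j) j * ((av ℓ lam j)⁻¹ * f x * G x (j, false))), ← Summable.tsum_add
    (summable_of_hasFiniteSupport (s1 j)) (summable_of_hasFiniteSupport
      (hasFiniteSupport_shift (s2 j) _))]
  refine tsum_congr fun x => ?_
  rw [add_sub_cancel_right]
  ring

/-- The expectation of `g (X_N)` in terms of the flow. -/
lemma integral_lawAt_eq (N : ℕ) (g : Vtx d → ℝ) :
    ∫ x, g x ∂(lawAt ℓ lam ω N) = g 0 +
      ∑ j, ∑' x, openInd ω x j * (av ℓ lam j * psi ℓ lam ω N x
        - (av ℓ lam j)⁻¹ * psi ℓ lam ω N (x + basisVec j)) * (g (x + basisVec j) - g x) := by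
  have h1 : ∫ x, g x ∂(lawAt ℓ lam ω N) = g 0 + ∑' x, occ ℓ lam ω N x * drift ℓ lam ω g x := by
    induction N with
    | zero => simp [lawAt_zero, occ, integral_dirac]
    | succ N ih =>
      rw [integral_lawAt_succ, ih, add_assoc]
      congr 1
      rw [← Summable.tsum_add]
      · refine tsum_congr fun x => ?_
        unfold occ
        rw [Finset.sum_range_succ]
        ring
      · exact summable_of_hasFiniteSupport (hasFiniteSupport_of_mul
          (hasFiniteSupport_occ ℓ lam ω N) fun x hx => by simp [hx])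
      · exact summable_of_hasFiniteSupport (hasFiniteSupport_of_mul
          (hasFiniteSupport_pr ℓ lam ω N) fun x hx => by simp [hx])
  rw [h1, tsum_drift ℓ lam ω (hasFiniteSupport_occ ℓ lam ω N)]
  rfl

/-- The number of steps dominates the total flow. -/
lemma flow_le (N : ℕ) :
    ∑ j, ∑' x, openInd ω x j * (av ℓ lam j * psi ℓ lam ω N x
        + (av ℓ lam j)⁻¹ * psi ℓ lam ω N (x + basisVec j)) ≤ N := by
  have hf : HasFiniteSupport (psi ℓ lam ω N) :=
    hasFiniteSupport_of_mul (hasFiniteSupport_occ ℓ lam ω N) fun x hx => by simp [psi, hx]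
  have h := tsum_weight ℓ lam ω hf (fun _ _ => 1)
  simp only [mul_one] at h
  rw [← h]
  have h2 : ∑' x, occ ℓ lam ω N x = N := by
    unfold occ
    rw [Summable.tsum_finsetSum fun n _ =>
      summable_of_hasFiniteSupport (hasFiniteSupport_pr ℓ lam ω n)]
    simp [sum_pr]
  rw [← h2]
  refine Summable.tsum_le_tsum (fun x => ?_) (summable_of_hasFiniteSupport
    (hasFiniteSupport_of_mul hf fun x hx => by simp [hx]))
    (summable_of_hasFiniteSupport (hasFiniteSupport_occ ℓ lam ω N))
  change psi ℓ lam ω N x * total ℓ lam ω x ≤ _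
  unfold psi
  by_cases h0 : total ℓ lam ω x = 0
  · rw [h0, mul_zero]
    exact occ_nonneg ..
  · rw [div_mul_cancel₀ _ h0]

/-- A lower bound for the positive weights. -/
noncomputable def minWeight : ℝ := Real.exp (-(|lam| * ∑ j, |ℓ j|))

lemma minWeight_pos : 0 < minWeight ℓ lam := Real.exp_pos _

lemma abs_lam_mul_le (j : Fin d) : |lam * ℓ j| ≤ |lam| * ∑ j, |ℓ j| := by
  rw [abs_mul]
  exact mul_le_mul_of_nonneg_left
    (Finset.single_le_sum (f := fun j => |ℓ j|) (fun _ _ => abs_nonneg _) (Finset.mem_univ j))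
    (abs_nonneg _)

lemma minWeight_le_av (j : Fin d) : minWeight ℓ lam ≤ av ℓ lam j := by
  unfold minWeight av
  have := abs_lam_mul_le ℓ lam j
  apply Real.exp_le_exp.2
  linarith [neg_abs_le (lam * ℓ j)]

lemma minWeight_le_av_inv (j : Fin d) : minWeight ℓ lam ≤ (av ℓ lam j)⁻¹ := by
  unfold minWeight av
  rw [← Real.exp_neg]
  have := abs_lam_mul_le ℓ lam j
  apply Real.exp_le_exp.2
  linarith [le_abs_self (lam * ℓ j)]

lemma minWeight_le_total {x : Vtx d} (hx : total ℓ lam ω x ≠ 0) :
    minWeight ℓ lam ≤ total ℓ lam ω x := by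
  classical
  obtain ⟨D, -, hD⟩ := Finset.exists_ne_zero_of_sum_ne_zero hx
  refine le_trans ?_ (Finset.single_le_sum (fun D _ => weight_nonneg ℓ lam ω x D)
    (Finset.mem_univ D))
  obtain ⟨j, b⟩ := D
  cases b
  · rw [weight_down] at hD ⊢
    rcases openInd_eq ω (x - basisVec j) j with h | h
    · rw [h, zero_mul] at hD; exact absurd rfl hD
    · rw [h, one_mul]; exact minWeight_le_av_inv ℓ lam j
  · rw [weight_up] at hD ⊢
    rcases openInd_eq ω x j with h | h
    · rw [h, zero_mul] at hD; exact absurd rfl hD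
    · rw [h, one_mul]; exact minWeight_le_av ℓ lam j

lemma psi_le (N : ℕ) (x : Vtx d) : psi ℓ lam ω N x ≤ N / minWeight ℓ lam := by
  unfold psi
  by_cases h0 : total ℓ lam ω x = 0
  · rw [h0, div_zero]
    exact div_nonneg (Nat.cast_nonneg _) (minWeight_pos ℓ lam).le
  · exact div_le_div₀ (Nat.cast_nonneg _) (occ_le ..) (minWeight_pos ℓ lam)
      (minWeight_le_total ℓ lam ω h0)

lemma add_basisVec_notMem_box {N : ℕ} {x : Vtx d} (hx : x ∉ box d (N + 1)) (j : Fin d) :
    x + basisVec j ∉ box d N := by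
  intro h
  apply hx
  have := nbr_mem_box h (j, false)
  simpa [nbr] using this

/-- The difference of the exponential weights. -/
noncomputable def cv (j : Fin d) : ℝ := av ℓ lam j - (av ℓ lam j)⁻¹

/-- The entropy inequality summed over the edges. -/
lemma entropy_sum (N : ℕ) {e : ℝ} (he : 0 < e) :
    ∑ j, cv ℓ lam j * ∑' x, openInd ω x j * (psi ℓ lam ω N x - psi ℓ lam ω N (x + basisVec j)) ≤
      Real.log ((N / minWeight ℓ lam + e) / e)
        * (1 + e * (∑ j, |cv ℓ lam j|) * (box d (N + 1)).card) := by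
  classical
  set L : Vtx d → ℝ := fun x => Real.log (psi ℓ lam ω N x + e) with hL
  set M : ℝ := N / minWeight ℓ lam with hM
  have hM0 : 0 ≤ M := div_nonneg (Nat.cast_nonneg _) (minWeight_pos ℓ lam).le
  set R : ℝ := Real.log ((M + e) / e) with hR
  have hR' : R = Real.log (M + e) - Real.log e := by
    rw [hR, Real.log_div (by positivity) he.ne']
  have hLlow : ∀ x, Real.log e ≤ L x := fun x => by
    apply Real.log_le_log he
    linarith [psi_nonneg ℓ lam ω N x]
  have hLup : ∀ x, L x ≤ Real.log (M + e) := fun x => by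
    apply Real.log_le_log
    · linarith [psi_nonneg ℓ lam ω N x]
    · linarith [psi_le ℓ lam ω N x]
  have hLdiff : ∀ x y, |L x - L y| ≤ R := fun x y => by
    rw [abs_le, hR']
    constructor <;> linarith [hLlow x, hLup x, hLlow y, hLup y]
  have hR0 : 0 ≤ R := le_trans (abs_nonneg _) (hLdiff 0 0)
  -- the flow identity applied to `L`
  have hflow := integral_lawAt_eq ℓ lam ω N L
  have hlow : Real.log e ≤ ∫ x, L x ∂(lawAt ℓ lam ω N) := by
    have h1 : ∫ _, Real.log e ∂(lawAt ℓ lam ω N) = Real.log e := by simp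
    rw [← h1]
    exact integral_mono (integrable_const _) (integrable_lawAt ℓ lam ω N L) hLlow
  have hout : ∀ (j : Fin d) (x : Vtx d), x ∉ box d (N + 1) →
      psi ℓ lam ω N x = 0 ∧ psi ℓ lam ω N (x + basisVec j) = 0 := fun j x hx =>
    ⟨psi_eq_zero ℓ lam ω fun h => hx (box_mono (Nat.le_succ N) h),
      psi_eq_zero ℓ lam ω (add_basisVec_notMem_box hx j)⟩
  have key : ∀ j, cv ℓ lam j * ∑' x, openInd ω x j *
        (psi ℓ lam ω N x - psi ℓ lam ω N (x + basisVec j)) ≤
      - ∑' x, openInd ω x j * (av ℓ lam j * psi ℓ lam ω N x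
        - (av ℓ lam j)⁻¹ * psi ℓ lam ω N (x + basisVec j)) * (L (x + basisVec j) - L x)
      + e * |cv ℓ lam j| * (box d (N + 1)).card * R := by
    intro j
    rw [tsum_eq_sum (s := box d (N + 1)) fun x hx => by simp [hout j x hx],
      tsum_eq_sum (s := box d (N + 1)) fun x hx => by simp [hout j x hx],
      Finset.mul_sum, ← Finset.sum_neg_distrib]
    have hc : e * |cv ℓ lam j| * (box d (N + 1)).card * R
        = ∑ _x ∈ box d (N + 1), e * |cv ℓ lam j| * R := by
      rw [Finset.sum_const, nsmul_eq_mul]; ring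
    rw [hc, ← Finset.sum_add_distrib]
    refine Finset.sum_le_sum fun x _ => ?_
    have hent := entropy_ineq (av_pos ℓ lam j)
      (u := psi ℓ lam ω N x + e) (v := psi ℓ lam ω N (x + basisVec j) + e)
      (by linarith [psi_nonneg ℓ lam ω N x]) (by linarith [psi_nonneg ℓ lam ω N (x + basisVec j)])
    have hd := hLdiff x (x + basisVec j)
    have habs : cv ℓ lam j * (L x - L (x + basisVec j)) ≤ |cv ℓ lam j| * R := by
      calc cv ℓ lam j * (L x - L (x + basisVec j)) ≤ |cv ℓ lam j * (L x - L (x + basisVec j))| :=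
            le_abs_self _
        _ = |cv ℓ lam j| * |L x - L (x + basisVec j)| := abs_mul _ _
        _ ≤ |cv ℓ lam j| * R := mul_le_mul_of_nonneg_left hd (abs_nonneg _)
    have habs' := mul_le_mul_of_nonneg_left habs he.le
    have hent' : cv ℓ lam j * (psi ℓ lam ω N x - psi ℓ lam ω N (x + basisVec j)) ≤
        (av ℓ lam j * psi ℓ lam ω N x - (av ℓ lam j)⁻¹ * psi ℓ lam ω N (x + basisVec j))
          * (L x - L (x + basisVec j)) + e * (cv ℓ lam j * (L x - L (x + basisVec j))) := by
      have : (av ℓ lam j * psi ℓ lam ω N x - (av ℓ lam j)⁻¹ * psi ℓ lam ω N (x + basisVec j))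
          * (L x - L (x + basisVec j)) + e * (cv ℓ lam j * (L x - L (x + basisVec j))) =
          (av ℓ lam j * (psi ℓ lam ω N x + e)
            - (av ℓ lam j)⁻¹ * (psi ℓ lam ω N (x + basisVec j) + e))
            * (L x - L (x + basisVec j)) := by
        unfold cv; ring
      rw [this]
      refine le_trans (le_of_eq ?_) hent
      unfold cv; ring
    rcases openInd_eq ω x j with h | h
    · rw [h]
      have : 0 ≤ e * |cv ℓ lam j| * R := by positivity
      simpa using this
    · rw [h]
      have h3 : e * (cv ℓ lam j * (L x - L (x + basisVec j))) ≤ e * |cv ℓ lam j| * R := by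
        rw [mul_assoc]; exact habs'
      linarith
  calc ∑ j, cv ℓ lam j * ∑' x, openInd ω x j *
        (psi ℓ lam ω N x - psi ℓ lam ω N (x + basisVec j))
      ≤ ∑ j, (- ∑' x, openInd ω x j * (av ℓ lam j * psi ℓ lam ω N x
        - (av ℓ lam j)⁻¹ * psi ℓ lam ω N (x + basisVec j)) * (L (x + basisVec j) - L x)
      + e * |cv ℓ lam j| * (box d (N + 1)).card * R) := Finset.sum_le_sum fun j _ => key j
    _ = (L 0 - ∫ x, L x ∂(lawAt ℓ lam ω N))
        + e * (∑ j, |cv ℓ lam j|) * (box d (N + 1)).card * R := by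
      rw [Finset.sum_add_distrib, Finset.sum_neg_distrib, hflow, Finset.mul_sum, Finset.sum_mul,
        Finset.sum_mul]
      ring
    _ ≤ R + e * (∑ j, |cv ℓ lam j|) * (box d (N + 1)).card * R := by
      rw [hR'] at *
      linarith [hLup 0]
    _ = R * (1 + e * (∑ j, |cv ℓ lam j|) * (box d (N + 1)).card) := by ring

lemma card_box (n : ℕ) : (box d n).card = (2 * n + 1) ^ d := by
  unfold box
  rw [Fintype.card_piFinset]
  simp only [Int.card_Icc, Finset.prod_const, Finset.card_univ, Fintype.card_fin]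
  congr 1
  omega

/-- The bound of the entropy inequality: logarithmic in `N`. -/
noncomputable def errBound (N : ℕ) : ℝ :=
  Real.log ((N / minWeight ℓ lam) * (2 * N + 3) ^ d + 1) * (1 + ∑ j, |cv ℓ lam j|)

lemma entropy_bound (N : ℕ) :
    ∑ j, cv ℓ lam j * ∑' x, openInd ω x j * (psi ℓ lam ω N x - psi ℓ lam ω N (x + basisVec j)) ≤
      errBound ℓ lam N := by
  have hc : ((box d (N + 1)).card : ℝ) = (2 * N + 3) ^ d := by
    rw [card_box]
    push_cast
    congr 1
    ring
  have hcpos : (0 : ℝ) < (2 * N + 3) ^ d := by positivity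
  have h := entropy_sum ℓ lam ω N (inv_pos.2 hcpos)
  refine h.trans (le_of_eq ?_)
  unfold errBound
  rw [hc]
  congr 2
  · field_simp
  · field_simp

end Pool.Agent.P2ec0f3
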