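import Pool.Agent.Lib.P2ec0f3.Meas

/-!
# The comparison of the speeds
-/

open MeasureTheory ProbabilityTheory Filter Topology Function
open scoped unitInterval ENNReal

namespace Pool.Agent.P2ec0f3

variable {d : ℕ} (ℓ : Fin d → ℝ) (lam : ℝ)

lemma ae_of_isVelocity {p : I} {v : Fin d → ℝ} (hv : IsVelocity ℓ lam p v) :
    ∀ᵐ ω ∂((percolation d p).restrict (zeroInfinite d)),
      ∀ᵐ X ∂(quenched ℓ lam ω), ∀ j,
        Tendsto (fun n : ℕ => (X n j : ℝ) / n) atTop (𝓝 (v j)) := by
  unfold IsVelocity ProbabilityTheory.cond at hv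
  rwa [Measure.ae_ennreal_smul_measure_iff (ENNReal.inv_ne_zero.2 (measure_ne_top _ _))] at hv

/-- The comparison with a gain, for the constants of the quenched bound. -/
theorem speed_le (hd : 0 < d) {δ : ℝ} (hδ : 0 < δ) (hℓ : ∀ j, |ℓ j| = δ)
    {κ C : ℝ} (hκ : 0 < κ) (hq : ∀ (ω : Set (Edge d)) (N : ℕ),
      ∫ x, height ℓ x ∂(lawAt ℓ lam ω N) + κ * visits ℓ lam ω N ≤
        fullSpeed lam δ * N + multiplier lam δ * errBound ℓ lam N + C)
    {p : I} (hp : criticalParam d < p) {v : Fin d → ℝ} (hv : IsVelocity ℓ lam p v) :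
    (1 + κ * ((1 / 2) ^ d * (1 - (p : ℝ))) / δ) * ∑ j, v j * ℓ j ≤ fullSpeed lam δ := by
  classical
  set P := percolation d p with hP
  set S := zeroInfinite d with hS
  set V := ∑ j, v j * ℓ j with hV
  set cp := (1 / 2 : ℝ) ^ d * (1 - (p : ℝ)) with hcp
  have hcp0 : 0 ≤ cp := mul_nonneg (by positivity) (by linarith [p.2.2])
  have hSm : MeasurableSet S := measurableSet_zeroInfinite
  set s := P.real S with hs
  have hs0 : 0 < s := by
    rw [hs, measureReal_def]
    exact ENNReal.toReal_pos (percolation_ne_zero hp) (measure_ne_top _ _)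
  -- the expected heights on the event `S`
  set F : ℕ → ℝ := fun n => ∫ ω in S, eh ℓ lam n ω ∂P with hF
  have hFlim : Tendsto (fun n : ℕ => F n / n) atTop (𝓝 (V * s)) := by
    have h1 : ∀ n : ℕ, F n / n = ∫ ω in S, eh ℓ lam n ω / n ∂P := fun n => by
      rw [integral_div]
    simp_rw [h1]
    have h2 : V * s = ∫ _ω in S, V ∂P := by
      rw [setIntegral_const, smul_eq_mul, mul_comm]
    rw [h2]
    refine tendsto_integral_of_dominated_convergence (fun _ => ∑ j, |ℓ j|) ?_
      (integrable_const _) ?_ ?_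
    · intro n
      exact ((eh_depOn ℓ lam n).measurable.div_const _).aestronglyMeasurable
    · intro n
      exact ae_of_all _ fun ω => by
        rw [Real.norm_eq_abs]
        exact abs_eh_div_le ℓ lam n ω
    · filter_upwards [ae_of_isVelocity ℓ lam hv] with ω hω
      exact tendsto_integral_height ℓ lam ω hω
  -- the records on the complement of `S`
  set I3 : ℕ → ℝ := fun N => ∫ ω in Sᶜ, recSum ℓ lam ω N ∂P with hI3
  have hI3lim : Tendsto (fun N : ℕ => I3 N / (N + 1)) atTop (𝓝 0) := by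
    have h1 : ∀ N : ℕ, I3 N / (N + 1) = ∫ ω in Sᶜ, recSum ℓ lam ω N / (N + 1) ∂P := fun N => by
      rw [integral_div]
    simp_rw [h1]
    have h2 : (0 : ℝ) = ∫ _ω in Sᶜ, (0 : ℝ) ∂P := by simp
    rw [h2]
    refine tendsto_integral_of_dominated_convergence (fun _ => 1) ?_
      (integrable_const _) ?_ ?_
    · intro N
      obtain ⟨T, hT⟩ := recSum_depOn ℓ lam N
      exact (hT.measurable.div_const _).aestronglyMeasurable
    · intro N
      refine ae_of_all _ fun ω => ?_
      have hN : (0 : ℝ) < N + 1 := by positivity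
      rw [Real.norm_eq_abs, abs_div, abs_of_pos hN, abs_of_nonneg (recSum_nonneg ..),
        div_le_one hN]
      linarith [recSum_le ℓ lam ω N]
    · filter_upwards [ae_restrict_mem hSm.compl] with ω hω
      have hfin : {x | (openGraph ω).Reachable 0 x}.Finite := by
        by_contra h
        exact hω h
      set c : ℝ := (({x | (openGraph ω).Reachable 0 x}.ncard : ℕ) : ℝ) with hc
      have h3 : Tendsto (fun N : ℕ => c / (N + 1)) atTop (𝓝 0) :=
        tendsto_const_div_atTop_nhds_zero_nat c |>.comp (tendsto_add_atTop_nat 1) |>.congr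
          fun N => by simp
      refine tendsto_of_tendsto_of_tendsto_of_le_of_le tendsto_const_nhds h3 ?_ ?_
      · intro N
        exact div_nonneg (recSum_nonneg ..) (by positivity)
      · intro N
        exact div_le_div_of_nonneg_right (recSum_le_ncard ℓ lam ω hfin N) (by positivity)
  -- the inequality for each `N`
  set E : ℕ → ℝ := fun N => fullSpeed lam δ * ((N + 1 : ℕ) : ℝ)
    + multiplier lam δ * errBound ℓ lam (N + 1) + C with hE
  have hmain : ∀ N : ℕ, F (N + 1) + κ * cp / δ * F N - κ * I3 N ≤ E N * s := by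
    intro N
    obtain ⟨T1, hT1⟩ := recSum_depOn ℓ lam N
    obtain ⟨T2, hT2⟩ := recUnb_depOn ℓ lam N
    have i1 : Integrable (fun ω => recSum ℓ lam ω N) P := hT1.integrable P
    have i2 : Integrable (fun ω => recUnb ℓ lam ω N) P := hT2.integrable P
    have i3 : Integrable (fun ω => eh ℓ lam (N + 1) ω) P := (eh_depOn ℓ lam (N + 1)).integrable P
    have i4 : Integrable (fun ω => eh ℓ lam N ω) P := (eh_depOn ℓ lam N).integrable P
    have h1 : ∀ ω, eh ℓ lam (N + 1) ω + κ * recUnb ℓ lam ω N ≤ E N := by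
      intro ω
      have := hq ω (N + 1)
      have h2 := mul_le_mul_of_nonneg_left (recUnb_le_visits ℓ lam ω N) hκ.le
      simp only [hE]
      unfold eh
      linarith
    have h2 : F (N + 1) + κ * ∫ ω in S, recUnb ℓ lam ω N ∂P ≤ E N * s := by
      have h3 : ∫ ω in S, (eh ℓ lam (N + 1) ω + κ * recUnb ℓ lam ω N) ∂P ≤
          ∫ _ω in S, E N ∂P :=
        integral_mono ((i3.add (i2.const_mul κ)).restrict) (integrable_const _) h1
      rw [integral_add i3.restrict (i2.const_mul κ).restrict, integral_const_mul,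
        setIntegral_const, smul_eq_mul] at h3
      linarith
    have h3 := integral_recUnb_ge ℓ lam hd p N
    have h4 : ∫ ω in S, recUnb ℓ lam ω N ∂P + ∫ ω in Sᶜ, recUnb ℓ lam ω N ∂P =
        ∫ ω, recUnb ℓ lam ω N ∂P := integral_add_compl hSm i2
    have h5 : ∫ ω in S, recSum ℓ lam ω N ∂P + ∫ ω in Sᶜ, recSum ℓ lam ω N ∂P =
        ∫ ω, recSum ℓ lam ω N ∂P := integral_add_compl hSm i1
    have h6 : ∫ ω in Sᶜ, recUnb ℓ lam ω N ∂P ≤ I3 N :=
      integral_mono i2.restrict i1.restrict fun ω => recUnb_le_recSum ..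
    have h7 : 0 ≤ ∫ ω in Sᶜ, recSum ℓ lam ω N ∂P :=
      integral_nonneg fun ω => recSum_nonneg ..
    have h8 : F N / δ ≤ ∫ ω in S, recSum ℓ lam ω N ∂P := by
      have h9 : F N / δ = ∫ ω in S, eh ℓ lam N ω / δ ∂P := by
        rw [integral_div]
      rw [h9]
      refine integral_mono (i4.restrict.div_const _) i1.restrict fun ω => ?_
      refine le_trans (le_of_eq ?_) (integral_lev_le ℓ lam ω N)
      simp only [eh]
      simp_rw [height_eq ℓ hδ hℓ]
      rw [integral_const_mul]
      field_simp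
    have h9 : cp * (F N / δ) ≤ ∫ ω, recUnb ℓ lam ω N ∂P := by
      refine le_trans ?_ h3
      rw [← hcp]
      refine mul_le_mul_of_nonneg_left ?_ hcp0
      linarith
    have h10 : cp * (F N / δ) - I3 N ≤ ∫ ω in S, recUnb ℓ lam ω N ∂P := by linarith
    have h11 := mul_le_mul_of_nonneg_left h10 hκ.le
    have h12 : κ * (cp * (F N / δ) - I3 N) = κ * cp / δ * F N - κ * I3 N := by ring
    linarith
  -- the limits
  have t1 : Tendsto (fun N : ℕ => F (N + 1) / (N + 1)) atTop (𝓝 (V * s)) := by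
    have := hFlim.comp (tendsto_add_atTop_nat 1)
    refine this.congr fun N => ?_
    simp
  have t2 : Tendsto (fun N : ℕ => F N / (N + 1)) atTop (𝓝 (V * s)) := by
    have h1 : Tendsto (fun N : ℕ => F N / N * ((N : ℝ) / (N + 1))) atTop (𝓝 (V * s * 1)) :=
      hFlim.mul (tendsto_natCast_div_add_atTop (1 : ℝ))
    rw [mul_one] at h1
    refine h1.congr' ?_
    filter_upwards [eventually_ge_atTop 1] with N hN
    have : (N : ℝ) ≠ 0 := by positivity
    field_simp
  have t3 : Tendsto (fun N : ℕ => E N / (N + 1)) atTop (𝓝 (fullSpeed lam δ)) := by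
    have h1 := (tendsto_errBound ℓ lam).comp (tendsto_add_atTop_nat 1)
    have h2 : Tendsto (fun N : ℕ => C / ((N : ℝ) + 1)) atTop (𝓝 0) :=
      tendsto_const_div_atTop_nhds_zero_nat C |>.comp (tendsto_add_atTop_nat 1) |>.congr
        fun N => by simp
    have h3 : Tendsto (fun N : ℕ => fullSpeed lam δ + multiplier lam δ *
        (errBound ℓ lam (N + 1) / ((N : ℝ) + 1)) + C / ((N : ℝ) + 1)) atTop
        (𝓝 (fullSpeed lam δ + multiplier lam δ * 0 + 0)) := by
      refine ((Tendsto.const_mul _ (h1.congr fun N => ?_)).const_add _).add h2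
      simp
    rw [mul_zero, add_zero, add_zero] at h3
    refine h3.congr fun N => ?_
    simp only [hE]
    have : (N : ℝ) + 1 ≠ 0 := by positivity
    push_cast
    field_simp
  have hlim : V * s + κ * cp / δ * (V * s) - κ * 0 ≤ fullSpeed lam δ * s := by
    refine le_of_tendsto_of_tendsto' ((t1.add (t2.const_mul (κ * cp / δ))).sub
      (hI3lim.const_mul κ)) (t3.mul_const s) fun N => ?_
    have hN : (0 : ℝ) < N + 1 := by positivity
    have := div_le_div_of_nonneg_right (hmain N) hN.le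
    refine le_trans (le_of_eq ?_) (this.trans (le_of_eq ?_))
    · field_simp
    · field_simp
  have hfin : ((1 + κ * cp / δ) * V) * s ≤ fullSpeed lam δ * s := by linarith
  exact le_of_mul_le_mul_right hfin hs0

/-- The value of the speed on the full lattice. -/
lemma speed_one (hd : 0 < d) {δ : ℝ} (hδ : 0 < δ) (hℓ : ∀ j, |ℓ j| = δ)
    (hp1 : criticalParam d < 1) {v₁ : Fin d → ℝ} (hv₁ : IsVelocity ℓ lam 1 v₁) :
    ∑ j, v₁ j * ℓ j = fullSpeed lam δ := by
  have hp1' : criticalParam d < ((1 : I) : ℝ) := hp1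
  have : NeBot (ae (ProbabilityTheory.cond (percolation d 1) (zeroInfinite d))) :=
    ae_neBot.2 (cond_ne_zero hp1')
  have h3 : ∀ᵐ ω ∂(ProbabilityTheory.cond (percolation d 1) (zeroInfinite d)),
      ω = Set.univ := by
    have h4 : ∀ᵐ ω ∂(percolation d 1), ω = Set.univ := by
      unfold percolation
      rw [setBernoulli_one, ae_dirac_eq]
      rfl
    unfold ProbabilityTheory.cond
    exact Measure.ae_smul_measure (ae_restrict_of_ae h4) _
  obtain ⟨ω, hω, rfl⟩ := (hv₁.and h3).exists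
  exact velocity_univ ℓ lam hd hδ hℓ hω

/-- For a diagonal bias the speed at `p` is smaller than the speed at `1`, by a factor. -/
theorem diagonal_speed (hd : 0 < d) (hunit : ∑ j, ℓ j ^ 2 = 1)
    (hdiag : ∀ i j, |ℓ i| = |ℓ j|) (hlam : 0 < lam) :
    ∃ κ > 0, ∀ (p : I), criticalParam d < p → ∀ v v₁ : Fin d → ℝ,
      IsVelocity ℓ lam p v → IsVelocity ℓ lam 1 v₁ →
        0 < ∑ j, v₁ j * ℓ j ∧
        (1 + κ * (1 - (p : ℝ))) * ∑ j, v j * ℓ j ≤ ∑ j, v₁ j * ℓ j := by
  obtain ⟨j₀⟩ : Nonempty (Fin d) := ⟨⟨0, hd⟩⟩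
  set δ := |ℓ j₀| with hδdef
  have hδ : 0 < δ := by
    rw [hδdef, abs_pos]
    intro h0
    have : ∑ j, ℓ j ^ 2 = 0 := Finset.sum_eq_zero fun j _ => by
      have := hdiag j j₀
      rw [h0, abs_zero, abs_eq_zero] at this
      rw [this]; ring
    rw [this] at hunit
    norm_num at hunit
  have hℓ : ∀ j, |ℓ j| = δ := fun j => hdiag j j₀
  obtain ⟨κ, hκ, C, hq⟩ := quenched_bound ℓ lam hd hδ hlam hℓ
  refine ⟨κ * (1 / 2) ^ d / δ, by positivity, fun p hp v v₁ hv hv₁ => ?_⟩
  have hp1 : criticalParam d < 1 := lt_of_lt_of_le hp p.2.2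
  rw [speed_one ℓ lam hd hδ hℓ hp1 hv₁]
  constructor
  · have hA1 : 1 < Real.exp (lam * δ) := Real.one_lt_exp_iff.2 (mul_pos hlam hδ)
    have hAinv : (Real.exp (lam * δ))⁻¹ < 1 := inv_lt_one_of_one_lt₀ hA1
    unfold fullSpeed
    apply div_pos
    · apply mul_pos hδ; linarith
    · positivity
  · have := speed_le ℓ lam hd hδ hℓ hκ hq hp hv
    refine le_trans (le_of_eq ?_) this
    congr 2
    ring

end Pool.Agent.P2ec0f3
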