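import Pool.Agent.Lib.P2ec0f3.Defs
import Mathlib.Topology.Algebra.InfiniteSum.Basic
import Mathlib.MeasureTheory.Integral.Bochner.Basic

/-!
# The flow of the biased walk: summation by parts
-/

open MeasureTheory ProbabilityTheory Filter Topology Function
open scoped unitInterval

namespace Pool.Agent.P2ec0f3

variable {d : ℕ} (ℓ : Fin d → ℝ) (lam : ℝ) (ω : Set (Edge d))

open Classical in
/-- The indicator of the edge `(x, j)` being open. -/
noncomputable def openInd (x : Vtx d) (j : Fin d) : ℝ := if (x, j) ∈ ω then 1 else 0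

/-- The weight of an open edge upwards in direction `j`. -/
noncomputable def av (j : Fin d) : ℝ := Real.exp (lam * ℓ j)

lemma av_pos (j : Fin d) : 0 < av ℓ lam j := Real.exp_pos _

lemma openInd_nonneg (x : Vtx d) (j : Fin d) : 0 ≤ openInd ω x j := by
  unfold openInd; split_ifs <;> norm_num

lemma openInd_le_one (x : Vtx d) (j : Fin d) : openInd ω x j ≤ 1 := by
  unfold openInd; split_ifs <;> norm_num

lemma openInd_eq (x : Vtx d) (j : Fin d) : openInd ω x j = 0 ∨ openInd ω x j = 1 := by
  unfold openInd; split_ifs <;> simp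

lemma weight_up (x : Vtx d) (j : Fin d) :
    weight ℓ lam ω x (j, true) = openInd ω x j * av ℓ lam j := by
  classical
  have h : ∑ i, ((nbr x (j, true) i - x i : ℤ) : ℝ) * ℓ i = ℓ j := by
    rw [Finset.sum_eq_single j]
    · simp [nbr, basisVec]
    · intro i _ hij
      simp [nbr, basisVec, Pi.single_eq_of_ne hij]
    · simp
  unfold weight openInd av
  rw [h]
  simp [edgeTo]

lemma weight_down (x : Vtx d) (j : Fin d) :
    weight ℓ lam ω x (j, false) = openInd ω (x - basisVec j) j * (av ℓ lam j)⁻¹ := by
  classical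
  have h : ∑ i, ((nbr x (j, false) i - x i : ℤ) : ℝ) * ℓ i = - ℓ j := by
    rw [Finset.sum_eq_single j]
    · simp [nbr, basisVec]
    · intro i _ hij
      simp [nbr, basisVec, Pi.single_eq_of_ne hij]
    · simp
  unfold weight openInd av
  rw [h, mul_neg, Real.exp_neg]
  simp [edgeTo]

/-- The drift of a function `g` at `x`. -/
noncomputable def drift (g : Vtx d → ℝ) (x : Vtx d) : ℝ :=
  ∑ D, weight ℓ lam ω x D / total ℓ lam ω x * (g (nbr x D) - g x)

lemma integral_stepLaw (g : Vtx d → ℝ) (x : Vtx d) :
    ∫ y, g y ∂(stepLaw ℓ lam ω x) = g x + drift ℓ lam ω g x := by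
  classical
  unfold stepLaw drift
  split_ifs with h
  · rw [integral_dirac]
    simp [h]
  · rw [integral_finsetSum_measure]
    · simp only [integral_smul_measure, integral_dirac]
      have h1 : ∑ D, weight ℓ lam ω x D / total ℓ lam ω x = 1 := by
        rw [← Finset.sum_div]
        exact div_self h
      have h2 : g x = ∑ D, weight ℓ lam ω x D / total ℓ lam ω x * g x := by
        rw [← Finset.sum_mul, h1, one_mul]
      rw [h2, ← Finset.sum_add_distrib]
      refine Finset.sum_congr rfl fun D _ => ?_
      rw [ENNReal.toReal_ofReal (div_nonneg (weight_nonneg ..) (total_nonneg ..)), smul_eq_mul,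
        ← h2]
      ring
    · intro D _
      refine Integrable.smul_measure ?_ ENNReal.ofReal_ne_top
      exact integrable_dirac (by simp)

/-- The translation by `e_j`. -/
def shiftEquiv (j : Fin d) : Vtx d ≃ Vtx d := Equiv.addRight (basisVec j)

lemma hasFiniteSupport_shift {f : Vtx d → ℝ} (hf : HasFiniteSupport f) (y : Vtx d) :
    HasFiniteSupport fun x => f (x + y) := by
  have : (support fun x => f (x + y)) = (fun x => x + y) ⁻¹' support f := rfl
  unfold HasFiniteSupport
  rw [this]
  exact Set.Finite.preimage (fun a _ b _ h => by simpa using h) hf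

lemma tsum_shift (j : Fin d) (f : Vtx d → ℝ) : ∑' x, f (x + basisVec j) = ∑' x, f x :=
  (shiftEquiv j).tsum_eq f

lemma hasFiniteSupport_of_mul {f : Vtx d → ℝ} (hf : HasFiniteSupport f) {h : Vtx d → ℝ}
    (hh : ∀ x, f x = 0 → h x = 0) : HasFiniteSupport h :=
  Set.Finite.subset hf fun x hx hfx => hx (hh x hfx)

/-- Summation by parts for the flow of one step. -/
lemma tsum_drift {P : Vtx d → ℝ} (hP : HasFiniteSupport P) (g : Vtx d → ℝ) :
    ∑' x, P x * drift ℓ lam ω g x =
      ∑ j, ∑' x, openInd ω x j * (av ℓ lam j * (P x / total ℓ lam ω x)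
        - (av ℓ lam j)⁻¹ * (P (x + basisVec j) / total ℓ lam ω (x + basisVec j)))
          * (g (x + basisVec j) - g x) := by
  classical
  have e1 : ∀ x, P x * drift ℓ lam ω g x = ∑ j,
      (openInd ω x j * (av ℓ lam j * (P x / total ℓ lam ω x)) * (g (x + basisVec j) - g x)
        + openInd ω (x - basisVec j) j * ((av ℓ lam j)⁻¹ * (P x / total ℓ lam ω x))
          * (g (x - basisVec j) - g x)) := by
    intro x
    unfold drift
    rw [Finset.mul_sum, Fintype.sum_prod_type]
    refine Finset.sum_congr rfl fun j _ => ?_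
    rw [Fintype.sum_bool, weight_up, weight_down]
    simp only [nbr, if_true, Bool.false_eq_true, if_false]
    ring
  simp_rw [e1]
  have s1 : ∀ j, HasFiniteSupport fun x =>
      openInd ω x j * (av ℓ lam j * (P x / total ℓ lam ω x)) * (g (x + basisVec j) - g x) :=
    fun j => hasFiniteSupport_of_mul hP fun x hx => by simp [hx]
  have s2 : ∀ j, HasFiniteSupport fun x =>
      openInd ω (x - basisVec j) j * ((av ℓ lam j)⁻¹ * (P x / total ℓ lam ω x))
          * (g (x - basisVec j) - g x) :=
    fun j => hasFiniteSupport_of_mul hP fun x hx => by simp [hx]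
  rw [Summable.tsum_finsetSum (fun j _ => (summable_of_hasFiniteSupport (s1 j)).add
    (summable_of_hasFiniteSupport (s2 j)))]
  refine Finset.sum_congr rfl fun j _ => ?_
  rw [Summable.tsum_add (summable_of_hasFiniteSupport (s1 j))
    (summable_of_hasFiniteSupport (s2 j)), ← tsum_shift j (fun x =>
      openInd ω (x - basisVec j) j * ((av ℓ lam j)⁻¹ * (P x / total ℓ lam ω x))
          * (g (x - basisVec j) - g x)), ← Summable.tsum_add
    (summable_of_hasFiniteSupport (s1 j)) (summable_of_hasFiniteSupport
      (hasFiniteSupport_shift (s2 j) _))]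
  refine tsum_congr fun x => ?_
  rw [add_sub_cancel_right]
  ring

end Pool.Agent.P2ec0f3
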