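import Pool.Agent.Lib.P2ec0f3.Records

/-!
# Finite dependence and independence for percolation
-/

open MeasureTheory ProbabilityTheory Filter Topology Function
open scoped unitInterval ENNReal

namespace Pool.Agent.P2ec0f3

variable {d : ℕ}

/-- `f` depends only on the status of the edges in `S`. -/
def DepOn {α : Type*} (S : Finset (Edge d)) (f : Set (Edge d) → α) : Prop :=
  ∀ ω ω' : Set (Edge d), (∀ e ∈ S, (e ∈ ω ↔ e ∈ ω')) → f ω = f ω'

lemma DepOn.mono {α : Type*} {S S' : Finset (Edge d)} {f : Set (Edge d) → α} (h : DepOn S f)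
    (hS : S ⊆ S') : DepOn S' f := fun ω ω' hω => h ω ω' fun e he => hω e (hS he)

/-- The event that the edges of `S` have the status prescribed by `A`. -/
def pat (S : Finset (Edge d)) (A : Set (Edge d)) : Set (Set (Edge d)) :=
  {ω | ∀ e ∈ S, (e ∈ ω ↔ e ∈ A)}

open Classical in
/-- The probability of a pattern. -/
noncomputable def wt (p : I) (S : Finset (Edge d)) (A : Set (Edge d)) : ℝ :=
  ∏ e ∈ S, if e ∈ A then (p : ℝ) else 1 - p

lemma measurableSet_mem (e : Edge d) : MeasurableSet {ω : Set (Edge d) | e ∈ ω} :=
  measurableSet_setOfPred.2 (measurable_set_mem e)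

lemma measurableSet_pat (S : Finset (Edge d)) (A : Set (Edge d)) : MeasurableSet (pat S A) := by
  have : pat S A = ⋂ e ∈ S, {ω : Set (Edge d) | (e ∈ ω ↔ e ∈ A)} := by
    ext ω; simp [pat]
  rw [this]
  refine Finset.measurableSet_biInter _ fun e _ => ?_
  by_cases h : e ∈ A
  · simp only [h, iff_true]
    exact measurableSet_mem e
  · simp only [h, iff_false]
    exact (measurableSet_mem e).compl

lemma toNNReal_eq (p : I) : unitInterval.toNNReal p = (p : ℝ).toNNReal := by
  apply NNReal.eq
  rw [Real.coe_toNNReal _ p.2.1]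
  rfl

lemma percolation_pat (p : I) (S : Finset (Edge d)) (A : Set (Edge d)) :
    (percolation d p).real (pat S A) = wt p S A := by
  classical
  have h1 : percolation d p (pat S A) =
      ∏ e ∈ S, if e ∈ A then ENNReal.ofReal (p : ℝ) else ENNReal.ofReal (1 - p) := by
    unfold percolation
    rw [setBernoulli_apply']
    have h2 : (fun q : Edge d → Prop => {i | q i}) ⁻¹' (pat S A) =
        Set.pi (S : Set (Edge d)) (fun e => if e ∈ A then {True} else {False}) := by
      ext q
      simp only [Set.mem_preimage, pat, Set.mem_ofPred_eq, Set.mem_pi, Finset.mem_coe]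
      refine forall₂_congr fun e _ => ?_
      by_cases h : e ∈ A
      · simp [h]
      · simp [h]
    rw [h2, Measure.infinitePi_pi _ fun e _ => MeasurableSet.of_discrete]
    refine Finset.prod_congr rfl fun e _ => ?_
    by_cases h : e ∈ A
    · simp only [h, if_true]
      simp only [ENNReal.ofReal]
      rw [← toNNReal_eq]
      simp
    · simp only [h, if_false]
      simp only [ENNReal.ofReal]
      have : (1 - (p : ℝ)) = ((σ p : I) : ℝ) := rfl
      rw [this, ← toNNReal_eq]
      simp
  rw [measureReal_def, h1, ENNReal.toReal_prod]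
  unfold wt
  refine Finset.prod_congr rfl fun e _ => ?_
  split_ifs
  · exact ENNReal.toReal_ofReal p.2.1
  · exact ENNReal.toReal_ofReal (by linarith [p.2.2])

lemma pat_inter {T U : Finset (Edge d)} (hTU : Disjoint T U) (A B : Set (Edge d)) (p : I) :
    (percolation d p).real (pat T A ∩ pat U B) = wt p T A * wt p U B := by
  classical
  set C : Set (Edge d) := {e | if e ∈ T then e ∈ A else e ∈ B} with hC
  have h1 : pat T A ∩ pat U B = pat (T ∪ U) C := by
    ext ω
    simp only [pat, Set.mem_inter_iff, Set.mem_ofPred_eq, Finset.mem_union, hC]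
    constructor
    · rintro ⟨h1, h2⟩ e he
      by_cases heT : e ∈ T
      · rw [if_pos heT]; exact h1 e heT
      · rw [if_neg heT]; exact h2 e (he.resolve_left heT)
    · intro h
      refine ⟨fun e he => ?_, fun e he => ?_⟩
      · have := h e (Or.inl he)
        rwa [if_pos he] at this
      · have heT : e ∉ T := fun h' => Finset.disjoint_left.1 hTU h' he
        have := h e (Or.inr he)
        rwa [if_neg heT] at this
  rw [h1, percolation_pat]
  unfold wt
  rw [Finset.prod_union hTU]
  congr 1
  · refine Finset.prod_congr rfl fun e he => ?_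
    have : (e ∈ C) ↔ e ∈ A := by simp [hC, he]
    by_cases h : e ∈ A
    · rw [if_pos (this.2 h), if_pos h]
    · rw [if_neg (fun h' => h (this.1 h')), if_neg h]
  · refine Finset.prod_congr rfl fun e he => ?_
    have heT : e ∉ T := fun h' => Finset.disjoint_left.1 hTU h' he
    have : (e ∈ C) ↔ e ∈ B := by simp [hC, heT]
    by_cases h : e ∈ B
    · rw [if_pos (this.2 h), if_pos h]
    · rw [if_neg (fun h' => h (this.1 h')), if_neg h]

lemma depOn_eq_sum {T : Finset (Edge d)} {f : Set (Edge d) → ℝ} (hf : DepOn T f)
    (ω : Set (Edge d)) :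
    f ω = ∑ A ∈ T.powerset, (pat T (A : Set (Edge d))).indicator (fun _ => f (A : Set (Edge d))) ω := by
  classical
  have hmem : ω ∈ pat T ((T.filter (· ∈ ω) : Finset (Edge d)) : Set (Edge d)) := by
    intro e he
    simp [he]
  rw [Finset.sum_eq_single (T.filter (· ∈ ω))]
  · rw [Set.indicator_of_mem hmem]
    exact hf _ _ hmem
  · intro A hA hne
    refine Set.indicator_of_notMem (fun hcon => hne ?_) _
    ext e
    rw [Finset.mem_filter]
    constructor
    · intro heA
      have heT := Finset.mem_powerset.1 hA heA
      exact ⟨heT, (hcon e heT).2 heA⟩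
    · rintro ⟨heT, heω⟩
      exact (hcon e heT).1 heω
  · intro h
    exact absurd (Finset.mem_powerset.2 (Finset.filter_subset _ _)) h

lemma DepOn.measurable {T : Finset (Edge d)} {f : Set (Edge d) → ℝ} (hf : DepOn T f) :
    Measurable f := by
  have : f = fun ω => ∑ A ∈ T.powerset,
      (pat T (A : Set (Edge d))).indicator (fun _ => f (A : Set (Edge d))) ω :=
    funext fun ω => depOn_eq_sum hf ω
  rw [this]
  refine Finset.measurable_sum _ fun A _ => ?_
  exact measurable_const.indicator (measurableSet_pat _ _)

lemma DepOn.integrable {T : Finset (Edge d)} {f : Set (Edge d) → ℝ} (hf : DepOn T f)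
    (μ : Measure (Set (Edge d))) [IsFiniteMeasure μ] : Integrable f μ := by
  have : f = fun ω => ∑ A ∈ T.powerset,
      (pat T (A : Set (Edge d))).indicator (fun _ => f (A : Set (Edge d))) ω :=
    funext fun ω => depOn_eq_sum hf ω
  rw [this]
  refine integrable_finsetSum _ fun A _ => ?_
  exact (integrable_const _).indicator (measurableSet_pat _ _)

/-- A function depending on `T` and a pattern on a disjoint set are independent. -/
lemma setIntegral_pat {T U : Finset (Edge d)} (hTU : Disjoint T U) (B : Set (Edge d)) (p : I)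
    {f : Set (Edge d) → ℝ} (hf : DepOn T f) :
    ∫ ω in pat U B, f ω ∂(percolation d p) = wt p U B * ∫ ω, f ω ∂(percolation d p) := by
  have h1 : ∀ (μ : Measure (Set (Edge d))) [IsFiniteMeasure μ], ∫ ω, f ω ∂μ =
      ∑ A ∈ T.powerset, μ.real (pat T (A : Set (Edge d))) * f (A : Set (Edge d)) := by
    intro μ _
    have : f = fun ω => ∑ A ∈ T.powerset,
        (pat T (A : Set (Edge d))).indicator (fun _ => f (A : Set (Edge d))) ω :=
      funext fun ω => depOn_eq_sum hf ω
    conv_lhs => rw [this]
    rw [integral_finsetSum _ fun A _ => (integrable_const _).indicator (measurableSet_pat _ _)]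
    refine Finset.sum_congr rfl fun A _ => ?_
    rw [integral_indicator_const _ (measurableSet_pat _ _), smul_eq_mul]
  rw [h1 (percolation d p), h1 ((percolation d p).restrict (pat U B)), Finset.mul_sum]
  refine Finset.sum_congr rfl fun A _ => ?_
  rw [measureReal_restrict_apply (measurableSet_pat _ _), pat_inter hTU, percolation_pat]
  ring

end Pool.Agent.P2ec0f3
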