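import Pool.Agent.Lib.P2ec0f3.Flow
import Mathlib.MeasureTheory.Integral.Bochner.SumMeasure
import Mathlib.Probability.Kernel.Composition.IntegralCompProd

/-!
# The law of the position at time `n`
-/

open MeasureTheory ProbabilityTheory Filter Topology Function
open scoped unitInterval

namespace Pool.Agent.P2ec0f3

variable {d : ℕ} (ℓ : Fin d → ℝ) (lam : ℝ) (ω : Set (Edge d))

instance : IsProbabilityMeasure (quenched ℓ lam ω) := by
  unfold quenched
  infer_instance

/-- The law of `X_n`. -/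
noncomputable def lawAt (n : ℕ) : Measure (Vtx d) := (quenched ℓ lam ω).map (fun X => X n)

instance (n : ℕ) : IsProbabilityMeasure (lawAt ℓ lam ω n) :=
  Measure.isProbabilityMeasure_map (measurable_pi_apply n).aemeasurable

lemma lawAt_zero : lawAt ℓ lam ω 0 = Measure.dirac 0 := by
  unfold lawAt quenched Kernel.trajMeasure
  have h1 : (fun X : ℕ → Vtx d => X 0)
      = (fun y : (i : Finset.Iic 0) → (fun _ : ℕ => Vtx d) i => y ⟨0, by simp⟩)
        ∘ (Preorder.frestrictLe (π := fun _ : ℕ => Vtx d) 0) := rfl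
  rw [h1, ← Measure.map_map (by fun_prop) (by fun_prop), Measure.map_comp _ _ (by fun_prop),
    Kernel.traj_map_frestrictLe, Kernel.partialTraj_self]
  have h2 : (Kernel.id : Kernel ((i : Finset.Iic 0) → (fun _ : ℕ => Vtx d) i) _) ∘ₘ
      ((Measure.dirac (0 : Vtx d)).map
        (MeasurableEquiv.piUnique (fun i : Finset.Iic 0 => (fun _ : ℕ => Vtx d) i)).symm)
      = ((Measure.dirac (0 : Vtx d)).map
        (MeasurableEquiv.piUnique (fun i : Finset.Iic 0 => (fun _ : ℕ => Vtx d) i)).symm) :=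
    Measure.id_comp
  rw [h2, Measure.map_map (by fun_prop) (by fun_prop)]
  rw [Measure.map_dirac' (by fun_prop)]
  rfl

lemma pastKernel_comp (n : ℕ) (μ : Measure ((i : Finset.Iic n) → (fun _ : ℕ => Vtx d) i)) :
    (pastKernel ℓ lam ω n) ∘ₘ μ
      = (stepKernel ℓ lam ω) ∘ₘ (μ.map fun path => path ⟨n, Finset.mem_Iic.2 le_rfl⟩) := by
  ext s hs
  rw [Measure.bind_apply hs (Kernel.aemeasurable _), Measure.bind_apply hs (Kernel.aemeasurable _),
    lintegral_map (Kernel.measurable_coe _ hs) (measurable_pi_apply _)]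
  rfl

lemma lawAt_succ (n : ℕ) :
    lawAt ℓ lam ω (n + 1) = (stepKernel ℓ lam ω) ∘ₘ (lawAt ℓ lam ω n) := by
  have h := Kernel.map_frestrictLe_trajMeasure_compProd_eq_map_trajMeasure
    (X := fun _ : ℕ => Vtx d) (κ := pastKernel ℓ lam ω) (μ₀ := Measure.dirac (0 : Vtx d)) (a := n)
  have h2 := congrArg Measure.snd h
  rw [Measure.snd_compProd, Measure.snd_map_prodMk (by fun_prop), pastKernel_comp,
    Measure.map_map (by fun_prop) (by fun_prop)] at h2
  exact h2.symm

/-- The box `[-n, n]^d`. -/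
noncomputable def box (d n : ℕ) : Finset (Vtx d) := Fintype.piFinset fun _ => Finset.Icc (-(n : ℤ)) n

lemma mem_box {n : ℕ} {x : Vtx d} : x ∈ box d n ↔ ∀ i, -(n : ℤ) ≤ x i ∧ x i ≤ n := by
  simp [box, Fintype.mem_piFinset]

lemma box_mono {m n : ℕ} (h : m ≤ n) : box d m ⊆ box d n := by
  intro x hx
  rw [mem_box] at hx ⊢
  intro i
  have := hx i
  constructor <;> omega

lemma nbr_mem_box {n : ℕ} {x : Vtx d} (hx : x ∈ box d n) (D : Fin d × Bool) :
    nbr x D ∈ box d (n + 1) := by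
  rw [mem_box] at hx ⊢
  intro i
  have h := hx i
  obtain ⟨j, b⟩ := D
  have hb : basisVec j i = 0 ∨ basisVec j i = 1 := by
    unfold basisVec
    by_cases hij : i = j
    · subst hij; right; simp
    · left; simp [Pi.single_eq_of_ne hij]
  cases b
  · simp only [nbr, Bool.false_eq_true, if_false, Pi.sub_apply]
    rcases hb with hb | hb <;> rw [hb] <;> constructor <;> push_cast <;> omega
  · simp only [nbr, if_true, Pi.add_apply]
    rcases hb with hb | hb <;> rw [hb] <;> constructor <;> push_cast <;> omega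

lemma ae_stepLaw (x : Vtx d) :
    ∀ᵐ y ∂(stepLaw ℓ lam ω x), y = x ∨ ∃ D, y = nbr x D := by
  classical
  unfold stepLaw
  split_ifs with h
  · rw [ae_dirac_eq]
    exact Or.inl rfl
  · rw [ae_iff]
    simp only [Measure.coe_finsetSum, Finset.sum_apply, Measure.smul_apply, smul_eq_mul]
    refine Finset.sum_eq_zero fun D _ => ?_
    rw [Measure.dirac_apply, Set.indicator_of_notMem, mul_zero]
    intro hmem
    exact hmem (Or.inr ⟨D, rfl⟩)

lemma ae_lawAt (n : ℕ) : ∀ᵐ x ∂(lawAt ℓ lam ω n), x ∈ box d n := by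
  induction n with
  | zero =>
    rw [lawAt_zero, ae_dirac_eq]
    change (0 : Vtx d) ∈ box d 0
    rw [mem_box]
    simp
  | succ n ih =>
    rw [lawAt_succ]
    refine Measure.ae_comp_of_ae_ae (MeasurableSet.of_discrete) ?_
    filter_upwards [ih] with x hx
    filter_upwards [ae_stepLaw ℓ lam ω x] with y hy
    rcases hy with rfl | ⟨D, rfl⟩
    · exact box_mono (Nat.le_succ n) hx
    · exact nbr_mem_box hx D

lemma integrable_lawAt (n : ℕ) (g : Vtx d → ℝ) : Integrable g (lawAt ℓ lam ω n) := by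
  refine Integrable.of_bound (C := ∑ x ∈ box d n, |g x|)
    (measurable_of_countable g).aestronglyMeasurable ?_
  filter_upwards [ae_lawAt ℓ lam ω n] with x hx
  rw [Real.norm_eq_abs]
  exact Finset.single_le_sum (f := fun x => |g x|) (fun _ _ => abs_nonneg _) hx

/-- The probability that `X_n = x`. -/
noncomputable def pr (n : ℕ) (x : Vtx d) : ℝ := (lawAt ℓ lam ω n).real {x}

lemma pr_nonneg (n : ℕ) (x : Vtx d) : 0 ≤ pr ℓ lam ω n x := measureReal_nonneg

lemma pr_le_one (n : ℕ) (x : Vtx d) : pr ℓ lam ω n x ≤ 1 := measureReal_le_one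

lemma pr_eq_zero {n : ℕ} {x : Vtx d} (hx : x ∉ box d n) : pr ℓ lam ω n x = 0 := by
  unfold pr
  rw [measureReal_eq_zero_iff]
  refine measure_mono_null (t := {y | ¬ y ∈ box d n}) ?_ (ae_iff.1 (ae_lawAt ℓ lam ω n))
  intro y hy
  rw [Set.mem_singleton_iff] at hy
  rw [hy]
  exact hx

lemma hasFiniteSupport_pr (n : ℕ) : HasFiniteSupport (pr ℓ lam ω n) :=
  Set.Finite.subset (box d n).finite_toSet fun x hx => by
    by_contra h
    exact hx (pr_eq_zero ℓ lam ω h)

lemma integral_lawAt (n : ℕ) (g : Vtx d → ℝ) :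
    ∫ x, g x ∂(lawAt ℓ lam ω n) = ∑' x, pr ℓ lam ω n x * g x := by
  rw [integral_countable (integrable_lawAt ℓ lam ω n g)]
  rfl

lemma integral_lawAt_succ (n : ℕ) (g : Vtx d → ℝ) :
    ∫ x, g x ∂(lawAt ℓ lam ω (n + 1)) = ∫ x, g x ∂(lawAt ℓ lam ω n)
      + ∑' x, pr ℓ lam ω n x * drift ℓ lam ω g x := by
  have h : ∫ x, g x ∂(lawAt ℓ lam ω (n + 1)) =
      ∫ x, (∫ y, g y ∂(stepLaw ℓ lam ω x)) ∂(lawAt ℓ lam ω n) := by
    have hi := integrable_lawAt ℓ lam ω (n + 1) g
    rw [lawAt_succ, Measure.comp_eq_comp_const_apply] at hi ⊢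
    rw [Kernel.integral_comp hi]
    simp only [Kernel.const_apply]
    rfl
  rw [h]
  simp_rw [integral_stepLaw]
  rw [integral_add (integrable_lawAt ..) (integrable_lawAt ..), integral_lawAt ℓ lam ω n
    (drift ℓ lam ω g)]

lemma sum_pr (n : ℕ) : ∑' x, pr ℓ lam ω n x = 1 := by
  have := integral_lawAt ℓ lam ω n (fun _ => 1)
  simp only [integral_const, probReal_univ, smul_eq_mul, mul_one] at this
  exact this.symm

end Pool.Agent.P2ec0f3
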