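import Pool.Agent.Lib.P2ec0f3.Diag
import Mathlib.MeasureTheory.Integral.DominatedConvergence

/-!
# Passing to the limit: the velocity and the expected heights
-/

open MeasureTheory ProbabilityTheory Filter Topology Function
open scoped unitInterval

namespace Pool.Agent.P2ec0f3

variable {d : ℕ} (ℓ : Fin d → ℝ) (lam : ℝ) (ω : Set (Edge d))

lemma ae_mem_box (n : ℕ) : ∀ᵐ X ∂(quenched ℓ lam ω), X n ∈ box d n := by
  have h := ae_lawAt ℓ lam ω n
  unfold lawAt at h
  exact ae_of_ae_map (measurable_pi_apply n).aemeasurable h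

lemma abs_height_div_le {n : ℕ} {x : Vtx d} (hx : x ∈ box d n) :
    |height ℓ x / n| ≤ ∑ j, |ℓ j| := by
  by_cases hn : n = 0
  · subst hn
    simp only [Nat.cast_zero, div_zero, abs_zero]
    exact Finset.sum_nonneg fun _ _ => abs_nonneg _
  · have hn0 : (0 : ℝ) < n := by positivity
    rw [mem_box] at hx
    rw [abs_div, abs_of_pos hn0, div_le_iff₀ hn0, Finset.sum_mul]
    unfold height
    refine (Finset.abs_sum_le_sum_abs _ _).trans (Finset.sum_le_sum fun j _ => ?_)
    rw [abs_mul, mul_comm]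
    refine mul_le_mul_of_nonneg_left ?_ (abs_nonneg _)
    rw [abs_le]
    obtain ⟨h1, h2⟩ := hx j
    constructor
    · have : ((-(n : ℤ) : ℤ) : ℝ) ≤ (x j : ℝ) := by exact_mod_cast h1
      push_cast at this
      exact this
    · exact_mod_cast h2

lemma tendsto_integral_height {v : Fin d → ℝ}
    (hv : ∀ᵐ X ∂(quenched ℓ lam ω), ∀ j,
      Tendsto (fun n : ℕ => (X n j : ℝ) / n) atTop (𝓝 (v j))) :
    Tendsto (fun n : ℕ => (∫ x, height ℓ x ∂(lawAt ℓ lam ω n)) / n) atTop
      (𝓝 (∑ j, v j * ℓ j)) := by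
  have h1 : ∀ n : ℕ, (∫ x, height ℓ x ∂(lawAt ℓ lam ω n)) / n
      = ∫ X, height ℓ (X n) / n ∂(quenched ℓ lam ω) := by
    intro n
    unfold lawAt
    rw [integral_map (measurable_pi_apply n).aemeasurable
      (measurable_of_countable _).aestronglyMeasurable, integral_div]
  simp_rw [h1]
  have h2 : (∑ j, v j * ℓ j) = ∫ _, (∑ j, v j * ℓ j) ∂(quenched ℓ lam ω) := by simp
  rw [h2]
  refine tendsto_integral_of_dominated_convergence (fun _ => ∑ j, |ℓ j|) ?_
    (integrable_const _) ?_ ?_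
  · intro n
    have : Measurable fun X : ℕ → Vtx d => height ℓ (X n) / n :=
      ((measurable_of_countable (height ℓ)).comp (measurable_pi_apply n)).div_const _
    exact this.aestronglyMeasurable
  · intro n
    filter_upwards [ae_mem_box ℓ lam ω n] with X hX
    rw [Real.norm_eq_abs]
    exact abs_height_div_le ℓ hX
  · filter_upwards [hv] with X hX
    have h3 : ∀ n : ℕ, height ℓ (X n) / n = ∑ j, ((X n j : ℝ) / n) * ℓ j := by
      intro n
      unfold height
      rw [Finset.sum_div]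
      exact Finset.sum_congr rfl fun j _ => by ring
    simp_rw [h3]
    exact tendsto_finsetSum _ fun j _ => (hX j).mul_const _

/-- In every environment the velocity is at most the speed of the full lattice. -/
lemma velocity_le {δ : ℝ} (hδ : 0 < δ) (hlam : 0 < lam) (hℓ : ∀ j, |ℓ j| = δ) {v : Fin d → ℝ}
    (hv : ∀ᵐ X ∂(quenched ℓ lam ω), ∀ j,
      Tendsto (fun n : ℕ => (X n j : ℝ) / n) atTop (𝓝 (v j))) :
    ∑ j, v j * ℓ j ≤ fullSpeed lam δ := by
  have h1 := tendsto_integral_height ℓ lam ω hv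
  have h2 : Tendsto (fun n : ℕ => fullSpeed lam δ + multiplier lam δ * (errBound ℓ lam n / n))
      atTop (𝓝 (fullSpeed lam δ + multiplier lam δ * 0)) :=
    ((tendsto_errBound ℓ lam).const_mul _).const_add _
  rw [mul_zero, add_zero] at h2
  refine le_of_tendsto_of_tendsto h1 h2 ?_
  filter_upwards [eventually_ge_atTop 1] with n hn
  have hn0 : (0 : ℝ) < n := by exact_mod_cast hn
  rw [div_le_iff₀ hn0]
  refine (integral_height_le ℓ lam ω hδ hlam hℓ n).trans (le_of_eq ?_)
  field_simp

lemma openInd_univ (x : Vtx d) (j : Fin d) : openInd (Set.univ : Set (Edge d)) x j = 1 := by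
  simp [openInd]

lemma exp_sum_sign {δ : ℝ} (hδ : 0 < δ) (hℓ : ∀ j, |ℓ j| = δ) (j : Fin d) :
    av ℓ lam j + (av ℓ lam j)⁻¹ = Real.exp (lam * δ) + (Real.exp (lam * δ))⁻¹ ∧
    ℓ j * (av ℓ lam j - (av ℓ lam j)⁻¹)
      = δ * (Real.exp (lam * δ) - (Real.exp (lam * δ))⁻¹) := by
  unfold av
  rcases (abs_eq hδ.le).1 (hℓ j) with h | h
  · rw [h]; exact ⟨rfl, rfl⟩
  · rw [h]
    have h1 : Real.exp (lam * -δ) = (Real.exp (lam * δ))⁻¹ := by
      rw [mul_neg, Real.exp_neg]
    rw [h1, inv_inv]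
    constructor <;> ring

/-- On the full lattice the drift of the height is constant. -/
lemma drift_height_univ (hd : 0 < d) {δ : ℝ} (hδ : 0 < δ) (hℓ : ∀ j, |ℓ j| = δ) (x : Vtx d) :
    drift ℓ lam Set.univ (height ℓ) x = fullSpeed lam δ := by
  set A := Real.exp (lam * δ) with hA
  have hA0 : 0 < A := Real.exp_pos _
  have htot : total ℓ lam Set.univ x = d * (A + A⁻¹) := by
    unfold total
    rw [Fintype.sum_prod_type]
    simp only [Fintype.sum_bool, weight_up, weight_down, openInd_univ, one_mul]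
    rw [Finset.sum_congr rfl fun j _ => (exp_sum_sign ℓ lam hδ hℓ j).1]
    rw [Finset.sum_const, Finset.card_univ, Fintype.card_fin, nsmul_eq_mul]
  unfold drift
  rw [htot, Fintype.sum_prod_type]
  simp only [Fintype.sum_bool, weight_up, weight_down, openInd_univ, one_mul, nbr, if_true,
    Bool.false_eq_true, if_false]
  have h1 : ∀ j, height ℓ (x - basisVec j) - height ℓ x = - ℓ j := by
    intro j
    have := height_add ℓ (x - basisVec j) j
    rw [sub_add_cancel] at this
    linarith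
  simp_rw [height_add, h1]
  have h2 : ∀ j, av ℓ lam j / (d * (A + A⁻¹)) * ℓ j + (av ℓ lam j)⁻¹ / (d * (A + A⁻¹)) * -ℓ j
      = δ * (A - A⁻¹) / (d * (A + A⁻¹)) := by
    intro j
    rw [← (exp_sum_sign ℓ lam hδ hℓ j).2]
    ring
  rw [Finset.sum_congr rfl fun j _ => h2 j]
  simp only [Finset.sum_const, Finset.card_univ, Fintype.card_fin, nsmul_eq_mul]
  unfold fullSpeed
  rw [← hA]
  have hd' : (d : ℝ) ≠ 0 := by positivity
  have h3 : A + A⁻¹ ≠ 0 := by positivity
  field_simp

/-- The velocity on the full lattice. -/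
lemma velocity_univ (hd : 0 < d) {δ : ℝ} (hδ : 0 < δ) (hℓ : ∀ j, |ℓ j| = δ) {v : Fin d → ℝ}
    (hv : ∀ᵐ X ∂(quenched ℓ lam Set.univ), ∀ j,
      Tendsto (fun n : ℕ => (X n j : ℝ) / n) atTop (𝓝 (v j))) :
    ∑ j, v j * ℓ j = fullSpeed lam δ := by
  have h1 := tendsto_integral_height ℓ lam Set.univ hv
  have h2 : ∀ n : ℕ, ∫ x, height ℓ x ∂(lawAt ℓ lam Set.univ n) = n * fullSpeed lam δ := by
    intro n
    induction n with
    | zero => simp [lawAt_zero, integral_dirac, height_zero]
    | succ n ih =>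
      rw [integral_lawAt_succ, ih]
      simp_rw [drift_height_univ ℓ lam hd hδ hℓ]
      rw [tsum_mul_right, sum_pr]
      push_cast
      ring
  refine tendsto_nhds_unique h1 ?_
  refine (tendsto_const_nhds (x := fullSpeed lam δ)).congr' ?_
  filter_upwards [eventually_ge_atTop 1] with n hn
  have hn0 : (n : ℝ) ≠ 0 := by positivity
  rw [h2]
  field_simp

/-- Above the critical parameter the origin is in an infinite cluster with positive
probability. -/
lemma percolation_ne_zero {p : I} (hp : criticalParam d < p) :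
    percolation d p (zeroInfinite d) ≠ 0 := by
  intro h
  have : (p : ℝ) ≤ criticalParam d := by
    refine le_csSup ⟨1, ?_⟩ ⟨p, rfl, h⟩
    rintro t ⟨q, rfl, -⟩
    exact q.2.2
  linarith

instance (p : I) : IsProbabilityMeasure (percolation d p) := by
  unfold percolation
  infer_instance

lemma cond_ne_zero {p : I} (hp : criticalParam d < p) :
    ProbabilityTheory.cond (percolation d p) (zeroInfinite d) ≠ 0 := by
  intro h
  have h1 := percolation_ne_zero hp
  have h2 : ProbabilityTheory.cond (percolation d p) (zeroInfinite d) Set.univ = 1 := by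
    unfold ProbabilityTheory.cond
    rw [Measure.smul_apply, Measure.restrict_apply_univ, smul_eq_mul]
    exact ENNReal.inv_mul_cancel h1 (measure_ne_top _ _)
  rw [h] at h2
  simp at h2

/-- Comparison of the speed at `p` and at `1` for a diagonal bias. -/
theorem velocity_comparison (hd : 0 < d) (hunit : ∑ j, ℓ j ^ 2 = 1)
    (hdiag : ∀ i j, |ℓ i| = |ℓ j|) (hlam : 0 < lam) {p : I} (hp : criticalParam d < p)
    {v v₁ : Fin d → ℝ} (hv : IsVelocity ℓ lam p v) (hv₁ : IsVelocity ℓ lam 1 v₁) :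
    ∑ j, v j * ℓ j ≤ ∑ j, v₁ j * ℓ j := by
  obtain ⟨j₀⟩ : Nonempty (Fin d) := ⟨⟨0, hd⟩⟩
  have hδ : 0 < |ℓ j₀| := by
    rw [abs_pos]
    intro h0
    have : ∑ j, ℓ j ^ 2 = 0 := Finset.sum_eq_zero fun j _ => by
      have := hdiag j j₀
      rw [h0, abs_zero, abs_eq_zero] at this
      rw [this]; ring
    rw [this] at hunit
    norm_num at hunit
  have hℓ : ∀ j, |ℓ j| = |ℓ j₀| := fun j => hdiag j j₀
  have h1 : ∑ j, v j * ℓ j ≤ fullSpeed lam |ℓ j₀| := by
    have : NeBot (ae (ProbabilityTheory.cond (percolation d p) (zeroInfinite d))) :=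
      ae_neBot.2 (cond_ne_zero hp)
    obtain ⟨ω, hω⟩ := hv.exists
    exact velocity_le ℓ lam ω hδ hlam hℓ hω
  have h2 : ∑ j, v₁ j * ℓ j = fullSpeed lam |ℓ j₀| := by
    have hp1 : criticalParam d < ((1 : I) : ℝ) := lt_of_lt_of_le hp p.2.2
    have : NeBot (ae (ProbabilityTheory.cond (percolation d 1) (zeroInfinite d))) :=
      ae_neBot.2 (cond_ne_zero hp1)
    have h3 : ∀ᵐ ω ∂(ProbabilityTheory.cond (percolation d 1) (zeroInfinite d)),
        ω = Set.univ := by
      have h4 : ∀ᵐ ω ∂(percolation d 1), ω = Set.univ := by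
        unfold percolation
        rw [setBernoulli_one, ae_dirac_eq]
        rfl
      unfold ProbabilityTheory.cond
      exact Measure.ae_smul_measure (ae_restrict_of_ae h4) _
    obtain ⟨ω, hω, rfl⟩ := (hv₁.and h3).exists
    exact velocity_univ ℓ lam hd hδ hℓ hω
  rw [h2]
  exact h1

end Pool.Agent.P2ec0f3
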