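import Pool.Agent.Lib.P2ec0f3.Paths

/-!
# Measurability of the percolation event and of the quenched expectations
-/

open MeasureTheory ProbabilityTheory Filter Topology Function
open scoped unitInterval ENNReal

namespace Pool.Agent.P2ec0f3

variable {d : ℕ}

/-- `x` is reached from `0` in at most `n` steps. -/
def ReachN (ω : Set (Edge d)) : ℕ → Vtx d → Prop
  | 0, x => x = 0
  | n + 1, x => ReachN ω n x ∨ ∃ y, ReachN ω n y ∧ (openGraph ω).Adj y x

lemma reachable_iff (ω : Set (Edge d)) (x : Vtx d) :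
    (openGraph ω).Reachable 0 x ↔ ∃ n, ReachN ω n x := by
  constructor
  · intro h
    rw [SimpleGraph.reachable_iff_reflTransGen] at h
    induction h with
    | refl => exact ⟨0, rfl⟩
    | tail _ hab ih =>
      obtain ⟨n, hn⟩ := ih
      exact ⟨n + 1, Or.inr ⟨_, hn, hab⟩⟩
  · rintro ⟨n, hn⟩
    induction n generalizing x with
    | zero =>
      obtain rfl : x = 0 := hn
      exact SimpleGraph.Reachable.refl _
    | succ n ih =>
      rcases hn with h | ⟨y, h, hy⟩
      · exact ih x h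
      · exact (ih y h).trans hy.reachable

lemma measurableSet_adj (x y : Vtx d) :
    MeasurableSet {ω : Set (Edge d) | (openGraph ω).Adj x y} := by
  have : {ω : Set (Edge d) | (openGraph ω).Adj x y} =
      {_ω : Set (Edge d) | x ≠ y} ∩ ((⋃ j, ({_ω : Set (Edge d) | y = x + basisVec j} ∩
        {ω : Set (Edge d) | (x, j) ∈ ω})) ∪ (⋃ j, ({_ω : Set (Edge d) | x = y + basisVec j} ∩
        {ω : Set (Edge d) | (y, j) ∈ ω}))) := by
    ext ω
    unfold openGraph
    simp only [SimpleGraph.fromRel_adj, Set.mem_ofPred_eq, Set.mem_inter_iff, Set.mem_union,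
      Set.mem_iUnion]
    constructor
    · rintro ⟨h1, ⟨j, h2, h3⟩ | ⟨j, h2, h3⟩⟩
      · exact ⟨h1, Or.inl ⟨j, h3, h2⟩⟩
      · exact ⟨h1, Or.inr ⟨j, h3, h2⟩⟩
    · rintro ⟨h1, ⟨j, h2, h3⟩ | ⟨j, h2, h3⟩⟩
      · exact ⟨h1, Or.inl ⟨j, h3, h2⟩⟩
      · exact ⟨h1, Or.inr ⟨j, h3, h2⟩⟩
  rw [this]
  refine (MeasurableSet.const _).inter (MeasurableSet.union ?_ ?_)
  · exact MeasurableSet.iUnion fun j => (MeasurableSet.const _).inter (measurableSet_mem _)
  · exact MeasurableSet.iUnion fun j => (MeasurableSet.const _).inter (measurableSet_mem _)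

lemma measurableSet_reachN (n : ℕ) (x : Vtx d) :
    MeasurableSet {ω : Set (Edge d) | ReachN ω n x} := by
  induction n generalizing x with
  | zero => exact MeasurableSet.const _
  | succ n ih =>
    have : {ω : Set (Edge d) | ReachN ω (n + 1) x} = {ω | ReachN ω n x} ∪
        ⋃ y, ({ω | ReachN ω n y} ∩ {ω | (openGraph ω).Adj y x}) := by
      ext ω
      simp [ReachN]
    rw [this]
    exact (ih x).union (MeasurableSet.iUnion fun y => (ih y).inter (measurableSet_adj y x))

lemma measurableSet_reachable (x : Vtx d) :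
    MeasurableSet {ω : Set (Edge d) | (openGraph ω).Reachable 0 x} := by
  have : {ω : Set (Edge d) | (openGraph ω).Reachable 0 x} = ⋃ n, {ω | ReachN ω n x} := by
    ext ω
    simp [reachable_iff]
  rw [this]
  exact MeasurableSet.iUnion fun n => measurableSet_reachN n x

lemma infinite_iff (S : Set (Vtx d)) : S.Infinite ↔ ∀ n, ∃ x, x ∉ box d n ∧ x ∈ S := by
  constructor
  · intro h n
    obtain ⟨x, hx, hx'⟩ := h.exists_notMem_finset (box d n)
    exact ⟨x, hx', hx⟩
  · intro h hfin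
    obtain ⟨x, hx, hxS⟩ := h (∑ x ∈ hfin.toFinset, ∑ i, (x i).natAbs)
    apply hx
    rw [mem_box]
    intro i
    have h1 : (x i).natAbs ≤ ∑ i, (x i).natAbs :=
      Finset.single_le_sum (f := fun i => (x i).natAbs) (fun _ _ => Nat.zero_le _)
        (Finset.mem_univ i)
    have h2 : ∑ i, (x i).natAbs ≤ ∑ x ∈ hfin.toFinset, ∑ i, (x i).natAbs :=
      Finset.single_le_sum (f := fun x : Vtx d => ∑ i, (x i).natAbs) (fun _ _ => Nat.zero_le _)
        (hfin.mem_toFinset.2 hxS)
    constructor <;> omega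

lemma measurableSet_zeroInfinite : MeasurableSet (zeroInfinite d) := by
  have : zeroInfinite d = ⋂ n, ⋃ x, ({_ω : Set (Edge d) | x ∉ box d n} ∩
      {ω : Set (Edge d) | (openGraph ω).Reachable 0 x}) := by
    ext ω
    unfold zeroInfinite
    simp only [Set.mem_ofPred_eq, infinite_iff, Set.mem_iInter, Set.mem_iUnion, Set.mem_inter_iff]
  rw [this]
  exact MeasurableSet.iInter fun n => MeasurableSet.iUnion fun x =>
    (MeasurableSet.const _).inter (measurableSet_reachable x)

variable (ℓ : Fin d → ℝ) (lam : ℝ)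

lemma lev_le_of_mem_box {n : ℕ} {x : Vtx d} (hx : x ∈ box d n) : lev ℓ x ≤ d * n := by
  rw [mem_box] at hx
  unfold lev
  have h1 : ∀ j ∈ (Finset.univ : Finset (Fin d)), sg ℓ j * x j ≤ n := by
    intro j _
    have := hx j
    rcases sg_eq ℓ j with h | h <;> rw [h] <;> omega
  refine (Finset.sum_le_sum h1).trans (le_of_eq ?_)
  simp

lemma pr_eq_kp (ω : Set (Edge d)) (n : ℕ) (x : Vtx d) :
    pr ℓ lam ω n x = kp ℓ lam ω (d * n + 1) n x := by
  unfold pr kp
  rw [measureReal_def, measureReal_def, kil_apply]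
  congr 1
  unfold lawAt
  rw [Measure.map_apply (measurable_pi_apply n) (MeasurableSet.singleton x)]
  refine measure_congr ?_
  filter_upwards [ae_all_iff.2 fun m => ae_mem_box ℓ lam ω m] with X hX
  apply propext
  constructor
  · intro h
    refine ⟨fun m hm => ?_, h⟩
    have := lev_le_of_mem_box ℓ (box_mono hm.le (hX m))
    omega
  · intro h
    exact h.2

lemma pr_depOn (n : ℕ) (x : Vtx d) :
    DepOn (touch ℓ (d * n + 1) n) (fun ω => pr ℓ lam ω n x) := by
  intro ω ω' h
  simp only [pr_eq_kp]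
  exact kp_depOn ℓ lam _ n x ω ω' h

/-- The expected height at time `n`. -/
noncomputable def eh (n : ℕ) (ω : Set (Edge d)) : ℝ := ∫ x, height ℓ x ∂(lawAt ℓ lam ω n)

lemma eh_eq (n : ℕ) (ω : Set (Edge d)) :
    eh ℓ lam n ω = ∑ x ∈ box d n, pr ℓ lam ω n x * height ℓ x := by
  unfold eh
  rw [integral_lawAt, tsum_eq_sum]
  intro x hx
  rw [pr_eq_zero ℓ lam ω hx, zero_mul]

lemma eh_depOn (n : ℕ) : DepOn (touch ℓ (d * n + 1) n) (fun ω => eh ℓ lam n ω) := by
  intro ω ω' h
  simp only [eh_eq]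
  refine Finset.sum_congr rfl fun x _ => ?_
  have := pr_depOn ℓ lam n x ω ω' h
  simp only at this
  rw [this]

lemma abs_eh_div_le (n : ℕ) (ω : Set (Edge d)) : |eh ℓ lam n ω / n| ≤ ∑ j, |ℓ j| := by
  have h1 : eh ℓ lam n ω / n = ∫ x, height ℓ x / n ∂(lawAt ℓ lam ω n) := by
    unfold eh
    rw [integral_div]
  rw [h1]
  have h2 := norm_integral_le_of_norm_le_const (μ := lawAt ℓ lam ω n)
    (f := fun x => height ℓ x / n) (C := ∑ j, |ℓ j|) (by
      filter_upwards [ae_lawAt ℓ lam ω n] with x hx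
      rw [Real.norm_eq_abs]
      exact abs_height_div_le ℓ hx)
  simpa using h2

lemma recUnb_depOn (N : ℕ) : ∃ T, DepOn T (fun ω => recUnb ℓ lam ω N) := by
  classical
  refine ⟨(Finset.range N).biUnion fun n => (box d (n + 1)).biUnion fun z =>
    touch ℓ (lev ℓ z) (n + 1) ∪ (upSet ℓ z ∪ dnSet ℓ z), fun ω ω' h => ?_⟩
  unfold recUnb
  refine Finset.sum_congr rfl fun n hn => Finset.sum_congr rfl fun z hz => ?_
  exact kp_unb_depOn ℓ lam (lev ℓ z) (n + 1) z ω ω' fun e he => h e
    (Finset.mem_biUnion.2 ⟨n, hn, Finset.mem_biUnion.2 ⟨z, hz, he⟩⟩)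

end Pool.Agent.P2ec0f3
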