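import Pool.Agent.Lib.P2ec0f3.RecLaw

/-!
# Records along a path
-/

open MeasureTheory ProbabilityTheory Filter Topology Function
open scoped unitInterval ENNReal

namespace Pool.Agent.P2ec0f3

variable {d : ℕ} (ℓ : Fin d → ℝ) (lam : ℝ) (ω : Set (Edge d))

lemma ae_stepLaw' (x : Vtx d) :
    ∀ᵐ y ∂(stepLaw ℓ lam ω x), y = x ∨ ∃ D, edgeTo x D ∈ ω ∧ y = nbr x D := by
  rw [ae_iff, measure_null_iff_singleton (Set.to_countable _)]
  intro y hy
  by_contra h
  exact hy (stepLaw_ne_zero ℓ lam h)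

/-- Almost every trajectory moves across open edges. -/
lemma ae_step : ∀ᵐ X ∂(quenched ℓ lam ω), ∀ n, X (n + 1) = X n ∨
    ∃ D, edgeTo (X n) D ∈ ω ∧ X (n + 1) = nbr (X n) D := by
  rw [ae_all_iff]
  intro n
  have h := Kernel.map_frestrictLe_trajMeasure_compProd_eq_map_trajMeasure
    (X := fun _ : ℕ => Vtx d) (κ := pastKernel ℓ lam ω) (μ₀ := Measure.dirac (0 : Vtx d)) (a := n)
  set p : ((i : Finset.Iic n) → (fun _ : ℕ => Vtx d) i) × Vtx d → Prop := fun q =>
    q.2 = q.1 ⟨n, Finset.mem_Iic.2 le_rfl⟩ ∨ ∃ D, edgeTo (q.1 ⟨n, Finset.mem_Iic.2 le_rfl⟩) D ∈ ω ∧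
      q.2 = nbr (q.1 ⟨n, Finset.mem_Iic.2 le_rfl⟩) D with hp
  have h1 : ∀ᵐ q ∂(((Kernel.trajMeasure (X := fun _ : ℕ => Vtx d)
      (Measure.dirac (0 : Vtx d)) (pastKernel ℓ lam ω)).map
      (Preorder.frestrictLe (π := fun _ : ℕ => Vtx d) n)) ⊗ₘ (pastKernel ℓ lam ω n)), p q := by
    refine Measure.ae_compProd_of_ae_ae (MeasurableSet.of_discrete) ?_
    refine ae_of_all _ fun path => ?_
    exact ae_stepLaw' ℓ lam ω (path ⟨n, Finset.mem_Iic.2 le_rfl⟩)
  rw [h] at h1
  exact ae_of_ae_map (by fun_prop) h1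

lemma ae_start : ∀ᵐ X ∂(quenched ℓ lam ω), X 0 = 0 := by
  have h : ∀ᵐ x ∂(lawAt ℓ lam ω 0), x = 0 := by
    rw [lawAt_zero, ae_dirac_eq]
    rfl
  exact ae_of_ae_map (measurable_pi_apply 0).aemeasurable h

/-- The time `n` is a record: the level is larger than all earlier levels. -/
def IsRec (X : ℕ → Vtx d) (n : ℕ) : Prop := ∀ m < n, lev ℓ (X m) < lev ℓ (X n)

open Classical in
/-- The number of records at the times `1, …, N`. -/
noncomputable def cnt (X : ℕ → Vtx d) (N : ℕ) : ℕ :=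
  ((Finset.range N).filter fun n => IsRec ℓ X (n + 1)).card

lemma cnt_succ (X : ℕ → Vtx d) (N : ℕ) : cnt ℓ X N ≤ cnt ℓ X (N + 1) := by
  classical
  unfold cnt
  exact Finset.card_le_card (Finset.filter_subset_filter _ (Finset.range_mono (Nat.le_succ N)))

lemma cnt_succ_of_rec {X : ℕ → Vtx d} {N : ℕ} (h : IsRec ℓ X (N + 1)) :
    cnt ℓ X (N + 1) = cnt ℓ X N + 1 := by
  classical
  unfold cnt
  rw [Finset.range_add_one, Finset.filter_insert, if_pos h, Finset.card_insert_of_notMem]
  simp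

lemma lev_le_cnt {X : ℕ → Vtx d} (h0 : X 0 = 0)
    (hstep : ∀ n, lev ℓ (X (n + 1)) ≤ lev ℓ (X n) + 1) (N : ℕ) :
    ∀ m ≤ N, lev ℓ (X m) ≤ cnt ℓ X N := by
  induction N with
  | zero =>
    intro m hm
    obtain rfl : m = 0 := by omega
    rw [h0, lev_zero]
    positivity
  | succ N ih =>
    intro m hm
    have hc := cnt_succ ℓ X N
    rcases Nat.lt_or_ge m (N + 1) with h | h
    · have := ih m (by omega)
      have h2 : (cnt ℓ X N : ℤ) ≤ cnt ℓ X (N + 1) := by exact_mod_cast hc
      omega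
    · obtain rfl : m = N + 1 := by omega
      by_cases hr : IsRec ℓ X (N + 1)
      · rw [cnt_succ_of_rec ℓ hr]
        have h1 := ih N le_rfl
        have h2 := hstep N
        push_cast
        omega
      · unfold IsRec at hr
        push Not at hr
        obtain ⟨m', hm', h1⟩ := hr
        have h2 := ih m' (by omega)
        have h3 : (cnt ℓ X N : ℤ) ≤ cnt ℓ X (N + 1) := by exact_mod_cast hc
        omega

lemma cnt_le_ncard {X : ℕ → Vtx d} {C : Set (Vtx d)} (hC : C.Finite) (hX : ∀ n, X n ∈ C)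
    (N : ℕ) : cnt ℓ X N ≤ C.ncard := by
  classical
  unfold cnt
  rw [Set.ncard_eq_toFinset_card C hC]
  refine Finset.card_le_card_of_injOn (fun n => X (n + 1)) (fun n _ => by simpa using hX (n + 1)) ?_
  intro m hm n hn hmn
  simp only at hmn
  have hm' := (Finset.mem_filter.1 (Finset.mem_coe.1 hm)).2
  have hn' := (Finset.mem_filter.1 (Finset.mem_coe.1 hn)).2
  rcases lt_trichotomy m n with h | h | h
  · have := hn' (m + 1) (by omega)
    rw [hmn] at this
    exact absurd this (lt_irrefl _)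
  · exact h
  · have := hm' (n + 1) (by omega)
    rw [hmn] at this
    exact absurd this (lt_irrefl _)

lemma cnt_le (X : ℕ → Vtx d) (N : ℕ) : cnt ℓ X N ≤ N := by
  classical
  unfold cnt
  exact (Finset.card_filter_le _ _).trans (by simp)

lemma measurableSet_rec (n : ℕ) : MeasurableSet {X : ℕ → Vtx d | IsRec ℓ X n} := by
  have : {X : ℕ → Vtx d | IsRec ℓ X n} =
      ⋂ m ∈ Finset.range n, {X : ℕ → Vtx d | lev ℓ (X m) < lev ℓ (X n)} := by
    ext X; simp [IsRec]
  rw [this]
  refine Finset.measurableSet_biInter _ fun m _ => ?_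
  have h1 : Measurable fun X : ℕ → Vtx d => (X m, X n) :=
    (measurable_pi_apply m).prodMk (measurable_pi_apply n)
  exact h1 (MeasurableSet.of_discrete (s := {q : Vtx d × Vtx d | lev ℓ q.1 < lev ℓ q.2}))

lemma sum_kp (n : ℕ) : ∑ z ∈ box d n, kp ℓ lam ω (lev ℓ z) n z =
    (quenched ℓ lam ω).real {X | IsRec ℓ X n} := by
  classical
  have h1 : ∀ z, kp ℓ lam ω (lev ℓ z) n z =
      (quenched ℓ lam ω).real ({X | IsRec ℓ X n} ∩ {X | X n = z}) := by
    intro z
    unfold kp
    rw [measureReal_def, measureReal_def, kil_apply]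
    congr 2
    ext X
    simp only [Set.mem_singleton_iff, Set.mem_ofPred_eq, Set.mem_inter_iff, IsRec]
    constructor
    · rintro ⟨h1, h2⟩
      rw [h2]
      exact ⟨h1, rfl⟩
    · rintro ⟨h1, h2⟩
      rw [h2] at h1
      exact ⟨h1, h2⟩
  rw [Finset.sum_congr rfl fun z _ => h1 z, ← measureReal_biUnion_finset]
  · rw [measureReal_def, measureReal_def]
    congr 1
    refine measure_congr ?_
    filter_upwards [ae_mem_box ℓ lam ω n] with X hX
    apply propext
    constructor
    · intro h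
      obtain ⟨z, hz, h2⟩ := Set.mem_iUnion₂.1 h
      exact h2.1
    · intro h
      exact Set.mem_iUnion₂.2 ⟨X n, hX, h, rfl⟩
  · intro a _ b _ hab
    refine Set.disjoint_left.2 fun X h1 h2 => hab ?_
    rw [← h1.2, ← h2.2]
  · intro z _
    have hm : MeasurableSet {X : ℕ → Vtx d | X n = z} :=
      (measurable_pi_apply n : Measurable fun X : ℕ → Vtx d => X n) (MeasurableSet.singleton z)
    exact (measurableSet_rec ℓ n).inter hm

lemma recSum_eq (N : ℕ) : recSum ℓ lam ω N = ∫ X, (cnt ℓ X N : ℝ) ∂(quenched ℓ lam ω) := by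
  classical
  have h1 : ∀ X : ℕ → Vtx d, (cnt ℓ X N : ℝ) =
      ∑ n ∈ Finset.range N, ({X | IsRec ℓ X (n + 1)} : Set (ℕ → Vtx d)).indicator
        (fun _ => (1 : ℝ)) X := by
    intro X
    unfold cnt
    rw [Finset.card_filter]
    push_cast
    refine Finset.sum_congr rfl fun n _ => ?_
    by_cases h : IsRec ℓ X (n + 1)
    · rw [if_pos h, Set.indicator_of_mem (by exact h)]
    · rw [if_neg h, Set.indicator_of_notMem (by exact h)]
  simp_rw [h1]
  rw [integral_finsetSum _ fun n _ => (integrable_const _).indicator (measurableSet_rec ℓ _)]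
  unfold recSum
  refine Finset.sum_congr rfl fun n _ => ?_
  rw [sum_kp, integral_indicator_const _ (measurableSet_rec ℓ _), smul_eq_mul, mul_one]

lemma measurable_cnt (N : ℕ) : Measurable fun X : ℕ → Vtx d => (cnt ℓ X N : ℝ) := by
  classical
  have h1 : (fun X : ℕ → Vtx d => (cnt ℓ X N : ℝ)) = fun X =>
      ∑ n ∈ Finset.range N, ({X | IsRec ℓ X (n + 1)} : Set (ℕ → Vtx d)).indicator
        (fun _ => (1 : ℝ)) X := by
    funext X
    unfold cnt
    rw [Finset.card_filter]
    push_cast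
    refine Finset.sum_congr rfl fun n _ => ?_
    by_cases h : IsRec ℓ X (n + 1)
    · rw [if_pos h, Set.indicator_of_mem (by exact h)]
    · rw [if_neg h, Set.indicator_of_notMem (by exact h)]
  rw [h1]
  exact Finset.measurable_sum _ fun n _ => measurable_const.indicator (measurableSet_rec ℓ _)

lemma integrable_cnt (N : ℕ) :
    Integrable (fun X => (cnt ℓ X N : ℝ)) (quenched ℓ lam ω) := by
  refine Integrable.of_bound (C := N) (measurable_cnt ℓ N).aestronglyMeasurable ?_
  refine ae_of_all _ fun X => ?_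
  rw [Real.norm_eq_abs, abs_of_nonneg (Nat.cast_nonneg _)]
  exact_mod_cast cnt_le ℓ X N

/-- The expected number of records dominates the expected level. -/
lemma integral_lev_le (N : ℕ) :
    ∫ x, (lev ℓ x : ℝ) ∂(lawAt ℓ lam ω N) ≤ recSum ℓ lam ω N := by
  rw [recSum_eq]
  have h1 : ∫ x, (lev ℓ x : ℝ) ∂(lawAt ℓ lam ω N) =
      ∫ X, (lev ℓ (X N) : ℝ) ∂(quenched ℓ lam ω) := by
    unfold lawAt
    rw [integral_map (measurable_pi_apply N).aemeasurable
      (measurable_of_countable _).aestronglyMeasurable]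
  rw [h1]
  refine integral_mono_ae ?_ (integrable_cnt ..) ?_
  · have h2 := integrable_lawAt ℓ lam ω N (fun x => (lev ℓ x : ℝ))
    unfold lawAt at h2
    exact (integrable_map_measure (f := fun X : ℕ → Vtx d => X N)
      (g := fun x => (lev ℓ x : ℝ)) (measurable_of_countable _).aestronglyMeasurable
      (measurable_pi_apply N).aemeasurable).1 h2
  · filter_upwards [ae_step ℓ lam ω, ae_start ℓ lam ω] with X hX h0
    have h3 : ∀ n, lev ℓ (X (n + 1)) ≤ lev ℓ (X n) + 1 := by
      intro n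
      rcases hX n with h | ⟨D, -, h⟩
      · rw [h]; omega
      · rw [h]
        rcases lev_nbr ℓ (X n) D with h' | h' <;> omega
    exact_mod_cast lev_le_cnt ℓ h0 h3 N N le_rfl

lemma recSum_le (N : ℕ) : recSum ℓ lam ω N ≤ N := by
  rw [recSum_eq]
  have h1 : ∫ _, (N : ℝ) ∂(quenched ℓ lam ω) = N := by simp
  rw [← h1]
  refine integral_mono (integrable_cnt ..) (integrable_const _) fun X => ?_
  exact Nat.cast_le.2 (cnt_le ℓ X N)

lemma recSum_nonneg (N : ℕ) : 0 ≤ recSum ℓ lam ω N :=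
  (recUnb_nonneg ..).trans (recUnb_le_recSum ..)

lemma adj_of_edgeTo {x : Vtx d} {D : Fin d × Bool} (h : edgeTo x D ∈ ω) :
    (openGraph ω).Adj x (nbr x D) := by
  obtain ⟨j, b⟩ := D
  have hne : (basisVec j : Vtx d) ≠ 0 := by
    intro h0
    have := congrFun h0 j
    simp [basisVec] at this
  unfold openGraph
  rw [SimpleGraph.fromRel_adj]
  cases b
  · simp only [edgeTo, nbr, Bool.false_eq_true, if_false] at h ⊢
    refine ⟨fun h1 => hne ?_, Or.inr ⟨j, h, by simp⟩⟩
    have := sub_eq_self.1 h1.symm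
    exact this
  · simp only [edgeTo, nbr, if_true] at h ⊢
    refine ⟨fun h1 => hne ?_, Or.inl ⟨j, h, rfl⟩⟩
    exact add_eq_left.1 h1.symm

/-- In an environment where the cluster of `0` is finite, the number of records is bounded. -/
lemma recSum_le_ncard (hfin : {x | (openGraph ω).Reachable 0 x}.Finite) (N : ℕ) :
    recSum ℓ lam ω N ≤ ({x | (openGraph ω).Reachable 0 x}.ncard : ℝ) := by
  rw [recSum_eq]
  have h1 : ∫ _, ({x | (openGraph ω).Reachable 0 x}.ncard : ℝ) ∂(quenched ℓ lam ω) =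
      ({x | (openGraph ω).Reachable 0 x}.ncard : ℝ) := by simp
  rw [← h1]
  refine integral_mono_ae (integrable_cnt ..) (integrable_const _) ?_
  filter_upwards [ae_step ℓ lam ω, ae_start ℓ lam ω] with X hX h0
  have h3 : ∀ n, X n ∈ {x | (openGraph ω).Reachable 0 x} := by
    intro n
    induction n with
    | zero => rw [h0]; exact SimpleGraph.Reachable.refl _
    | succ n ih =>
      rcases hX n with h | ⟨D, hD, h⟩
      · rw [h]; exact ih
      · rw [h]
        exact SimpleGraph.Reachable.trans ih (adj_of_edgeTo ω hD).reachable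
  exact_mod_cast cnt_le_ncard ℓ hfin h3 N

end Pool.Agent.P2ec0f3
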