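import Pool.Agent.Lib.P2ec0f3.Limit

/-!
# The entropy production at unbalanced vertices
-/

open MeasureTheory ProbabilityTheory Filter Topology Function
open scoped unitInterval

namespace Pool.Agent.P2ec0f3

/-- The entropy production of an edge. -/
noncomputable def prodn (a u v : ℝ) : ℝ :=
  (a * u - a⁻¹ * v) * (Real.log u - Real.log v) - (a - a⁻¹) * (u - v)

lemma prodn_nonneg {a u v : ℝ} (ha : 0 < a) (hu : 0 < u) (hv : 0 < v) : 0 ≤ prodn a u v := by
  unfold prodn
  linarith [entropy_ineq ha hu hv]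

lemma sq_le_mul_log {u v : ℝ} (hu : 0 < u) (hv : 0 < v) :
    (u - v) ^ 2 ≤ max u v * ((u - v) * (Real.log u - Real.log v)) := by
  rcases le_total u v with h | h
  · rw [max_eq_right h]
    have h1 := log_ineq hv hu
    have h2 : 0 ≤ v - u := by linarith
    nlinarith
  · rw [max_eq_left h]
    have h1 := log_ineq hu hv
    have h2 : 0 ≤ u - v := by linarith
    nlinarith

lemma prodn_ge {a u v t : ℝ} (ha : t ≤ a) (ha' : t ≤ a⁻¹) (hu : 0 < u)
    (hv : 0 < v) : t * ((u - v) * (Real.log u - Real.log v)) ≤ prodn a u v := by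
  have h1 := log_ineq hu hv
  have h2 := log_ineq hv hu
  have e : prodn a u v = a * (u * (Real.log u - Real.log v) - (u - v))
      + a⁻¹ * (v * (Real.log v - Real.log u) - (v - u)) := by
    unfold prodn; ring
  rw [e]
  have h3 : t * (u * (Real.log u - Real.log v) - (u - v)) ≤
      a * (u * (Real.log u - Real.log v) - (u - v)) :=
    mul_le_mul_of_nonneg_right ha (by linarith)
  have h4 : t * (v * (Real.log v - Real.log u) - (v - u)) ≤
      a⁻¹ * (v * (Real.log v - Real.log u) - (v - u)) :=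
    mul_le_mul_of_nonneg_right ha' (by linarith)
  nlinarith

/-- The variation along an edge is controlled by the entropy production. -/
lemma abs_sub_le {a u v t η : ℝ} (ha : t ≤ a) (ha' : t ≤ a⁻¹) (ht : 0 < t) (hu : 0 < u)
    (hv : 0 < v) (hη : 0 < η) (hη' : η ≤ 1 / 2) :
    |u - v| ≤ 2 * η * u + (2 * η * t)⁻¹ * prodn a u v ∧
    |u - v| ≤ 2 * η * v + (2 * η * t)⁻¹ * prodn a u v := by
  set M := max u v with hM
  have hM0 : 0 < M := lt_of_lt_of_le hu (le_max_left _ _)
  set D := prodn a u v with hD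
  have h1 := sq_le_mul_log hu hv
  have h2 := prodn_ge ha ha' hu hv
  -- `(u - v)^2 * t ≤ M * D`
  have h3 : (u - v) ^ 2 * t ≤ M * D := by
    calc (u - v) ^ 2 * t ≤ (M * ((u - v) * (Real.log u - Real.log v))) * t :=
          mul_le_mul_of_nonneg_right h1 ht.le
      _ = M * (t * ((u - v) * (Real.log u - Real.log v))) := by ring
      _ ≤ M * D := mul_le_mul_of_nonneg_left h2 hM0.le
  -- `|u - v| ≤ η M + D / (4 η t)`
  have h4 : |u - v| ≤ η * M + (4 * η * t)⁻¹ * D := by
    have h5 : 0 ≤ (|u - v| - 2 * η * M) ^ 2 := sq_nonneg _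
    have h6 : 4 * η * M * |u - v| ≤ (u - v) ^ 2 + 4 * η ^ 2 * M ^ 2 := by
      have : |u - v| ^ 2 = (u - v) ^ 2 := sq_abs _
      nlinarith
    have h7 : 4 * η * M * |u - v| * t ≤ M * D + 4 * η ^ 2 * M ^ 2 * t := by nlinarith
    have h8 : |u - v| * (4 * η * t) ≤ D + 4 * η ^ 2 * M * t := by
      have h9 : M * (|u - v| * (4 * η * t)) ≤ M * (D + 4 * η ^ 2 * M * t) := by nlinarith
      exact le_of_mul_le_mul_left h9 hM0
    have hpos : 0 < 4 * η * t := by positivity
    have h10 : |u - v| ≤ (D + 4 * η ^ 2 * M * t) / (4 * η * t) := by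
      rwa [le_div_iff₀ hpos]
    refine h10.trans (le_of_eq ?_)
    field_simp
    ring
  have hMu : M ≤ u + |u - v| := by
    rw [hM]
    refine max_le (by linarith [abs_nonneg (u - v)]) ?_
    linarith [neg_abs_le (u - v)]
  have hMv : M ≤ v + |u - v| := by
    rw [hM]
    refine max_le ?_ (by linarith [abs_nonneg (u - v)])
    linarith [le_abs_self (u - v)]
  have h11 : (4 * η * t)⁻¹ * D * 2 = (2 * η * t)⁻¹ * D := by
    field_simp
    ring
  constructor
  · have : η * M ≤ η * (u + |u - v|) := mul_le_mul_of_nonneg_left hMu hη.le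
    have h12 : η * |u - v| ≤ 1 / 2 * |u - v| := mul_le_mul_of_nonneg_right hη' (abs_nonneg _)
    linarith
  · have : η * M ≤ η * (v + |u - v|) := mul_le_mul_of_nonneg_left hMv hη.le
    have h12 : η * |u - v| ≤ 1 / 2 * |u - v| := mul_le_mul_of_nonneg_right hη' (abs_nonneg _)
    linarith

variable {d : ℕ} (ℓ : Fin d → ℝ) (lam : ℝ) (ω : Set (Edge d))

/-- The total entropy production up to time `N`. -/
noncomputable def totalProd (N : ℕ) (e : ℝ) : ℝ :=
  ∑ j, ∑ x ∈ box d (N + 1), openInd ω x j *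
    prodn (av ℓ lam j) (psi ℓ lam ω N x + e) (psi ℓ lam ω N (x + basisVec j) + e)

/-- The entropy inequality summed over the edges, with the production. -/
lemma entropy_sum' (N : ℕ) {e : ℝ} (he : 0 < e) :
    ∑ j, cv ℓ lam j * ∑' x, openInd ω x j * (psi ℓ lam ω N x - psi ℓ lam ω N (x + basisVec j))
      + totalProd ℓ lam ω N e ≤
      Real.log ((N / minWeight ℓ lam + e) / e)
        * (1 + e * (∑ j, |cv ℓ lam j|) * (box d (N + 1)).card) := by
  classical
  set L : Vtx d → ℝ := fun x => Real.log (psi ℓ lam ω N x + e) with hL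
  set M : ℝ := N / minWeight ℓ lam with hM
  have hM0 : 0 ≤ M := div_nonneg (Nat.cast_nonneg _) (minWeight_pos ℓ lam).le
  set R : ℝ := Real.log ((M + e) / e) with hR
  have hR' : R = Real.log (M + e) - Real.log e := by
    rw [hR, Real.log_div (by positivity) he.ne']
  have hLlow : ∀ x, Real.log e ≤ L x := fun x => by
    apply Real.log_le_log he
    linarith [psi_nonneg ℓ lam ω N x]
  have hLup : ∀ x, L x ≤ Real.log (M + e) := fun x => by
    apply Real.log_le_log
    · linarith [psi_nonneg ℓ lam ω N x]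
    · linarith [psi_le ℓ lam ω N x]
  have hLdiff : ∀ x y, |L x - L y| ≤ R := fun x y => by
    rw [abs_le, hR']
    constructor <;> linarith [hLlow x, hLup x, hLlow y, hLup y]
  have hR0 : 0 ≤ R := le_trans (abs_nonneg _) (hLdiff 0 0)
  have hflow := integral_lawAt_eq ℓ lam ω N L
  have hlow : Real.log e ≤ ∫ x, L x ∂(lawAt ℓ lam ω N) := by
    have h1 : ∫ _, Real.log e ∂(lawAt ℓ lam ω N) = Real.log e := by simp
    rw [← h1]
    exact integral_mono (integrable_const _) (integrable_lawAt ℓ lam ω N L) hLlow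
  have hout : ∀ (j : Fin d) (x : Vtx d), x ∉ box d (N + 1) →
      psi ℓ lam ω N x = 0 ∧ psi ℓ lam ω N (x + basisVec j) = 0 := fun j x hx =>
    ⟨psi_eq_zero ℓ lam ω fun h => hx (box_mono (Nat.le_succ N) h),
      psi_eq_zero ℓ lam ω (add_basisVec_notMem_box hx j)⟩
  have key : ∀ j, cv ℓ lam j * ∑' x, openInd ω x j *
        (psi ℓ lam ω N x - psi ℓ lam ω N (x + basisVec j)) +
        ∑ x ∈ box d (N + 1), openInd ω x j *
          prodn (av ℓ lam j) (psi ℓ lam ω N x + e) (psi ℓ lam ω N (x + basisVec j) + e) ≤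
      - ∑' x, openInd ω x j * (av ℓ lam j * psi ℓ lam ω N x
        - (av ℓ lam j)⁻¹ * psi ℓ lam ω N (x + basisVec j)) * (L (x + basisVec j) - L x)
      + e * |cv ℓ lam j| * (box d (N + 1)).card * R := by
    intro j
    rw [tsum_eq_sum (s := box d (N + 1)) fun x hx => by simp [hout j x hx],
      tsum_eq_sum (s := box d (N + 1)) fun x hx => by simp [hout j x hx],
      Finset.mul_sum, ← Finset.sum_neg_distrib, ← Finset.sum_add_distrib]
    have hc : e * |cv ℓ lam j| * (box d (N + 1)).card * R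
        = ∑ _x ∈ box d (N + 1), e * |cv ℓ lam j| * R := by
      rw [Finset.sum_const, nsmul_eq_mul]; ring
    rw [hc, ← Finset.sum_add_distrib]
    refine Finset.sum_le_sum fun x _ => ?_
    have hd := hLdiff x (x + basisVec j)
    have habs : cv ℓ lam j * (L x - L (x + basisVec j)) ≤ |cv ℓ lam j| * R := by
      calc cv ℓ lam j * (L x - L (x + basisVec j)) ≤ |cv ℓ lam j * (L x - L (x + basisVec j))| :=
            le_abs_self _
        _ = |cv ℓ lam j| * |L x - L (x + basisVec j)| := abs_mul _ _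
        _ ≤ |cv ℓ lam j| * R := mul_le_mul_of_nonneg_left hd (abs_nonneg _)
    have habs' := mul_le_mul_of_nonneg_left habs he.le
    have hent' : cv ℓ lam j * (psi ℓ lam ω N x - psi ℓ lam ω N (x + basisVec j)) +
        prodn (av ℓ lam j) (psi ℓ lam ω N x + e) (psi ℓ lam ω N (x + basisVec j) + e) =
        (av ℓ lam j * psi ℓ lam ω N x - (av ℓ lam j)⁻¹ * psi ℓ lam ω N (x + basisVec j))
          * (L x - L (x + basisVec j)) + e * (cv ℓ lam j * (L x - L (x + basisVec j))) := by
      unfold cv prodn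
      simp only [hL]
      ring
    rcases openInd_eq ω x j with h | h
    · rw [h]
      have : 0 ≤ e * |cv ℓ lam j| * R := by positivity
      simpa using this
    · rw [h]
      have h3 : e * (cv ℓ lam j * (L x - L (x + basisVec j))) ≤ e * |cv ℓ lam j| * R := by
        rw [mul_assoc]; exact habs'
      linarith
  unfold totalProd
  rw [← Finset.sum_add_distrib]
  calc ∑ j, (cv ℓ lam j * ∑' x, openInd ω x j *
        (psi ℓ lam ω N x - psi ℓ lam ω N (x + basisVec j)) +
        ∑ x ∈ box d (N + 1), openInd ω x j *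
          prodn (av ℓ lam j) (psi ℓ lam ω N x + e) (psi ℓ lam ω N (x + basisVec j) + e))
      ≤ ∑ j, (- ∑' x, openInd ω x j * (av ℓ lam j * psi ℓ lam ω N x
        - (av ℓ lam j)⁻¹ * psi ℓ lam ω N (x + basisVec j)) * (L (x + basisVec j) - L x)
      + e * |cv ℓ lam j| * (box d (N + 1)).card * R) := Finset.sum_le_sum fun j _ => key j
    _ = (L 0 - ∫ x, L x ∂(lawAt ℓ lam ω N))
        + e * (∑ j, |cv ℓ lam j|) * (box d (N + 1)).card * R := by
      rw [Finset.sum_add_distrib, Finset.sum_neg_distrib, hflow, Finset.mul_sum, Finset.sum_mul,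
        Finset.sum_mul]
      ring
    _ ≤ R + e * (∑ j, |cv ℓ lam j|) * (box d (N + 1)).card * R := by
      rw [hR'] at *
      linarith [hLup 0]
    _ = R * (1 + e * (∑ j, |cv ℓ lam j|) * (box d (N + 1)).card) := by ring

end Pool.Agent.P2ec0f3
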