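import Pool.Agent.Lib.P2ec0f3.Balance

/-!
# The quenched bound with the number of visits to unbalanced vertices
-/

open MeasureTheory ProbabilityTheory Filter Topology Function
open scoped unitInterval

namespace Pool.Agent.P2ec0f3

variable {d : ℕ} (ℓ : Fin d → ℝ) (lam : ℝ) (ω : Set (Edge d))

/-- The expected number of visits to unbalanced vertices before time `N`. -/
noncomputable def visits (N : ℕ) : ℝ := ∑' x, unb ℓ ω x * occ ℓ lam ω N x

lemma unb_of_total_eq_zero {x : Vtx d} (h : total ℓ lam ω x = 0) : unb ℓ ω x = 0 := by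
  classical
  have h1 : ∀ D, weight ℓ lam ω x D = 0 := by
    intro D
    exact (Finset.sum_eq_zero_iff_of_nonneg fun D _ => weight_nonneg ℓ lam ω x D).1 h D
      (Finset.mem_univ D)
  have h2 : ∀ j, openZ ω x j = 0 := by
    intro j
    have := h1 (j, true)
    rw [weight_up, mul_eq_zero] at this
    rcases this with h | h
    · rw [← openZ_cast] at h
      exact_mod_cast h
    · exact absurd h (av_pos ℓ lam j).ne'
  have h3 : ∀ j, openZ ω (x - basisVec j) j = 0 := by
    intro j
    have := h1 (j, false)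
    rw [weight_down, mul_eq_zero] at this
    rcases this with h | h
    · rw [← openZ_cast] at h
      exact_mod_cast h
    · exact absurd h (inv_pos.2 (av_pos ℓ lam j)).ne'
  unfold unb beta
  simp [h2, h3]

lemma total_le {δ : ℝ} (hδ : 0 < δ) (hlam : 0 < lam) (hℓ : ∀ j, |ℓ j| = δ) (x : Vtx d) :
    total ℓ lam ω x ≤ 2 * d * Real.exp (lam * δ) := by
  unfold total
  rw [Fintype.sum_prod_type]
  have h : ∀ j, ∑ b, weight ℓ lam ω x (j, b) ≤ 2 * Real.exp (lam * δ) := by
    intro j
    rw [Fintype.sum_bool, weight_up, weight_down]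
    obtain ⟨b1, b2, -, -⟩ := av_bounds ℓ lam hδ hlam hℓ j
    have h1 : openInd ω x j * av ℓ lam j ≤ 1 * Real.exp (lam * δ) :=
      mul_le_mul (openInd_le_one ..) b1 (av_pos ..).le zero_le_one
    have h2 : openInd ω (x - basisVec j) j * (av ℓ lam j)⁻¹ ≤ 1 * Real.exp (lam * δ) :=
      mul_le_mul (openInd_le_one ..) b2 (inv_pos.2 (av_pos ..)).le zero_le_one
    linarith
  refine (Finset.sum_le_sum fun j _ => h j).trans (le_of_eq ?_)
  rw [Finset.sum_const, Finset.card_univ, Fintype.card_fin, nsmul_eq_mul]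
  ring

lemma visits_le {δ : ℝ} (hδ : 0 < δ) (hlam : 0 < lam) (hℓ : ∀ j, |ℓ j| = δ) (N : ℕ) :
    visits ℓ lam ω N ≤ 2 * d * Real.exp (lam * δ) * unbPsi ℓ lam ω N := by
  unfold visits unbPsi
  rw [← tsum_mul_left]
  refine Summable.tsum_le_tsum (fun x => ?_) ?_ ?_
  · by_cases h : total ℓ lam ω x = 0
    · rw [unb_of_total_eq_zero ℓ lam ω h]; simp
    · have h1 : occ ℓ lam ω N x = total ℓ lam ω x * psi ℓ lam ω N x := by
        unfold psi; field_simp
      rw [h1]
      have h2 := total_le ℓ lam ω hδ hlam hℓ x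
      have h3 : 0 ≤ unb ℓ ω x * psi ℓ lam ω N x := mul_nonneg (unb_nonneg ..) (psi_nonneg ..)
      have := mul_le_mul_of_nonneg_right h2 h3
      linarith
  · exact summable_of_hasFiniteSupport (hasFiniteSupport_of_mul
      (hasFiniteSupport_occ ℓ lam ω N) fun x hx => by simp [hx])
  · exact summable_of_hasFiniteSupport (hasFiniteSupport_of_mul
      (hasFiniteSupport_psi ℓ lam ω N) fun x hx => by simp [hx])

lemma height_identity {δ : ℝ} (hδ : 0 < δ) (hlam : 0 < lam) (hℓ : ∀ j, |ℓ j| = δ) (N : ℕ) :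
    ∫ x, height ℓ x ∂(lawAt ℓ lam ω N) - fullSpeed lam δ *
      (∑ j, ∑' x, openInd ω x j * (av ℓ lam j * psi ℓ lam ω N x
        + (av ℓ lam j)⁻¹ * psi ℓ lam ω N (x + basisVec j))) =
      multiplier lam δ * ∑ j, cv ℓ lam j * ∑' x, openInd ω x j *
        (psi ℓ lam ω N x - psi ℓ lam ω N (x + basisVec j)) := by
  have h1 := integral_lawAt_eq ℓ lam ω N (height ℓ)
  have hf : HasFiniteSupport (psi ℓ lam ω N) := hasFiniteSupport_psi ℓ lam ω N
  have hf' : ∀ j, HasFiniteSupport (fun x => psi ℓ lam ω N (x + basisVec j)) := fun j =>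
    hasFiniteSupport_shift hf _
  have hS : ∀ j (a b : ℝ), Summable fun x =>
      openInd ω x j * (a * psi ℓ lam ω N x + b * psi ℓ lam ω N (x + basisVec j)) := by
    intro j a b
    apply summable_of_hasFiniteSupport
    refine Set.Finite.subset (Set.Finite.union hf (hf' j)) fun x hx => ?_
    by_contra hcon
    rw [Set.mem_union, not_or] at hcon
    have e1 : psi ℓ lam ω N x = 0 := by simpa using hcon.1
    have e2 : psi ℓ lam ω N (x + basisVec j) = 0 := by simpa using hcon.2
    apply hx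
    simp [e1, e2]
  rw [h1, height_zero, zero_add, Finset.mul_sum, Finset.mul_sum, ← Finset.sum_sub_distrib]
  refine Finset.sum_congr rfl fun j _ => ?_
  simp_rw [height_add]
  rw [← tsum_mul_left, ← tsum_mul_left, ← tsum_mul_left, ← Summable.tsum_sub]
  · refine tsum_congr fun x => ?_
    have := edge_id ℓ lam hδ hlam hℓ j (psi ℓ lam ω N x) (psi ℓ lam ω N (x + basisVec j))
    have e : openInd ω x j * (av ℓ lam j * psi ℓ lam ω N x
        - (av ℓ lam j)⁻¹ * psi ℓ lam ω N (x + basisVec j)) * ℓ j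
        - fullSpeed lam δ * (openInd ω x j * (av ℓ lam j * psi ℓ lam ω N x
          + (av ℓ lam j)⁻¹ * psi ℓ lam ω N (x + basisVec j)))
        = openInd ω x j * (ℓ j * (av ℓ lam j * psi ℓ lam ω N x
          - (av ℓ lam j)⁻¹ * psi ℓ lam ω N (x + basisVec j))
          - fullSpeed lam δ * (av ℓ lam j * psi ℓ lam ω N x
          + (av ℓ lam j)⁻¹ * psi ℓ lam ω N (x + basisVec j))) := by ring
    rw [e, this]
    ring
  · have := (hS j (av ℓ lam j) (-(av ℓ lam j)⁻¹)).mul_right (ℓ j)
    refine this.congr fun x => ?_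
    ring
  · exact (hS j _ _).mul_left _

/-- The quenched bound, with constants that do not depend on the environment. -/
theorem quenched_bound (hd : 0 < d) {δ : ℝ} (hδ : 0 < δ) (hlam : 0 < lam)
    (hℓ : ∀ j, |ℓ j| = δ) :
    ∃ κ > 0, ∃ C : ℝ, ∀ (ω : Set (Edge d)) (N : ℕ),
      ∫ x, height ℓ x ∂(lawAt ℓ lam ω N) + κ * visits ℓ lam ω N ≤
        fullSpeed lam δ * N + multiplier lam δ * errBound ℓ lam N + C := by
  set A := Real.exp (lam * δ) with hA
  have hA0 : 0 < A := Real.exp_pos _
  have hA1 : 1 < A := Real.one_lt_exp_iff.2 (mul_pos hlam hδ)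
  have hAinv : A⁻¹ < 1 := inv_lt_one_of_one_lt₀ hA1
  set c := A - A⁻¹ with hc
  have hc0 : 0 < c := by rw [hc]; linarith
  have hd0 : (0 : ℝ) < d := by exact_mod_cast hd
  have hd1 : (1 : ℝ) ≤ d := by exact_mod_cast hd
  set η := c / (8 * d * A) with hη
  have hη0 : 0 < η := by positivity
  have hη1 : η ≤ 1 / 2 := by
    rw [hη, div_le_iff₀ (by positivity)]
    have : c ≤ A := by rw [hc]; linarith [inv_pos.2 hA0]
    nlinarith
  set K := A * (η * A⁻¹)⁻¹ with hK
  have hK0 : 0 < K := by positivity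
  have hμ : 0 < multiplier lam δ := by
    unfold multiplier
    rw [← hA]
    apply div_pos (by linarith)
    apply mul_pos (by positivity)
    linarith
  have hθ : 0 ≤ fullSpeed lam δ := by
    unfold fullSpeed
    rw [← hA]
    apply div_nonneg
    · apply mul_nonneg hδ.le; linarith
    · positivity
  refine ⟨multiplier lam δ * (c / 2) / (K * (2 * d * A)), by positivity,
    multiplier lam δ * (2 + c / 2) / K, fun ω N => ?_⟩
  have hcard : (0 : ℝ) < (box d (N + 1)).card := by
    rw [card_box]; positivity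
  set e : ℝ := ((box d (N + 1)).card : ℝ)⁻¹ with he
  have he0 : 0 < e := inv_pos.2 hcard
  have h1 := unbPsi_le ℓ lam ω hδ hlam hℓ N he0 hη0 hη1
  rw [← hA, ← hc] at h1
  have h2 : A * (4 * η * d * unbPsi ℓ lam ω N + 4 * η * e * d * (box d (N + 1)).card
        + (η * A⁻¹)⁻¹ * totalProd ℓ lam ω N e) =
      c / 2 * unbPsi ℓ lam ω N + c / 2 + K * totalProd ℓ lam ω N e := by
    have e1 : 4 * η * d * A = c / 2 := by
      rw [hη]; field_simp; ring
    have e2 : e * (box d (N + 1)).card = 1 := by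
      rw [he]; field_simp
    calc A * (4 * η * d * unbPsi ℓ lam ω N + 4 * η * e * d * (box d (N + 1)).card
        + (η * A⁻¹)⁻¹ * totalProd ℓ lam ω N e)
        = (4 * η * d * A) * unbPsi ℓ lam ω N
          + (4 * η * d * A) * (e * (box d (N + 1)).card)
          + A * (η * A⁻¹)⁻¹ * totalProd ℓ lam ω N e := by ring
      _ = _ := by rw [e1, e2, mul_one, ← hK]
  rw [h2] at h1
  have h3 : (c / 2 * unbPsi ℓ lam ω N - (2 + c / 2)) / K ≤ totalProd ℓ lam ω N e := by
    rw [div_le_iff₀ hK0]
    linarith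
  have h4 := visits_le ℓ lam ω hδ hlam hℓ N
  rw [← hA] at h4
  have h5 := entropy_sum' ℓ lam ω N he0
  have h6 : Real.log ((N / minWeight ℓ lam + e) / e)
        * (1 + e * (∑ j, |cv ℓ lam j|) * (box d (N + 1)).card) = errBound ℓ lam N := by
    unfold errBound
    have hcc : ((box d (N + 1)).card : ℝ) = (2 * N + 3) ^ d := by
      rw [card_box]
      push_cast
      congr 1
      ring
    have hcpos : (0 : ℝ) < (2 * N + 3) ^ d := by positivity
    rw [he, hcc]
    congr 2
    · field_simp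
    · field_simp
  rw [h6] at h5
  have h7 := height_identity ℓ lam ω hδ hlam hℓ N
  have h8 := mul_le_mul_of_nonneg_left (flow_le ℓ lam ω N) hθ
  have h9 := mul_le_mul_of_nonneg_left h5 hμ.le
  have h10 := mul_le_mul_of_nonneg_left h3 hμ.le
  have h11 : multiplier lam δ * (c / 2) / (K * (2 * d * A)) * visits ℓ lam ω N ≤
      multiplier lam δ * (c / 2) / K * unbPsi ℓ lam ω N := by
    calc multiplier lam δ * (c / 2) / (K * (2 * d * A)) * visits ℓ lam ω N
        ≤ multiplier lam δ * (c / 2) / (K * (2 * d * A)) *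
          (2 * d * A * unbPsi ℓ lam ω N) := mul_le_mul_of_nonneg_left h4 (by positivity)
      _ = _ := by field_simp
  have h12 : multiplier lam δ * ((c / 2 * unbPsi ℓ lam ω N - (2 + c / 2)) / K) =
      multiplier lam δ * (c / 2) / K * unbPsi ℓ lam ω N - multiplier lam δ * (2 + c / 2) / K := by
    ring
  rw [h12] at h10
  linarith

end Pool.Agent.P2ec0f3
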