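import Pool.Agent.Lib.P2ec0f3.UnbRec

/-!
# The expected number of records and of unbalanced records
-/

open MeasureTheory ProbabilityTheory Filter Topology Function
open scoped unitInterval ENNReal

namespace Pool.Agent.P2ec0f3

variable {d : ℕ} (ℓ : Fin d → ℝ) (lam : ℝ)

lemma weight_congr {ω ω' : Set (Edge d)} {x : Vtx d} {D : Fin d × Bool}
    (h : edgeTo x D ∈ ω ↔ edgeTo x D ∈ ω') : weight ℓ lam ω x D = weight ℓ lam ω' x D := by
  classical
  unfold weight
  by_cases h1 : edgeTo x D ∈ ω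
  · rw [if_pos h1, if_pos (h.1 h1)]
  · rw [if_neg h1, if_neg fun h2 => h1 (h.2 h2)]

lemma stepLaw_congr {ω ω' : Set (Edge d)} {x : Vtx d}
    (h : ∀ D, (edgeTo x D ∈ ω ↔ edgeTo x D ∈ ω')) : stepLaw ℓ lam ω x = stepLaw ℓ lam ω' x := by
  classical
  have h1 : ∀ D, weight ℓ lam ω x D = weight ℓ lam ω' x D := fun D => weight_congr ℓ lam (h D)
  have h2 : total ℓ lam ω x = total ℓ lam ω' x := Finset.sum_congr rfl fun D _ => h1 D
  unfold stepLaw
  rw [h2]
  simp_rw [h1]

lemma kil_congr {ω ω' : Set (Edge d)} (k : ℤ) (n : ℕ)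
    (h : ∀ x ∈ box d n, lev ℓ x < k → ∀ D, (edgeTo x D ∈ ω ↔ edgeTo x D ∈ ω')) (y : Vtx d) :
    kil ℓ lam ω k n {y} = kil ℓ lam ω' k n {y} := by
  induction n generalizing y with
  | zero => rw [kil_zero, kil_zero]
  | succ n ih =>
    have h' : ∀ x ∈ box d n, lev ℓ x < k → ∀ D, (edgeTo x D ∈ ω ↔ edgeTo x D ∈ ω') :=
      fun x hx => h x (box_mono (Nat.le_succ n) hx)
    rw [kil_succ, kil_succ]
    refine Finset.sum_congr rfl fun x hx => ?_
    split_ifs with hlev
    · rw [ih h' x, stepLaw_congr ℓ lam (h' x hx hlev)]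
    · rfl

open Classical in
/-- The edges incident to the vertices of level below `k` in the box. -/
noncomputable def touch (k : ℤ) (n : ℕ) : Finset (Edge d) :=
  (((box d n).filter fun x => lev ℓ x < k) ×ˢ (Finset.univ : Finset (Fin d × Bool))).image
    fun q => edgeTo q.1 q.2

lemma elev_touch {k : ℤ} {n : ℕ} {e : Edge d} (he : e ∈ touch ℓ k n) :
    elev ℓ e ≤ 2 * k - 1 := by
  classical
  unfold touch at he
  obtain ⟨⟨x, D⟩, hx, rfl⟩ := Finset.mem_image.1 he
  have h1 := (Finset.mem_filter.1 (Finset.mem_product.1 hx).1).2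
  have h2 := elev_edgeTo ℓ x D
  simp only at h1 ⊢
  omega

/-- The probability that `X_n = z` and all earlier levels are below `k`. -/
noncomputable def kp (ω : Set (Edge d)) (k : ℤ) (n : ℕ) (z : Vtx d) : ℝ :=
  (kil ℓ lam ω k n).real {z}

lemma kp_nonneg (ω : Set (Edge d)) (k : ℤ) (n : ℕ) (z : Vtx d) : 0 ≤ kp ℓ lam ω k n z :=
  measureReal_nonneg

lemma kp_depOn (k : ℤ) (n : ℕ) (z : Vtx d) :
    DepOn (touch ℓ k n) (fun ω => kp ℓ lam ω k n z) := by
  classical
  intro ω ω' h
  simp only [kp, measureReal_def]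
  rw [kil_congr ℓ lam k n (fun x hx hlev D => h _ ?_) z]
  unfold touch
  exact Finset.mem_image.2 ⟨(x, D), Finset.mem_product.2
    ⟨Finset.mem_filter.2 ⟨hx, hlev⟩, Finset.mem_univ _⟩, rfl⟩

lemma kp_le_pr (ω : Set (Edge d)) (k : ℤ) (n : ℕ) (z : Vtx d) :
    kp ℓ lam ω k n z ≤ pr ℓ lam ω n z := by
  unfold kp pr
  rw [measureReal_def, measureReal_def]
  exact ENNReal.toReal_mono (measure_ne_top _ _) (kil_le_lawAt ..)

lemma stepLaw_ne_zero {ω : Set (Edge d)} {x z : Vtx d} (h : stepLaw ℓ lam ω x {z} ≠ 0) :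
    z = x ∨ ∃ D, edgeTo x D ∈ ω ∧ z = nbr x D := by
  classical
  unfold stepLaw at h
  split_ifs at h with h0
  · left
    by_contra hne
    apply h
    rw [Measure.dirac_apply, Set.indicator_of_notMem]
    simpa using fun h' : x = z => hne h'.symm
  · right
    simp only [Measure.coe_finsetSum, Finset.sum_apply, Measure.smul_apply, smul_eq_mul] at h
    obtain ⟨D, -, hD⟩ := Finset.exists_ne_zero_of_sum_ne_zero h
    refine ⟨D, ?_, ?_⟩
    · by_contra hne
      apply hD
      have : weight ℓ lam ω x D = 0 := by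
        unfold weight
        rw [if_neg hne]
      rw [this]
      simp
    · by_contra hne
      apply hD
      rw [Measure.dirac_apply, Set.indicator_of_notMem, mul_zero]
      simpa using fun h' : nbr x D = z => hne h'.symm

lemma dnZ_ne_zero {ω : Set (Edge d)} {z : Vtx d} (j : Fin d) (h : dnEdge ℓ z j ∈ ω) :
    dnZ ℓ ω z ≠ 0 := by
  classical
  unfold dnZ
  have h1 : (0 : ℤ) < ∑ j, if dnEdge ℓ z j ∈ ω then 1 else 0 := by
    refine Finset.sum_pos' (fun i _ => by split_ifs <;> norm_num) ⟨j, Finset.mem_univ j, ?_⟩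
    rw [if_pos h]; norm_num
  omega

lemma kp_ne_zero {ω : Set (Edge d)} {n : ℕ} {z : Vtx d}
    (h : kp ℓ lam ω (lev ℓ z) (n + 1) z ≠ 0) : dnZ ℓ ω z ≠ 0 := by
  classical
  have h1 : kil ℓ lam ω (lev ℓ z) (n + 1) {z} ≠ 0 := by
    intro h0
    apply h
    unfold kp
    rw [measureReal_def, h0]
    rfl
  rw [kil_succ] at h1
  obtain ⟨x, -, hx⟩ := Finset.exists_ne_zero_of_sum_ne_zero h1
  split_ifs at hx with hlev
  · have h2 := right_ne_zero_of_mul hx
    rcases stepLaw_ne_zero ℓ lam h2 with h3 | ⟨⟨j, b⟩, hD, hz⟩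
    · rw [h3] at hlev; omega
    · apply dnZ_ne_zero ℓ j
      cases b
      · simp only [nbr, Bool.false_eq_true, if_false] at hz
        simp only [edgeTo, Bool.false_eq_true, if_false] at hD
        have h4 : ¬ 0 < ℓ j := by
          intro hpos
          have h5 : sg ℓ j = 1 := by simp [sg, hpos]
          rw [hz, lev_sub, h5] at hlev
          omega
        unfold dnEdge
        rw [if_neg h4, hz]
        exact hD
      · simp only [nbr, if_true] at hz
        simp only [edgeTo, if_true] at hD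
        have h4 : 0 < ℓ j := by
          by_contra hneg
          have h5 : sg ℓ j = -1 := by simp [sg, hneg]
          rw [hz, lev_add, h5] at hlev
          omega
        unfold dnEdge
        rw [if_pos h4, hz, add_sub_cancel_right]
        exact hD
  · exact absurd rfl hx

/-- The expected number of records at the times `1, …, N`. -/
noncomputable def recSum (ω : Set (Edge d)) (N : ℕ) : ℝ :=
  ∑ n ∈ Finset.range N, ∑ z ∈ box d (n + 1), kp ℓ lam ω (lev ℓ z) (n + 1) z

/-- The expected number of unbalanced records at the times `1, …, N`. -/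
noncomputable def recUnb (ω : Set (Edge d)) (N : ℕ) : ℝ :=
  ∑ n ∈ Finset.range N, ∑ z ∈ box d (n + 1), kp ℓ lam ω (lev ℓ z) (n + 1) z * unb ℓ ω z

lemma recUnb_le_recSum (ω : Set (Edge d)) (N : ℕ) : recUnb ℓ lam ω N ≤ recSum ℓ lam ω N :=
  Finset.sum_le_sum fun _ _ => Finset.sum_le_sum fun _ _ =>
    mul_le_of_le_one_right (kp_nonneg ..) (unb_le_one ..)

lemma recUnb_nonneg (ω : Set (Edge d)) (N : ℕ) : 0 ≤ recUnb ℓ lam ω N :=
  Finset.sum_nonneg fun _ _ => Finset.sum_nonneg fun _ _ =>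
    mul_nonneg (kp_nonneg ..) (unb_nonneg ..)

lemma recUnb_le_visits (ω : Set (Edge d)) (N : ℕ) :
    recUnb ℓ lam ω N ≤ visits ℓ lam ω (N + 1) := by
  unfold visits
  rw [tsum_eq_sum (s := box d (N + 1)) fun x hx => by rw [occ_eq_zero ℓ lam ω hx, mul_zero]]
  unfold occ
  simp_rw [Finset.mul_sum]
  rw [Finset.sum_comm, Finset.sum_range_succ']
  have h0 : 0 ≤ ∑ x ∈ box d (N + 1), unb ℓ ω x * pr ℓ lam ω 0 x :=
    Finset.sum_nonneg fun x _ => mul_nonneg (unb_nonneg ..) (pr_nonneg ..)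
  refine le_trans ?_ (le_add_of_nonneg_right h0)
  refine Finset.sum_le_sum fun n hn => ?_
  have hsub : box d (n + 1) ⊆ box d (N + 1) := box_mono (by
    have := Finset.mem_range.1 hn; omega)
  refine le_trans ?_ (Finset.sum_le_sum_of_subset_of_nonneg hsub fun x _ _ =>
    mul_nonneg (unb_nonneg ..) (pr_nonneg ..))
  refine Finset.sum_le_sum fun z _ => ?_
  rw [mul_comm]
  exact mul_le_mul_of_nonneg_left (kp_le_pr ..) (unb_nonneg ..)

lemma recSum_depOn (N : ℕ) : ∃ T, DepOn T (fun ω => recSum ℓ lam ω N) := by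
  classical
  refine ⟨(Finset.range N).biUnion fun n => (box d (n + 1)).biUnion fun z =>
    touch ℓ (lev ℓ z) (n + 1), fun ω ω' h => ?_⟩
  unfold recSum
  refine Finset.sum_congr rfl fun n hn => Finset.sum_congr rfl fun z hz => ?_
  exact kp_depOn ℓ lam (lev ℓ z) (n + 1) z ω ω' fun e he => h e
    (Finset.mem_biUnion.2 ⟨n, hn, Finset.mem_biUnion.2 ⟨z, hz, he⟩⟩)

lemma kp_unb_depOn (k : ℤ) (n : ℕ) (z : Vtx d) :
    DepOn (touch ℓ k n ∪ (upSet ℓ z ∪ dnSet ℓ z)) (fun ω => kp ℓ lam ω k n z * unb ℓ ω z) := by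
  intro ω ω' h
  have h1 := kp_depOn ℓ lam k n z ω ω' fun e he => h e (Finset.mem_union_left _ he)
  have h2 := unb_depOn ℓ z ω ω' fun e he => h e (Finset.mem_union_right _ he)
  simp only at h1 h2
  simp only [h1, h2]

/-- The annealed estimate: a fixed proportion of the records is unbalanced. -/
lemma integral_recUnb_ge (hd : 0 < d) (p : I) (N : ℕ) :
    (1 / 2) ^ d * (1 - (p : ℝ)) * ∫ ω, recSum ℓ lam ω N ∂(percolation d p) ≤
      ∫ ω, recUnb ℓ lam ω N ∂(percolation d p) := by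
  unfold recSum recUnb
  have i1 : ∀ n z, Integrable (fun ω => kp ℓ lam ω (lev ℓ z) (n + 1) z) (percolation d p) :=
    fun n z => (kp_depOn ℓ lam (lev ℓ z) (n + 1) z).integrable _
  have i2 : ∀ n z, Integrable (fun ω => kp ℓ lam ω (lev ℓ z) (n + 1) z * unb ℓ ω z)
      (percolation d p) :=
    fun n z => (kp_unb_depOn ℓ lam (lev ℓ z) (n + 1) z).integrable _
  rw [integral_finsetSum _ fun n _ => integrable_finsetSum _ fun z _ => i1 n z,
    integral_finsetSum _ fun n _ => integrable_finsetSum _ fun z _ => i2 n z, Finset.mul_sum]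
  refine Finset.sum_le_sum fun n _ => ?_
  rw [integral_finsetSum _ fun z _ => i1 n z, integral_finsetSum _ fun z _ => i2 n z,
    Finset.mul_sum]
  refine Finset.sum_le_sum fun z _ => ?_
  exact integral_unb_ge ℓ hd p z (kp_depOn ℓ lam (lev ℓ z) (n + 1) z) (fun ω => kp_nonneg ..)
    (fun e he => elev_touch ℓ he) fun ω hω => kp_ne_zero ℓ lam hω

end Pool.Agent.P2ec0f3
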