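import Pool.Agent.Lib.P2ec0f3.Quenched

/-!
# Record levels of the walk
-/

open MeasureTheory ProbabilityTheory Filter Topology Function
open scoped unitInterval ENNReal

namespace Pool.Agent.P2ec0f3

variable {d : ℕ} (ℓ : Fin d → ℝ) (lam : ℝ) (ω : Set (Edge d))

/-- The level of a vertex. -/
noncomputable def lev (x : Vtx d) : ℤ := ∑ j, sg ℓ j * x j

lemma height_eq {δ : ℝ} (hδ : 0 < δ) (hℓ : ∀ j, |ℓ j| = δ) (x : Vtx d) :
    height ℓ x = δ * lev ℓ x := by
  unfold height lev
  push_cast
  rw [Finset.mul_sum]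
  refine Finset.sum_congr rfl fun j _ => ?_
  have : ℓ j = δ * sg ℓ j := by
    unfold sg
    rcases (abs_eq hδ.le).1 (hℓ j) with h | h
    · rw [h, if_pos hδ]; simp
    · rw [h, if_neg (by linarith)]; simp
  rw [this]
  ring

lemma sg_eq (j : Fin d) : sg ℓ j = 1 ∨ sg ℓ j = -1 := by
  unfold sg; split_ifs <;> simp

lemma lev_add (x : Vtx d) (j : Fin d) : lev ℓ (x + basisVec j) = lev ℓ x + sg ℓ j := by
  unfold lev
  have : ∀ i, sg ℓ i * (x + basisVec j) i = sg ℓ i * x i + (if i = j then sg ℓ j else 0) := by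
    intro i
    by_cases h : i = j
    · subst h; simp [basisVec, mul_add]
    · simp [basisVec, h]
  rw [Finset.sum_congr rfl fun i _ => this i, Finset.sum_add_distrib]
  simp

lemma lev_sub (x : Vtx d) (j : Fin d) : lev ℓ (x - basisVec j) = lev ℓ x - sg ℓ j := by
  have := lev_add ℓ (x - basisVec j) j
  rw [sub_add_cancel] at this
  omega

lemma lev_zero : lev ℓ (0 : Vtx d) = 0 := by simp [lev]

lemma lev_nbr (x : Vtx d) (D : Fin d × Bool) :
    lev ℓ (nbr x D) = lev ℓ x + 1 ∨ lev ℓ (nbr x D) = lev ℓ x - 1 := by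
  obtain ⟨j, b⟩ := D
  cases b
  · simp only [nbr, Bool.false_eq_true, if_false, lev_sub]
    rcases sg_eq ℓ j with h | h <;> rw [h] <;> omega
  · simp only [nbr, if_true, lev_add]
    rcases sg_eq ℓ j with h | h <;> rw [h] <;> omega

/-- The event that all levels before time `n` are below `k`. -/
def belowSet (k : ℤ) (n : ℕ) : Set (ℕ → Vtx d) := {X | ∀ m < n, lev ℓ (X m) < k}

lemma measurableSet_belowSet (k : ℤ) (n : ℕ) : MeasurableSet (belowSet ℓ k n) := by
  have : belowSet ℓ k n = ⋂ m ∈ Finset.range n, (fun X : ℕ → Vtx d => X m) ⁻¹' {x | lev ℓ x < k} := by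
    ext X
    simp [belowSet]
  rw [this]
  refine Finset.measurableSet_biInter _ fun m _ => ?_
  exact (measurable_pi_apply m) (MeasurableSet.of_discrete)

/-- The law of `X_n` on the event that all earlier levels are below `k`. -/
noncomputable def kil (k : ℤ) (n : ℕ) : Measure (Vtx d) :=
  ((quenched ℓ lam ω).restrict (belowSet ℓ k n)).map (fun X => X n)

lemma kil_apply (k : ℤ) (n : ℕ) (s : Set (Vtx d)) :
    kil ℓ lam ω k n s = quenched ℓ lam ω {X | (∀ m < n, lev ℓ (X m) < k) ∧ X n ∈ s} := by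
  unfold kil
  rw [Measure.map_apply (measurable_pi_apply n) MeasurableSet.of_discrete,
    Measure.restrict_apply ((measurable_pi_apply n) MeasurableSet.of_discrete)]
  congr 1
  ext X
  simp [belowSet, and_comm]

lemma kil_le_lawAt (k : ℤ) (n : ℕ) (s : Set (Vtx d)) :
    kil ℓ lam ω k n s ≤ lawAt ℓ lam ω n s := by
  rw [kil_apply]
  unfold lawAt
  rw [Measure.map_apply (measurable_pi_apply n) MeasurableSet.of_discrete]
  exact measure_mono fun X hX => hX.2

lemma lawAt_singleton_eq_zero {n : ℕ} {x : Vtx d} (hx : x ∉ box d n) :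
    lawAt ℓ lam ω n {x} = 0 := by
  have h := pr_eq_zero ℓ lam ω hx
  unfold pr at h
  rwa [measureReal_eq_zero_iff] at h

lemma kil_eq_zero {k : ℤ} {n : ℕ} {x : Vtx d} (hx : x ∉ box d n) :
    kil ℓ lam ω k n {x} = 0 :=
  le_antisymm ((kil_le_lawAt ..).trans (lawAt_singleton_eq_zero ℓ lam ω hx).le) zero_le

lemma kil_zero (k : ℤ) : kil ℓ lam ω k 0 = Measure.dirac 0 := by
  rw [← lawAt_zero ℓ lam ω]
  unfold kil lawAt
  have : belowSet ℓ k 0 = (Set.univ : Set (ℕ → Vtx d)) := by
    ext X; simp [belowSet]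
  rw [this, Measure.restrict_univ]

/-- The Markov property on the event that all levels are below `k`. -/
lemma kil_succ (k : ℤ) (n : ℕ) (y : Vtx d) :
    kil ℓ lam ω k (n + 1) {y} =
      ∑ x ∈ box d n, if lev ℓ x < k then kil ℓ lam ω k n {x} * stepLaw ℓ lam ω x {y} else 0 := by
  classical
  set T := quenched ℓ lam ω with hT
  have h := Kernel.map_frestrictLe_trajMeasure_compProd_eq_map_trajMeasure
    (X := fun _ : ℕ => Vtx d) (κ := pastKernel ℓ lam ω) (μ₀ := Measure.dirac (0 : Vtx d)) (a := n)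
  set E : Set ((i : Finset.Iic n) → (fun _ : ℕ => Vtx d) i) := {path | ∀ i, lev ℓ (path i) < k}
    with hE
  have hEm : MeasurableSet E := MeasurableSet.of_discrete
  have h1 : kil ℓ lam ω k (n + 1) {y} =
      (T.map (fun x ↦ (Preorder.frestrictLe (π := fun _ : ℕ => Vtx d) n x, x (n + 1))))
        (E ×ˢ {y}) := by
    rw [kil_apply, Measure.map_apply (by fun_prop) (hEm.prod (MeasurableSet.singleton y))]
    congr 1
    ext X
    simp only [hE, Set.mem_ofPred_eq, Set.mem_singleton_iff, Set.mem_preimage, Set.mem_prod,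
      Preorder.frestrictLe_apply]
    constructor
    · rintro ⟨h1, h2⟩
      exact ⟨fun i => h1 i (by have := Finset.mem_Iic.1 i.2; omega), h2⟩
    · rintro ⟨h1, h2⟩
      exact ⟨fun m hm => h1 ⟨m, Finset.mem_Iic.2 (by omega)⟩, h2⟩
  rw [h1]
  change (Measure.map _ (Kernel.trajMeasure _ _)) _ = _
  rw [← h, Measure.compProd_apply_prod hEm (MeasurableSet.singleton y)]
  have h2 : ∫⁻ a in E, (pastKernel ℓ lam ω n) a {y}
      ∂(Kernel.trajMeasure (Measure.dirac (0 : Vtx d)) (pastKernel ℓ lam ω)).map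
        (Preorder.frestrictLe (π := fun _ : ℕ => Vtx d) n) =
      ∫⁻ X in belowSet ℓ k (n + 1), stepLaw ℓ lam ω (X n) {y} ∂T := by
    rw [← lintegral_indicator hEm, lintegral_map
      ((Kernel.measurable_coe _ (MeasurableSet.singleton y)).indicator hEm) (by fun_prop),
      ← lintegral_indicator (measurableSet_belowSet ..)]
    refine lintegral_congr fun X => ?_
    by_cases hX : X ∈ belowSet ℓ k (n + 1)
    · have hX' : (Preorder.frestrictLe (π := fun _ : ℕ => Vtx d) n X) ∈ E := by
        intro i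
        exact hX i (by have := Finset.mem_Iic.1 i.2; omega)
      rw [Set.indicator_of_mem hX, Set.indicator_of_mem hX']
      rfl
    · have hX' : (Preorder.frestrictLe (π := fun _ : ℕ => Vtx d) n X) ∉ E := by
        intro hcon
        apply hX
        intro m hm
        exact hcon ⟨m, Finset.mem_Iic.2 (by omega)⟩
      rw [Set.indicator_of_notMem hX, Set.indicator_of_notMem hX']
  rw [h2]
  have h3 : ∫⁻ X in belowSet ℓ k (n + 1), stepLaw ℓ lam ω (X n) {y} ∂T =
      ∫⁻ x, (if lev ℓ x < k then stepLaw ℓ lam ω x {y} else 0) ∂(kil ℓ lam ω k n) := by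
    unfold kil
    rw [lintegral_map (measurable_of_countable _) (measurable_pi_apply n),
      ← lintegral_indicator (measurableSet_belowSet ..),
      ← lintegral_indicator (measurableSet_belowSet ..)]
    refine lintegral_congr fun X => ?_
    by_cases hX : X ∈ belowSet ℓ k (n + 1)
    · have hX1 : X ∈ belowSet ℓ k n := fun m hm => hX m (by omega)
      have hX2 : lev ℓ (X n) < k := hX n (by omega)
      rw [Set.indicator_of_mem hX, Set.indicator_of_mem hX1, if_pos hX2]
    · rw [Set.indicator_of_notMem hX]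
      by_cases hX1 : X ∈ belowSet ℓ k n
      · rw [Set.indicator_of_mem hX1, if_neg]
        intro hX2
        apply hX
        intro m hm
        rcases Nat.lt_succ_iff_lt_or_eq.1 hm with h | h
        · exact hX1 m h
        · rw [h]; exact hX2
      · rw [Set.indicator_of_notMem hX1]
  rw [h3, lintegral_countable', tsum_eq_sum (s := box d n)]
  · refine Finset.sum_congr rfl fun x _ => ?_
    split_ifs
    · ring
    · simp
  · intro x hx
    rw [kil_eq_zero ℓ lam ω hx, mul_zero]

end Pool.Agent.P2ec0f3
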