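import Pool.Agent.Lib.P2ec0f3.Indep

/-!
# Unbalanced record vertices: the annealed estimate
-/

open MeasureTheory ProbabilityTheory Filter Topology Function
open scoped unitInterval ENNReal

namespace Pool.Agent.P2ec0f3

variable {d : ℕ} (ℓ : Fin d → ℝ) (lam : ℝ)

open Classical in
/-- The edge from `z` upwards in the coordinate `j`. -/
noncomputable def upEdge (z : Vtx d) (j : Fin d) : Edge d :=
  if 0 < ℓ j then (z, j) else (z - basisVec j, j)

open Classical in
/-- The edge from `z` downwards in the coordinate `j`. -/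
noncomputable def dnEdge (z : Vtx d) (j : Fin d) : Edge d :=
  if 0 < ℓ j then (z - basisVec j, j) else (z, j)

open Classical in
/-- The number of open edges upwards. -/
noncomputable def upZ (ω : Set (Edge d)) (z : Vtx d) : ℤ :=
  ∑ j, if upEdge ℓ z j ∈ ω then 1 else 0

open Classical in
/-- The number of open edges downwards. -/
noncomputable def dnZ (ω : Set (Edge d)) (z : Vtx d) : ℤ :=
  ∑ j, if dnEdge ℓ z j ∈ ω then 1 else 0

lemma beta_eq (ω : Set (Edge d)) (z : Vtx d) : beta ℓ ω z = upZ ℓ ω z - dnZ ℓ ω z := by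
  classical
  unfold beta upZ dnZ
  rw [← Finset.sum_sub_distrib]
  refine Finset.sum_congr rfl fun j _ => ?_
  unfold sg openZ upEdge dnEdge
  by_cases h : 0 < ℓ j
  · simp only [h, if_true]
    ring
  · simp only [h, if_false]
    ring

/-- Twice the mean level of an edge. -/
noncomputable def elev (e : Edge d) : ℤ := 2 * lev ℓ e.1 + sg ℓ e.2

lemma elev_upEdge (z : Vtx d) (j : Fin d) : elev ℓ (upEdge ℓ z j) = 2 * lev ℓ z + 1 := by
  unfold elev upEdge
  by_cases h : 0 < ℓ j
  · simp only [h, if_true]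
    have : sg ℓ j = 1 := by simp [sg, h]
    rw [this]
  · simp only [h, if_false]
    have : sg ℓ j = -1 := by simp [sg, h]
    rw [lev_sub, this]
    ring

lemma elev_dnEdge (z : Vtx d) (j : Fin d) : elev ℓ (dnEdge ℓ z j) = 2 * lev ℓ z - 1 := by
  unfold elev dnEdge
  by_cases h : 0 < ℓ j
  · simp only [h, if_true]
    have : sg ℓ j = 1 := by simp [sg, h]
    rw [lev_sub, this]
    ring
  · simp only [h, if_false]
    have : sg ℓ j = -1 := by simp [sg, h]
    rw [this]
    ring

lemma elev_edgeTo (x : Vtx d) (D : Fin d × Bool) : elev ℓ (edgeTo x D) ≤ 2 * lev ℓ x + 1 := by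
  obtain ⟨j, b⟩ := D
  cases b
  · simp only [elev, edgeTo, Bool.false_eq_true, if_false, lev_sub]
    rcases sg_eq ℓ j with h | h <;> rw [h] <;> omega
  · simp only [elev, edgeTo, if_true]
    rcases sg_eq ℓ j with h | h
    · rw [h]
    · rw [h]; omega

/-- The set of the edges upwards from `z`. -/
noncomputable def upSet (z : Vtx d) : Finset (Edge d) := Finset.univ.image (upEdge ℓ z)

/-- The set of the edges downwards from `z`. -/
noncomputable def dnSet (z : Vtx d) : Finset (Edge d) := Finset.univ.image (dnEdge ℓ z)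

lemma upEdge_snd (z : Vtx d) (j : Fin d) : (upEdge ℓ z j).2 = j := by
  unfold upEdge; split_ifs <;> rfl

lemma card_upSet (z : Vtx d) : (upSet ℓ z).card = d := by
  unfold upSet
  rw [Finset.card_image_of_injective, Finset.card_univ, Fintype.card_fin]
  intro i j hij
  have := congrArg Prod.snd hij
  rwa [upEdge_snd, upEdge_snd] at this

lemma wt_univ (p : I) (z : Vtx d) : wt p (upSet ℓ z) Set.univ = (p : ℝ) ^ d := by
  unfold wt
  simp [card_upSet]

lemma wt_empty (p : I) (z : Vtx d) : wt p (upSet ℓ z) ∅ = (1 - (p : ℝ)) ^ d := by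
  unfold wt
  simp [card_upSet]

lemma upZ_of_univ {ω : Set (Edge d)} {z : Vtx d} (h : ω ∈ pat (upSet ℓ z) Set.univ) :
    upZ ℓ ω z = d := by
  unfold upZ
  have : ∀ j, upEdge ℓ z j ∈ ω := fun j =>
    (h _ (Finset.mem_image_of_mem _ (Finset.mem_univ j))).2 (Set.mem_univ _)
  simp [this]

lemma upZ_of_not_univ {ω : Set (Edge d)} {z : Vtx d} (h : ω ∉ pat (upSet ℓ z) Set.univ) :
    upZ ℓ ω z ≠ d := by
  classical
  intro hcon
  apply h
  intro e he
  obtain ⟨j, -, rfl⟩ := Finset.mem_image.1 he
  simp only [Set.mem_univ, iff_true]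
  by_contra hj
  have h1 : upZ ℓ ω z < ∑ _j : Fin d, (1 : ℤ) := by
    unfold upZ
    refine Finset.sum_lt_sum (fun i _ => ?_) ⟨j, Finset.mem_univ j, ?_⟩
    · split_ifs <;> norm_num
    · rw [if_neg hj]; norm_num
  simp at h1
  omega

lemma upZ_of_empty {ω : Set (Edge d)} {z : Vtx d} (h : ω ∈ pat (upSet ℓ z) ∅) :
    upZ ℓ ω z = 0 := by
  unfold upZ
  have : ∀ j, upEdge ℓ z j ∉ ω := fun j hj =>
    ((h _ (Finset.mem_image_of_mem _ (Finset.mem_univ j))).1 hj)
  simp [this]

lemma dnZ_depOn (z : Vtx d) : DepOn (dnSet ℓ z) (fun ω => dnZ ℓ ω z) := by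
  classical
  intro ω ω' h
  unfold dnZ
  refine Finset.sum_congr rfl fun j _ => ?_
  have := h _ (Finset.mem_image_of_mem _ (Finset.mem_univ j))
  by_cases h1 : dnEdge ℓ z j ∈ ω
  · rw [if_pos h1, if_pos (this.1 h1)]
  · rw [if_neg h1, if_neg (fun h2 => h1 (this.2 h2))]

lemma measurable_depOn_ind {S : Finset (Edge d)} {s : Set (Set (Edge d))}
    (h : ∀ ω ω' : Set (Edge d), (∀ e ∈ S, (e ∈ ω ↔ e ∈ ω')) → (ω ∈ s ↔ ω' ∈ s)) :
    DepOn S (s.indicator (fun _ => (1 : ℝ))) := by
  intro ω ω' hω
  by_cases h1 : ω ∈ s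
  · rw [Set.indicator_of_mem h1, Set.indicator_of_mem ((h ω ω' hω).1 h1)]
  · rw [Set.indicator_of_notMem h1, Set.indicator_of_notMem fun h2 => h1 ((h ω ω' hω).2 h2)]

lemma unb_depOn (z : Vtx d) : DepOn (upSet ℓ z ∪ dnSet ℓ z) (fun ω => unb ℓ ω z) := by
  classical
  intro ω ω' h
  have h1 : dnZ ℓ ω z = dnZ ℓ ω' z :=
    dnZ_depOn ℓ z ω ω' fun e he => h e (Finset.mem_union_right _ he)
  have h2 : upZ ℓ ω z = upZ ℓ ω' z := by
    unfold upZ
    refine Finset.sum_congr rfl fun j _ => ?_
    have := h _ (Finset.mem_union_left _ (Finset.mem_image_of_mem _ (Finset.mem_univ j)))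
    by_cases h1 : upEdge ℓ z j ∈ ω
    · rw [if_pos h1, if_pos (this.1 h1)]
    · rw [if_neg h1, if_neg (fun h2 => h1 (this.2 h2))]
  change unb ℓ ω z = unb ℓ ω' z
  unfold unb
  rw [beta_eq, beta_eq, h1, h2]

/-- The annealed lower bound for the probability that a fresh record vertex is unbalanced. -/
lemma integral_unb_ge (hd : 0 < d) (p : I) (z : Vtx d) {T : Finset (Edge d)} {f : Set (Edge d) → ℝ}
    (hf : DepOn T f) (hf0 : ∀ ω, 0 ≤ f ω) (hT : ∀ e ∈ T, elev ℓ e ≤ 2 * lev ℓ z - 1)
    (hdn : ∀ ω, f ω ≠ 0 → dnZ ℓ ω z ≠ 0) :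
    (1 / 2) ^ d * (1 - (p : ℝ)) * ∫ ω, f ω ∂(percolation d p) ≤
      ∫ ω, f ω * unb ℓ ω z ∂(percolation d p) := by
  classical
  set P := percolation d p with hP
  have hp0 : (0 : ℝ) ≤ p := p.2.1
  have hp1 : (p : ℝ) ≤ 1 := p.2.2
  have hU : ∀ e ∈ upSet ℓ z, elev ℓ e = 2 * lev ℓ z + 1 := by
    intro e he
    obtain ⟨j, -, rfl⟩ := Finset.mem_image.1 he
    exact elev_upEdge ℓ z j
  have hDn : ∀ e ∈ dnSet ℓ z, elev ℓ e = 2 * lev ℓ z - 1 := by
    intro e he
    obtain ⟨j, -, rfl⟩ := Finset.mem_image.1 he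
    exact elev_dnEdge ℓ z j
  have hfi : Integrable f P := hf.integrable P
  have hfu : Integrable (fun ω => f ω * unb ℓ ω z) P := by
    have : DepOn (T ∪ (upSet ℓ z ∪ dnSet ℓ z)) (fun ω => f ω * unb ℓ ω z) := by
      intro ω ω' h
      have h1 := hf ω ω' fun e he => h e (Finset.mem_union_left _ he)
      have h2 := unb_depOn ℓ z ω ω' fun e he => h e (Finset.mem_union_right _ he)
      simp only at h2
      simp only [h1, h2]
    exact this.integrable P
  have hint0 : 0 ≤ ∫ ω, f ω ∂P := integral_nonneg hf0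
  rcases le_total (p : ℝ) (1 / 2) with hp | hp
  · -- all the edges upwards closed
    have hdisj : Disjoint T (upSet ℓ z) := by
      rw [Finset.disjoint_left]
      intro e he1 he2
      have := hT e he1
      rw [hU e he2] at this
      omega
    have h1 := setIntegral_pat hdisj ∅ p hf
    rw [wt_empty] at h1
    have h2 : ∫ ω in pat (upSet ℓ z) ∅, f ω ∂P ≤ ∫ ω, f ω * unb ℓ ω z ∂P := by
      rw [← integral_indicator (measurableSet_pat _ _)]
      refine integral_mono (hfi.indicator (measurableSet_pat _ _)) hfu fun ω => ?_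
      by_cases hω : ω ∈ pat (upSet ℓ z) ∅
      · rw [Set.indicator_of_mem hω]
        by_cases hf1 : f ω = 0
        · simp [hf1]
        · have : unb ℓ ω z = 1 := by
            unfold unb
            rw [if_neg]
            rw [beta_eq, upZ_of_empty ℓ hω]
            have := hdn ω hf1
            omega
          simp [this]
      · rw [Set.indicator_of_notMem hω]
        exact mul_nonneg (hf0 ω) (unb_nonneg ..)
    rw [h1] at h2
    refine le_trans ?_ h2
    refine mul_le_mul_of_nonneg_right ?_ hint0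
    have h3 : (1 / 2 : ℝ) ^ d ≤ (1 - (p : ℝ)) ^ d :=
      pow_le_pow_left₀ (by norm_num) (by linarith) d
    have h4 : (1 / 2 : ℝ) ^ d * (1 - (p : ℝ)) ≤ (1 / 2 : ℝ) ^ d * 1 :=
      mul_le_mul_of_nonneg_left (by linarith) (by positivity)
    linarith
  · -- split according to the number of open edges downwards
    set g : Set (Edge d) → ℝ := fun ω => if dnZ ℓ ω z = d then f ω else 0 with hg
    set g' : Set (Edge d) → ℝ := fun ω => if dnZ ℓ ω z = d then 0 else f ω with hg'
    have hgd : DepOn (T ∪ dnSet ℓ z) g := by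
      intro ω ω' h
      have h1 := hf ω ω' fun e he => h e (Finset.mem_union_left _ he)
      have h2 := dnZ_depOn ℓ z ω ω' fun e he => h e (Finset.mem_union_right _ he)
      simp only at h2
      simp only [hg, h1, h2]
    have hgd' : DepOn (T ∪ dnSet ℓ z) g' := by
      intro ω ω' h
      have h1 := hf ω ω' fun e he => h e (Finset.mem_union_left _ he)
      have h2 := dnZ_depOn ℓ z ω ω' fun e he => h e (Finset.mem_union_right _ he)
      simp only at h2
      simp only [hg', h1, h2]
    have hdisj : Disjoint (T ∪ dnSet ℓ z) (upSet ℓ z) := by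
      rw [Finset.disjoint_left]
      intro e he1 he2
      have h3 := hU e he2
      rcases Finset.mem_union.1 he1 with h | h
      · have := hT e h
        omega
      · have := hDn e h
        omega
    have hgi := hgd.integrable P
    have hgi' := hgd'.integrable P
    have h1 := setIntegral_pat hdisj Set.univ p hgd
    have h1' := setIntegral_pat hdisj Set.univ p hgd'
    rw [wt_univ] at h1 h1'
    have hsum : ∫ ω, f ω ∂P = ∫ ω, g ω ∂P + ∫ ω, g' ω ∂P := by
      rw [← integral_add hgi hgi']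
      refine integral_congr_ae (ae_of_all _ fun ω => ?_)
      simp only [hg, hg']
      split_ifs <;> simp
    have hm := measurableSet_pat (upSet ℓ z) (Set.univ : Set (Edge d))
    have h2 : ∫ ω in (pat (upSet ℓ z) Set.univ)ᶜ, g ω ∂P + ∫ ω in pat (upSet ℓ z) Set.univ, g' ω ∂P
        ≤ ∫ ω, f ω * unb ℓ ω z ∂P := by
      rw [← integral_indicator hm, ← integral_indicator hm.compl,
        ← integral_add (hgi.indicator hm.compl) (hgi'.indicator hm)]
      refine integral_mono ((hgi.indicator hm.compl).add (hgi'.indicator hm)) hfu fun ω => ?_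
      by_cases hω : ω ∈ pat (upSet ℓ z) Set.univ
      · rw [Set.indicator_of_mem hω, Set.indicator_of_notMem (by simpa using hω)]
        simp only [hg']
        split_ifs with h3
        · rw [add_zero]
          exact mul_nonneg (hf0 ω) (unb_nonneg ..)
        · have : unb ℓ ω z = 1 := by
            unfold unb
            rw [if_neg]
            rw [beta_eq, upZ_of_univ ℓ hω]
            omega
          simp [this]
      · rw [Set.indicator_of_notMem hω, Set.indicator_of_mem (by simpa using hω)]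
        simp only [hg]
        split_ifs with h3
        · have : unb ℓ ω z = 1 := by
            unfold unb
            rw [if_neg]
            have := upZ_of_not_univ ℓ hω
            rw [beta_eq]
            omega
          simp [this]
        · rw [add_zero]
          exact mul_nonneg (hf0 ω) (unb_nonneg ..)
    have h3 : ∫ ω in (pat (upSet ℓ z) Set.univ)ᶜ, g ω ∂P = (1 - (p : ℝ) ^ d) * ∫ ω, g ω ∂P := by
      have := integral_add_compl hm hgi
      rw [h1] at this
      linarith
    rw [h3, h1'] at h2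
    refine le_trans ?_ h2
    rw [hsum, mul_add]
    have hg0 : 0 ≤ ∫ ω, g ω ∂P := integral_nonneg fun ω => by
      simp only [hg]; split_ifs
      · exact hf0 ω
      · exact le_rfl
    have hg0' : 0 ≤ ∫ ω, g' ω ∂P := integral_nonneg fun ω => by
      simp only [hg']; split_ifs
      · exact le_rfl
      · exact hf0 ω
    have hhalf : (1 / 2 : ℝ) ^ d ≤ 1 := pow_le_one₀ (by norm_num) (by norm_num)
    refine add_le_add (mul_le_mul_of_nonneg_right ?_ hg0) (mul_le_mul_of_nonneg_right ?_ hg0')
    · have h5 : (p : ℝ) ^ d ≤ p := pow_le_of_le_one hp0 hp1 hd.ne'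
      have h6 : (1 / 2 : ℝ) ^ d * (1 - p) ≤ 1 * (1 - p) :=
        mul_le_mul_of_nonneg_right hhalf (by linarith)
      linarith
    · have h5 : (1 / 2 : ℝ) ^ d ≤ (p : ℝ) ^ d := pow_le_pow_left₀ (by norm_num) hp d
      have h6 : (1 / 2 : ℝ) ^ d * (1 - p) ≤ (1 / 2 : ℝ) ^ d * 1 :=
        mul_le_mul_of_nonneg_left (by linarith) (by positivity)
      linarith

end Pool.Agent.P2ec0f3
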